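import Pool.Agent.Helper87.ML2.Growth

set_option autoImplicit false

/-! The number of automorphisms of a finite projective plane. -/

namespace Pool.Agent.Helper87.ML2

open Pool.Agent.Helper87.ML OrderDual Order

universe u

section

variable {P : Type u} [Lattice P] [BoundedOrder P]

/-- the elements fixed by all automorphisms which fix `S` -/
def fixedSet (S : Set P) : Set P := {x | ∀ g : P ≃o P, (∀ s ∈ S, g s = s) → g x = x}

lemma subset_fixedSet (S : Set P) : S ⊆ fixedSet S := fun x hx g hg => hg x hx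

lemma fixedSet_mono {S T : Set P} (h : S ⊆ T) : fixedSet S ⊆ fixedSet T :=
  fun x hx g hg => hx g (fun s hs => hg s (h hs))

lemma subP_fixedSet {S : Set P} (hS : ∃ a ∈ S, ∃ b ∈ S, ∃ c ∈ S, ∃ d ∈ S, Quad a b c d) :
    SubP (fixedSet S) where
  bot := fun g _ => g.map_bot
  top := fun g _ => g.map_top
  sup := fun x hx y hy g hg => by rw [map_sup, hx g hg, hy g hg]
  inf := fun x hx y hy g hg => by rw [map_inf, hx g hg, hy g hg]
  quad := by
    obtain ⟨a, ha, b, hb, c, hc, d, hd, Q⟩ := hS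
    exact ⟨a, subset_fixedSet S ha, b, subset_fixedSet S hb, c, subset_fixedSet S hc, d,
      subset_fixedSet S hd, Q⟩

/-- a sublattice with all points is everything -/
lemma eq_univ_of_points (h : IsPlane (⊥ : P) ⊤) {M : Set P} (hM : SubP M)
    (hpt : ∀ x, ⊥ ⋖ x → x ∈ M) (z : P) : z ∈ M := by
  rcases h.1 z bot_le le_top with h1 | h1 | h1 | h1
  · rw [h1]; exact hM.bot
  · exact hpt z h1
  · obtain ⟨-, -, -, h4, -⟩ := id h
    obtain ⟨a, b, -, ⟨ha, hb, -⟩, ⟨haz, hbz, -⟩, hab, -, -⟩ := h4 z bot_le h1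
    rw [← sup_points_eq h ha hb hab h1 haz hbz]
    exact hM.sup _ (hpt a ha) _ (hpt b hb)
  · rw [h1]; exact hM.top

variable [Finite P]

/-- small sets of points with large fixed subplanes -/
lemma exists_base (h : IsPlane (⊥ : P) ⊤) (j : ℕ) : ∃ S : Set P, (∀ x ∈ S, ⊥ ⋖ x) ∧
    S.ncard ≤ 4 + j ∧ SubP (fixedSet S) ∧ ((∀ z, z ∈ fixedSet S) ∨
      ∃ n, 2 ^ (2 ^ j) ≤ n ∧ ∀ x ∈ fixedSet S, ⊥ ⋖ x →
        (linesM (fixedSet S) x).ncard = n + 1) := by
  induction j with
  | zero =>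
    obtain ⟨a, b, c, d, Q⟩ := exists_quad h
    have hsub : SubP (fixedSet ({a, b, c, d} : Set P)) :=
      subP_fixedSet ⟨a, by simp, b, by simp, c, by simp, d, by simp, Q⟩
    refine ⟨{a, b, c, d}, ?_, ?_, hsub, ?_⟩
    · rintro x (rfl | rfl | rfl | rfl)
      · exact Q.ha
      · exact Q.hb
      · exact Q.hc
      · exact Q.hd
    · have h1 := Set.ncard_insert_le a ({b, c, d} : Set P)
      have h2 := Set.ncard_insert_le b ({c, d} : Set P)
      have h3 := Set.ncard_insert_le c ({d} : Set P)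
      have h4 := Set.ncard_singleton d
      omega
    · right
      obtain ⟨n, hn, -, h3⟩ := hsub.order h
      exact ⟨n, by simpa using hn, h3⟩
  | succ j ih =>
    obtain ⟨S, hS, hcard, hsub, hor⟩ := ih
    rcases hor with hall | ⟨n, hn, hlines⟩
    · exact ⟨S, hS, by omega, hsub, Or.inl hall⟩
    · by_cases hall : ∀ x, ⊥ ⋖ x → x ∈ fixedSet S
      · exact ⟨S, hS, by omega, hsub, Or.inl (eq_univ_of_points h hsub hall)⟩
      push Not at hall
      obtain ⟨q, hq, hqS⟩ := hall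
      obtain ⟨a, haM, b, hbM, c, hcM, d, hdM, Q⟩ := hsub.quad
      have hmono : fixedSet S ⊆ fixedSet (insert q S) := fixedSet_mono (Set.subset_insert q S)
      have hsub' : SubP (fixedSet (insert q S)) := {
        bot := fun g _ => g.map_bot
        top := fun g _ => g.map_top
        sup := fun x hx y hy g hg => by rw [map_sup, hx g hg, hy g hg]
        inf := fun x hx y hy g hg => by rw [map_inf, hx g hg, hy g hg]
        quad := ⟨a, hmono haM, b, hmono hbM, c, hmono hcM, d, hmono hdM, Q⟩ }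
      have hqM' : q ∈ fixedSet (insert q S) := subset_fixedSet _ (Set.mem_insert q S)
      obtain ⟨n', -, -, hlines'⟩ := hsub'.order h
      have hgr := SubP.growth h hsub hsub' hmono hq hqM' hqS hlines hlines'
      refine ⟨insert q S, ?_, ?_, hsub', Or.inr ⟨n', ?_, hlines'⟩⟩
      · rintro x (rfl | hx)
        · exact hq
        · exact hS x hx
      · have := Set.ncard_insert_le q S
        omega
      · refine le_trans ?_ hgr
        rw [pow_succ, pow_mul, pow_two]
        exact Nat.mul_le_mul hn hn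

lemma subP_univ (h : IsPlane (⊥ : P) ⊤) : SubP (Set.univ : Set P) where
  bot := trivial
  top := trivial
  sup := fun _ _ _ _ => trivial
  inf := fun _ _ _ _ => trivial
  quad := by
    obtain ⟨a, b, c, d, Q⟩ := exists_quad h
    exact ⟨a, trivial, b, trivial, c, trivial, d, trivial, Q⟩

/-- the order of a finite plane -/
lemma plane_order (h : IsPlane (⊥ : P) ⊤) {l : P} (hl : l ⋖ ⊤) {q : ℕ}
    (hq : {x : P | ⊥ ⋖ x ∧ x ≤ l}.ncard = q + 1) :
    (∀ x : P, ⊥ ⋖ x → (linesM Set.univ x).ncard = q + 1) := by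
  obtain ⟨n, -, h2, h3⟩ := (subP_univ h).order h
  have h4 := h2 l trivial hl
  have h5 : ptsM Set.univ l = {x : P | ⊥ ⋖ x ∧ x ≤ l} := by
    ext x; simp [ptsM]
  rw [h5, hq] at h4
  intro x hx
  rw [h3 x trivial hx]; omega

/-- the number of points -/
lemma card_points (h : IsPlane (⊥ : P) ⊤) {l : P} (hl : l ⋖ ⊤) {q : ℕ}
    (hq : {x : P | ⊥ ⋖ x ∧ x ≤ l}.ncard = q + 1) : {x : P | ⊥ ⋖ x}.ncard ≤ q ^ 2 + q + 1 := by
  have hlines := plane_order h hl hq
  obtain ⟨-, -, -, h4, -⟩ := id h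
  obtain ⟨y1, y2, -, ⟨hy1, hy2, -⟩, ⟨hy1l, hy2l, -⟩, hy12, -, -⟩ := h4 l bot_le hl
  have hcA : ∀ y, ⊥ ⋖ y → y ≤ l → (linesM Set.univ y \ {l}).ncard = q := by
    intro y hy hyl
    rw [Set.ncard_sdiff_singleton_of_mem (show l ∈ linesM Set.univ y from ⟨trivial, hyl, hl⟩),
      hlines y hy]
    omega
  have hsplit : {x : P | ⊥ ⋖ x} ⊆ {x : P | ⊥ ⋖ x ∧ x ≤ l} ∪ {x : P | ⊥ ⋖ x ∧ ¬ x ≤ l} := by
    intro x hx
    by_cases h1 : x ≤ l
    · left; exact ⟨hx, h1⟩
    · right; exact ⟨hx, h1⟩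
  have h1 := Set.ncard_le_ncard hsplit (Set.toFinite _)
  have h2 := Set.ncard_union_le {x : P | ⊥ ⋖ x ∧ x ≤ l} {x : P | ⊥ ⋖ x ∧ ¬ x ≤ l}
  have h3 : {x : P | ⊥ ⋖ x ∧ ¬ x ≤ l}.ncard ≤
      ((linesM Set.univ y1 \ {l}) ×ˢ (linesM Set.univ y2 \ {l})).ncard := by
    refine Set.ncard_le_ncard_of_injOn (fun x => (y1 ⊔ x, y2 ⊔ x)) ?_ ?_ (Set.toFinite _)
    · rintro x ⟨hx, hxl⟩
      have e1 : y1 ≠ x := fun h5 => hxl (h5 ▸ hy1l)
      have e2 : y2 ≠ x := fun h5 => hxl (h5 ▸ hy2l)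
      refine ⟨⟨⟨trivial, le_sup_left, (sup_points h hy1 hx e1).2⟩, ?_⟩,
        ⟨trivial, le_sup_left, (sup_points h hy2 hx e2).2⟩, ?_⟩
      · intro h5
        have h6 : y1 ⊔ x = l := h5
        exact hxl (h6 ▸ le_sup_right)
      · intro h5
        have h6 : y2 ⊔ x = l := h5
        exact hxl (h6 ▸ le_sup_right)
    · rintro x ⟨hx, hxl⟩ x' ⟨hx', hxl'⟩ heq
      simp only [Prod.mk.injEq] at heq
      by_contra hne
      have e1 : y1 ≠ x := fun h5 => hxl (h5 ▸ hy1l)
      have e2 : y2 ≠ x := fun h5 => hxl (h5 ▸ hy2l)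
      have h5 := sup_points_eq h hx hx' hne (sup_points h hy1 hx e1).2 le_sup_right
        (by rw [heq.1]; exact le_sup_right)
      have h6 := sup_points_eq h hx hx' hne (sup_points h hy2 hx e2).2 le_sup_right
        (by rw [heq.2]; exact le_sup_right)
      have h7 : y1 ⊔ x = y2 ⊔ x := h5.symm.trans h6
      have h8 := sup_points_eq h hy1 hy2 hy12 (sup_points h hy1 hx e1).2 le_sup_left
        (by rw [h7]; exact le_sup_left)
      have h9 := sup_points_eq h hy1 hy2 hy12 hl hy1l hy2l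
      exact hxl (by rw [← h9, h8]; exact le_sup_right)
  rw [Set.ncard_prod, hcA y1 hy1 hy1l, hcA y2 hy2 hy2l] at h3
  rw [hq] at h2
  nlinarith

/-- a bound for the number of automorphisms -/
theorem card_aut (h : IsPlane (⊥ : P) ⊤) {l : P} (hl : l ⋖ ⊤) {q : ℕ}
    (hq : {x : P | ⊥ ⋖ x ∧ x ≤ l}.ncard = q + 1) :
    Nat.card (P ≃o P) ≤ (q ^ 2 + q + 1) ^ (Nat.log 2 (Nat.log 2 q) + 5) := by
  have hlines := plane_order h hl hq
  obtain ⟨S, hS, hcard, hsub, hor⟩ := exists_base h (Nat.log 2 (Nat.log 2 q) + 1)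
  have hall : ∀ z, z ∈ fixedSet S := by
    rcases hor with hall | ⟨n, hn, hl'⟩
    · exact hall
    · exfalso
      obtain ⟨a, haM, _, _, _, _, _, _, Q⟩ := hsub.quad
      have h1 : (linesM (fixedSet S) a).ncard ≤ (linesM Set.univ a).ncard := by
        apply Set.ncard_le_ncard _ (Set.toFinite _)
        rintro m ⟨-, h2, h3⟩
        exact ⟨trivial, h2, h3⟩
      rw [hl' a haM Q.ha, hlines a Q.ha] at h1
      have h2 : Nat.log 2 q < 2 ^ (Nat.log 2 (Nat.log 2 q) + 1) :=
        Nat.lt_pow_succ_log_self one_lt_two _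
      have h3 : q < 2 ^ (Nat.log 2 q + 1) := Nat.lt_pow_succ_log_self one_lt_two _
      have h4 : 2 ^ (Nat.log 2 q + 1) ≤ 2 ^ 2 ^ (Nat.log 2 (Nat.log 2 q) + 1) :=
        Nat.pow_le_pow_right (by norm_num) h2
      omega
  have hinj : Function.Injective (fun (g : P ≃o P) (s : S) =>
      (⟨g s, by
        have h1 := hS s s.2
        rw [← apply_covBy_apply_iff g, g.map_bot] at h1
        exact h1⟩ : {x : P | ⊥ ⋖ x})) := by
    intro g g' hgg
    have h1 : ∀ s ∈ S, g s = g' s := by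
      intro s hs
      have h2 := congrFun hgg ⟨s, hs⟩
      exact congrArg Subtype.val h2
    apply OrderIso.ext
    funext z
    have h2 := hall z (g.trans g'.symm) (by
      intro s hs
      show g'.symm (g s) = s
      rw [h1 s hs, g'.symm_apply_apply])
    have h3 : g'.symm (g z) = z := h2
    rw [← h3, g'.apply_symm_apply, h3]
  have h1 := Nat.card_le_card_of_injective _ hinj
  rw [Nat.card_fun] at h1
  have h2 : Nat.card {x : P | ⊥ ⋖ x} ≤ q ^ 2 + q + 1 := card_points h hl hq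
  have h3 : Nat.card S ≤ Nat.log 2 (Nat.log 2 q) + 5 := by
    have : Nat.card S = S.ncard := rfl
    omega
  refine h1.trans ((Nat.pow_le_pow_left h2 _).trans (Nat.pow_le_pow_right (by omega) h3))

end

end Pool.Agent.Helper87.ML2
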