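import Pool.Agent.Helper87.ML2.Struct

set_option autoImplicit false

/-! The classification in length four. -/

namespace Pool.Agent.Helper87.ML2

open Pool.Agent.Helper87.ML OrderDual Order

universe u v w

lemma modular_iso {L : Type u} {L' : Type v} [Lattice L] [Lattice L'] (φ : L ≃o L')
    (h : IsModularLattice L') : IsModularLattice L where
  sup_inf_le_assoc_of_le := by
    intro x y z hxz
    rw [← φ.le_iff_le, map_inf, map_sup, map_sup, map_inf]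
    exact h.sup_inf_le_assoc_of_le _ (φ.monotone hxz)

lemma planeFree_iso {L : Type u} {L' : Type v} [Lattice L] [Lattice L'] (φ : L ≃o L')
    (h : PlaneFree L') : PlaneFree L := by
  intro x y hxy hp
  exact h (φ x) (φ y) (φ.monotone hxy) (isPlane_congr hxy (iccMap φ x y) hp)

section

variable {P : Type u} [Lattice P] [BoundedOrder P] {p : P} {σ : Equiv.Perm {l : P // p ⋖ l}}
  {L : Type v} [Lattice L]

/-- twisted gluings are unique -/
lemma twist_tw (hP : IsPlane (⊥ : P) ⊤) (hp : ⊥ ⋖ p) (h : IsTwist P p σ L) :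
    Nonempty (L ≃o Tw σ hP hp) := by
  apply twist_iso_of hP hp h (isTwist_tw σ hP hp) (OrderIso.refl P) (OrderIso.refl P) rfl rfl
  intro l l' hll
  have h7 : l' = l := Subtype.ext hll
  rw [h7]; rfl

theorem twist_props [Finite P] [BoundedOrder L] (hP : IsPlane (⊥ : P) ⊤) (hp : ⊥ ⋖ p)
    (h : IsTwist P p σ L) : Finite L ∧ IsModularLattice L ∧ krullDim L = 4 ∧
      ¬ ComplementedLattice L ∧ ¬ PlaneFree L := by
  obtain ⟨φ⟩ := twist_tw hP hp h
  refine ⟨Finite.of_equiv _ φ.symm.toEquiv, modular_iso φ (tw_modular σ hP hp), ?_, ?_, ?_⟩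
  · rw [krullDim_eq_of_orderIso φ, tw_krull]
  · rw [φ.complementedLattice_iff]; exact tw_not_compl σ hP hp
  · intro h1
    exact tw_not_pf σ hP hp (planeFree_iso φ.symm h1)

/-- self-duality of the intervals of a twisted gluing -/
theorem twist_sd [Finite P] [BoundedOrder L] (hP : IsPlane (⊥ : P) ⊤) (hp : ⊥ ⋖ p)
    (h : IsTwist P p σ L) : SD' L ↔ Nonempty (P ≃o Pᵒᵈ) ∧ SameTwist p σ p σ⁻¹ := by
  constructor
  · intro hsd
    obtain ⟨d⟩ := h.data
    constructor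
    · obtain ⟨e⟩ := iic_icc' d.s
      exact sd_trans (d.f.trans e) (hsd ⊥ d.s bot_le)
    · obtain ⟨w⟩ := whole_icc (L := L)
      exact (twist_iso_iff hP hp hP hp h h.dual).1 (sd_trans w (hsd ⊥ ⊤ le_top))
  · rintro ⟨⟨δ⟩, α, β, h1, h2, h3⟩
    obtain ⟨Δ⟩ := twist_iso_of hP hp (isTwist_tw σ hP hp) (isTwist_tw σ hP hp).dual α β h1 h2 h3
    obtain ⟨φ⟩ := twist_tw hP hp h
    exact SD'.iso φ (sd_tw σ hP hp δ Δ)

end

theorem length_four (L : Type u) [Lattice L] [BoundedOrder L] [Finite L] :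
    (IsModularLattice L ∧ SD' L ∧ krullDim L = 4 ∧ ¬ ComplementedLattice L ∧ ¬ PlaneFree L) ↔
      ∃ (P : Type u) (_ : Lattice P) (_ : BoundedOrder P) (p : P)
        (σ : Equiv.Perm {l : P // p ⋖ l}), Finite P ∧ IsPlane (⊥ : P) ⊤ ∧ ⊥ ⋖ p ∧
        Nonempty (P ≃o Pᵒᵈ) ∧ SameTwist p σ p σ⁻¹ ∧ IsTwist P p σ L := by
  constructor
  · rintro ⟨hm, hsd, hk, hc, hpf⟩
    obtain ⟨P, i1, i2, p, σ, h1, h2, h3, h4, h5⟩ := exists_twist hsd hk hc hpf
    exact ⟨P, i1, i2, p, σ, h1, h2, h3, h4, ((twist_sd h2 h3 h5).1 hsd).2, h5⟩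
  · rintro ⟨P, i1, i2, p, σ, h1, h2, h3, h4, h6, h5⟩
    obtain ⟨-, k2, k3, k4, k5⟩ := twist_props h2 h3 h5
    exact ⟨k2, (twist_sd h2 h3 h5).2 ⟨h4, h6⟩, k3, k4, k5⟩

end Pool.Agent.Helper87.ML2
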