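import Mathlib

set_option autoImplicit false

/-! The number of involutions. -/

namespace Pool.Agent.Helper87.ML2

open Nat

lemma invol_congr {X Y : Type*} (e : X ≃ Y) :
    Nat.card {σ : Equiv.Perm X // σ * σ = 1} = Nat.card {σ : Equiv.Perm Y // σ * σ = 1} := by
  apply Nat.card_congr
  refine (e.permCongr).subtypeEquiv ?_
  intro σ
  constructor
  · intro h
    ext y
    have := congrArg (fun τ : Equiv.Perm X => e (τ (e.symm y))) h
    simpa [Equiv.Perm.mul_apply, Equiv.permCongr_apply] using this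
  · intro h
    ext x
    have := congrArg (fun τ : Equiv.Perm Y => e.symm (τ (e x))) h
    simpa [Equiv.Perm.mul_apply, Equiv.permCongr_apply] using this

/-- the involution of `Fin k ⊕ Fin k ⊕ R` given by a permutation -/
def mkInvol {K R : Type*} (π : Equiv.Perm K) : Equiv.Perm ((K ⊕ K) ⊕ R) :=
  Equiv.sumCongr ((Equiv.sumCongr π π.symm).trans (Equiv.sumComm K K)) (Equiv.refl R)

lemma mkInvol_sq {K R : Type*} (π : Equiv.Perm K) :
    (mkInvol π : Equiv.Perm ((K ⊕ K) ⊕ R)) * mkInvol π = 1 := by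
  ext x
  rcases x with (x | x) | x <;> simp [mkInvol, Equiv.Perm.mul_apply]

lemma mkInvol_inj {K R : Type*} :
    Function.Injective (mkInvol : Equiv.Perm K → Equiv.Perm ((K ⊕ K) ⊕ R)) := by
  intro π π' h
  ext x
  have := congrArg (fun τ : Equiv.Perm ((K ⊕ K) ⊕ R) => τ (Sum.inl (Sum.inl x))) h
  simpa [mkInvol] using this

theorem factorial_le_invol (X : Type*) [Finite X] :
    (Nat.card X / 2)! ≤ Nat.card {σ : Equiv.Perm X // σ * σ = 1} := by
  obtain ⟨k, hk⟩ : ∃ k, k = Nat.card X / 2 := ⟨_, rfl⟩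
  have e : (Fin k ⊕ Fin k) ⊕ Fin (Nat.card X - 2 * k) ≃ X := by
    apply Nonempty.some
    rw [← Finite.card_eq]
    rw [Nat.card_sum, Nat.card_sum]
    simp only [Nat.card_eq_fintype_card, Fintype.card_fin]
    omega
  rw [← hk, ← invol_congr e]
  have h1 : k ! = Nat.card (Equiv.Perm (Fin k)) := by
    rw [Nat.card_eq_fintype_card, Fintype.card_perm, Fintype.card_fin]
  rw [h1]
  apply Nat.card_le_card_of_injective
    (fun π : Equiv.Perm (Fin k) =>
      (⟨mkInvol π, mkInvol_sq π⟩ : {σ : Equiv.Perm ((Fin k ⊕ Fin k) ⊕ Fin (Nat.card X - 2 * k)) //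
        σ * σ = 1}))
  intro π π' h
  exact mkInvol_inj (congrArg Subtype.val h)

end Pool.Agent.Helper87.ML2
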