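import Pool.Agent.Helper87.ML2.Proper
import Pool.Agent.Helper87.ML2.AutBound
import Pool.Agent.Helper87.ML2.Invol

set_option autoImplicit false

/-! Many lattices with the same plane. -/

namespace Pool.Agent.Helper87.ML2

open Pool.Agent.Helper87.ML OrderDual Order Nat

universe u

section

variable {P : Type u} [Lattice P] [BoundedOrder P] {p : P} (hP : IsPlane (⊥ : P) ⊤) (hp : ⊥ ⋖ p)

/-- twisted gluings by involutions are self-dual -/
lemma tw_invol_sd [Finite P] (δ : P ≃o Pᵒᵈ) (σ : Equiv.Perm {l : P // p ⋖ l}) (h : σ * σ = 1) :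
    SD' (Tw σ hP hp) := by
  rw [twist_sd hP hp (isTwist_tw σ hP hp)]
  refine ⟨⟨δ⟩, OrderIso.refl P, OrderIso.refl P, rfl, rfl, ?_⟩
  intro l l' hll
  have h1 : l' = l := Subtype.ext hll
  have h2 : σ⁻¹ = σ := by
    rw [inv_eq_iff_mul_eq_one]; exact h
  rw [h1, h2]; rfl

/-- the isomorphism relation on the involutions -/
def invRel : Setoid {σ : Equiv.Perm {l : P // p ⋖ l} // σ * σ = 1} where
  r σ τ := Nonempty (Tw σ.1 hP hp ≃o Tw τ.1 hP hp)
  iseqv := ⟨fun _ => ⟨OrderIso.refl _⟩, fun ⟨e⟩ => ⟨e.symm⟩, fun ⟨e⟩ ⟨f⟩ => ⟨e.trans f⟩⟩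

lemma card_invRel [Finite P] :
    Nat.card {σ : Equiv.Perm {l : P // p ⋖ l} // σ * σ = 1} ≤
      Nat.card (Quotient (invRel hP hp)) * (Nat.card (P ≃o P) * Nat.card (P ≃o P)) := by
  classical
  have hfinA : Finite (P ≃o P) := Finite.of_injective (fun g : P ≃o P => (g : P → P))
    (fun g g' h => OrderIso.ext h)
  have hex : ∀ τ : {σ : Equiv.Perm {l : P // p ⋖ l} // σ * σ = 1}, ∃ α β : P ≃o P,
      α p = p ∧ β p = p ∧ ∀ (l l' : {l : P // p ⋖ l}), (l' : P) = α l →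
        β ((Quotient.out (Quotient.mk (invRel hP hp) τ)).1 l : P) = τ.1 l' := by
    intro τ
    have h1 : Nonempty (Tw (Quotient.out (Quotient.mk (invRel hP hp) τ)).1 hP hp ≃o
        Tw τ.1 hP hp) := Quotient.mk_out (s := invRel hP hp) τ
    exact (twist_iso_iff hP hp hP hp (isTwist_tw _ hP hp) (isTwist_tw τ.1 hP hp)).1 h1
  choose α β h1 h2 h3 using hex
  have hinj : Function.Injective (fun τ : {σ : Equiv.Perm {l : P // p ⋖ l} // σ * σ = 1} =>
      (Quotient.mk (invRel hP hp) τ, (α τ, β τ))) := by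
    intro τ τ' h
    simp only [Prod.mk.injEq] at h
    obtain ⟨e1, e2, e3⟩ := h
    apply Subtype.ext
    apply Equiv.ext
    intro l'
    have hl : p ⋖ (α τ).symm (l' : P) := by
      have h4 : (α τ) p ⋖ (l' : P) := by rw [h1]; exact l'.2
      rw [← apply_covBy_apply_iff (α τ), (α τ).apply_symm_apply]; exact h4
    have h4 := h3 τ ⟨(α τ).symm (l' : P), hl⟩ l' (by rw [(α τ).apply_symm_apply])
    have h5 := h3 τ' ⟨(α τ).symm (l' : P), hl⟩ l' (by rw [← e2, (α τ).apply_symm_apply])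
    apply Subtype.ext
    rw [← h4, ← h5, ← e3, e1]
  have h4 := Nat.card_le_card_of_injective _ hinj
  rwa [Nat.card_prod, Nat.card_prod] at h4

end

/-- many lattices with the same plane -/
theorem many (P : Type u) [Lattice P] [BoundedOrder P] [Finite P] (hP : IsPlane (⊥ : P) ⊤)
    (hd : Nonempty (P ≃o Pᵒᵈ)) (q : ℕ)
    (hq : ∃ l : P, l ⋖ ⊤ ∧ {x : P | ⊥ ⋖ x ∧ x ≤ l}.ncard = q + 1) :
    ∃ (ι : Type u) (_ : Finite ι) (L : ι → Type u) (_ : ∀ i, Lattice (L i))
      (_ : ∀ i, BoundedOrder (L i)),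
      (∀ i, Finite (L i) ∧ IsModularLattice (L i) ∧ SD' (L i) ∧ krullDim (L i) = 4 ∧
        ¬ ComplementedLattice (L i) ∧ ¬ PlaneFree (L i) ∧
        ∀ x y : L i, IsPlane x y → Nonempty (Set.Icc x y ≃o P)) ∧
      (∀ i j, Nonempty (L i ≃o L j) → i = j) ∧
      (∀ i j, ∀ x y : L i, x ≤ y → ¬ (x = ⊥ ∧ y = ⊤) → ∃ x' y' : L j, x' ≤ y' ∧
        ¬ (x' = ⊥ ∧ y' = ⊤) ∧ Nonempty (Set.Icc x y ≃o Set.Icc x' y')) ∧
      Nat.card {σ : Equiv.Perm (Fin (q + 1)) // σ * σ = 1} ≤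
        Nat.card ι * Nat.card (P ≃o P) ^ 2 ∧
      ((q + 1) / 2)! ≤ Nat.card {σ : Equiv.Perm (Fin (q + 1)) // σ * σ = 1} ∧
      Nat.card (P ≃o P) ≤ (q ^ 2 + q + 1) ^ (Nat.log 2 (Nat.log 2 q) + 5) := by
  obtain ⟨δ⟩ := hd
  obtain ⟨l, hl, hq⟩ := hq
  obtain ⟨-, -, -, -, p, -, -, ⟨hp, -, -⟩, -, -⟩ := id hP
  refine ⟨Quotient (invRel hP hp), inferInstance, fun i => Tw (Quotient.out i).1 hP hp,
    fun i => inferInstance, fun i => inferInstance, ?_, ?_, ?_, ?_⟩
  · intro i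
    have hsd := tw_invol_sd hP hp δ (Quotient.out i).1 (Quotient.out i).2
    obtain ⟨k1, k2, k3, k4, k5⟩ := twist_props hP hp (isTwist_tw (Quotient.out i).1 hP hp)
    exact ⟨k1, k2, hsd, k3, k4, k5, fun x y h => tw_planes _ hP hp hsd h⟩
  · intro i j h
    rw [← Quotient.out_eq i, ← Quotient.out_eq j]
    exact Quotient.sound h
  · intro i j x y hxy hne
    exact proper_match _ _ hP hp hxy hne
  · have h2 := card_invRel hP hp
    have h4 : Nat.card {l : P // p ⋖ l} = q + 1 := by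
      rw [← plane_order hP hl hq p hp]
      show {l : P | p ⋖ l}.ncard = _
      congr 1
      ext m
      constructor
      · intro hm
        exact ⟨trivial, hm.le, cov_point hP hp hm⟩
      · rintro ⟨-, h5, h6⟩
        rcases above_point hP hp h5 with h7 | h7 | h7
        · exact absurd (h7 ▸ h6) (point_not_coatom hP hp)
        · exact h7.1
        · exact absurd h7 h6.lt.ne
    have e : {l : P // p ⋖ l} ≃ Fin (q + 1) := by
      apply Nonempty.some
      rw [← Finite.card_eq, h4, Nat.card_eq_fintype_card, Fintype.card_fin]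
    rw [invol_congr e] at h2
    have h1 := factorial_le_invol (Fin (q + 1))
    rw [Nat.card_eq_fintype_card, Fintype.card_fin] at h1
    exact ⟨by rw [pow_two]; exact h2, h1, card_aut hP hl hq⟩

end Pool.Agent.Helper87.ML2
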