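import Mathlib

set_option autoImplicit false

/-! Twisted gluings of a lattice and its dual. -/

namespace Pool.Agent.Helper87.ML2

open OrderDual

universe u v

/-- `L` is the union of a principal ideal `[⊥, s]`, isomorphic to `P` by `f`, and of a principal
filter `[r, ⊤]`, isomorphic to the dual of `P` by `g`, where `f p = r` and `g p = s`, and where the
element `f l` of `[r, s]`, `l` a cover of `p` in `P`, is `g (σ l)`; here `σ` is a permutation of the
covers of `p`. -/
def IsTwist (P : Type u) [Lattice P] (p : P) (σ : Equiv.Perm {l : P // p ⋖ l}) (L : Type v)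
    [Lattice L] : Prop :=
  ∃ (r s : L) (f : P ≃o Set.Iic s) (g : Pᵒᵈ ≃o Set.Ici r), (∀ x, x ≤ s ∨ r ≤ x) ∧
    (f p : L) = r ∧ (g (toDual p) : L) = s ∧
    ∀ l : {l : P // p ⋖ l}, (f (l : P) : L) = g (toDual (σ l : P))

/-- There are isomorphisms `α, β : P → P'` which map `p` to `p'`, such that the permutation `σ` of
the covers of `p` and the permutation `σ'` of the covers of `p'` satisfy `σ' α = β σ`. -/
def SameTwist {P : Type u} {P' : Type v} [Lattice P] [Lattice P'] (p : P)
    (σ : Equiv.Perm {l : P // p ⋖ l}) (p' : P') (σ' : Equiv.Perm {l : P' // p' ⋖ l}) : Prop :=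
  ∃ α β : P ≃o P', α p = p' ∧ β p = p' ∧
    ∀ (l : {l : P // p ⋖ l}) (l' : {l : P' // p' ⋖ l}), (l' : P') = α l → β (σ l : P) = σ' l'

end Pool.Agent.Helper87.ML2
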