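import Pool.Agent.Helper87.ML2.Plane

set_option autoImplicit false

/-! General lemmas on self-dual intervals. -/

namespace Pool.Agent.Helper87.ML2

open Pool.Agent.Helper87.ML OrderDual

universe u v w

section SD

/-- short intervals are self-dual -/
lemma sd_short {L : Type*} [PartialOrder L] {x y : L}
    (h : ∀ z w, x < z → z ≤ w → w < y → z = w) (hxy : x ≤ y) :
    Nonempty (Set.Icc x y ≃o (Set.Icc x y)ᵒᵈ) := by
  classical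
  obtain ⟨F, hF⟩ : ∃ F : Set.Icc x y → Set.Icc x y, F = fun z : Set.Icc x y =>
    if (z : L) = x then (⟨y, hxy, le_rfl⟩ : Set.Icc x y) else if (z : L) = y then
      (⟨x, le_rfl, hxy⟩ : Set.Icc x y) else z := ⟨_, rfl⟩
  have hFx : ∀ z : Set.Icc x y, (z : L) = x → (F z : L) = y := by
    intro z hz; rw [hF]; simp [hz]
  have hFy : ∀ z : Set.Icc x y, (z : L) = y → (F z : L) = x := by
    intro z hz; rw [hF]
    by_cases h1 : (z : L) = x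
    · simp only [h1, if_true]
      rw [← hz, h1]
    · simp only [hz]
      by_cases h2 : y = x
      · simp [h2]
      · simp [h2]
  have hFm : ∀ z : Set.Icc x y, (z : L) ≠ x → (z : L) ≠ y → F z = z := by
    intro z h1 h2; rw [hF]; simp [h1, h2]
  have hFF : ∀ z, F (F z) = z := by
    intro z
    apply Subtype.ext
    by_cases h1 : (z : L) = x
    · rw [hFy _ (hFx z h1), h1]
    · by_cases h2 : (z : L) = y
      · rw [hFx _ (hFy z h2), h2]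
      · rw [hFm z h1 h2, hFm z h1 h2]
  have hFa : ∀ z w, z ≤ w → F w ≤ F z := by
    intro z w hzw
    by_cases h1 : (z : L) = x
    · show (F w : L) ≤ F z
      rw [hFx z h1]; exact (F w).2.2
    by_cases h2 : (w : L) = y
    · show (F w : L) ≤ F z
      rw [hFy w h2]; exact (F z).2.1
    have hzw' : (z : L) ≤ w := hzw
    have h3 : (z : L) ≠ y := fun h3 => h2 (le_antisymm w.2.2 (h3.ge.trans hzw'))
    have h4 : (w : L) ≠ x := fun h4 => h1 (le_antisymm (hzw'.trans h4.le) z.2.1)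
    rw [hFm z h1 h3, hFm w h4 h2]
    have h5 : (z : L) = w := h z w (lt_of_le_of_ne z.2.1 (Ne.symm h1)) hzw
      (lt_of_le_of_ne w.2.2 h2)
    exact h5.ge
  refine ⟨⟨⟨fun z => toDual (F z), fun z => F (ofDual z), hFF, fun z => ?_⟩, ?_⟩⟩
  · exact congrArg toDual (hFF (ofDual z))
  · intro z w
    constructor
    · intro h1
      have h2 := hFa _ _ (show F w ≤ F z from h1)
      rwa [hFF, hFF] at h2
    · intro h1; exact hFa z w h1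

/-- bounded posets of height three with a polarity -/
lemma sd_four {M : Type*} [PartialOrder M] {o t : M} (hot : o ≠ t) (ho : ∀ z, o ≤ z)
    (ht : ∀ z, z ≤ t) {α : Type*} (i j : α → M)
    (hcov : ∀ z, z = o ∨ (∃ a, z = i a) ∨ (∃ a, z = j a) ∨ z = t)
    (hio : ∀ a, i a ≠ o) (hit : ∀ a, i a ≠ t) (hjo : ∀ a, j a ≠ o) (hjt : ∀ a, j a ≠ t)
    (hii : ∀ a b, i a ≤ i b → a = b) (hjj : ∀ a b, j a ≤ j b → a = b)
    (hji : ∀ a b, ¬ j a ≤ i b) (hij : ∀ a b, i a ≤ j b → i b ≤ j a) :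
    Nonempty (M ≃o Mᵒᵈ) := by
  classical
  obtain ⟨F, hF⟩ : ∃ F : M → M, F = fun z =>
    if z = o then t else if z = t then o else if h : ∃ a, z = i a then j h.choose
    else if h : ∃ a, z = j a then i h.choose else z := ⟨_, rfl⟩
  have hFo : F o = t := by rw [hF]; simp
  have hFt : F t = o := by rw [hF]; simp [hot.symm]
  have hFi : ∀ a, F (i a) = j a := by
    intro a
    have hex : ∃ b, i a = i b := ⟨a, rfl⟩
    have h1 : hex.choose = a := (hii _ _ hex.choose_spec.le).symm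
    rw [hF]
    simp only [hio a, hit a, if_false, dif_pos hex]
    rw [h1]
  have hFj : ∀ a, F (j a) = i a := by
    intro a
    have hex : ∃ b, j a = j b := ⟨a, rfl⟩
    have h1 : hex.choose = a := (hjj _ _ hex.choose_spec.le).symm
    have hno : ¬ ∃ b, j a = i b := by
      rintro ⟨b, hb⟩
      exact hji a b hb.le
    rw [hF]
    simp only [hjo a, hjt a, if_false, dif_neg hno, dif_pos hex]
    rw [h1]
  have hFF : ∀ z, F (F z) = z := by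
    intro z
    rcases hcov z with rfl | ⟨a, rfl⟩ | ⟨a, rfl⟩ | rfl
    · rw [hFo, hFt]
    · rw [hFi, hFj]
    · rw [hFj, hFi]
    · rw [hFt, hFo]
  have hFa : ∀ z w, z ≤ w → F w ≤ F z := by
    intro z w hzw
    rcases hcov z with rfl | ⟨a, rfl⟩ | ⟨a, rfl⟩ | rfl
    · rw [hFo]; exact ht _
    · rcases hcov w with rfl | ⟨b, rfl⟩ | ⟨b, rfl⟩ | rfl
      · exact absurd (le_antisymm hzw (ho _)) (hio a)
      · rw [hii a b hzw]
      · rw [hFi, hFj]; exact hij a b hzw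
      · rw [hFt]; exact ho _
    · rcases hcov w with rfl | ⟨b, rfl⟩ | ⟨b, rfl⟩ | rfl
      · exact absurd (le_antisymm hzw (ho _)) (hjo a)
      · exact absurd hzw (hji a b)
      · rw [hjj a b hzw]
      · rw [hFt]; exact ho _
    · rw [le_antisymm (ht w) hzw]
  refine ⟨⟨⟨fun z => toDual (F z), fun z => F (ofDual z), hFF, fun z => ?_⟩, ?_⟩⟩
  · exact congrArg toDual (hFF (ofDual z))
  · intro z w
    constructor
    · intro h1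
      have h2 := hFa _ _ (show F w ≤ F z from h1)
      rwa [hFF, hFF] at h2
    · intro h1; exact hFa z w h1

/-- the dual of an interval -/
def iccDual {L L' : Type*} [PartialOrder L] [PartialOrder L'] (Δ : L ≃o L'ᵒᵈ) (x y : L) :
    Set.Icc x y ≃o (Set.Icc (ofDual (Δ y)) (ofDual (Δ x)))ᵒᵈ where
  toFun z := toDual (⟨ofDual (Δ z), Δ.monotone z.2.2, Δ.monotone z.2.1⟩ :
    Set.Icc (ofDual (Δ y)) (ofDual (Δ x)))
  invFun z := ⟨Δ.symm (toDual ((ofDual z : Set.Icc (ofDual (Δ y)) (ofDual (Δ x))) : L')), by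
    constructor
    · rw [Δ.le_symm_apply]; exact (ofDual z).2.2
    · rw [Δ.symm_apply_le]; exact (ofDual z).2.1⟩
  left_inv z := by
    apply Subtype.ext
    show Δ.symm (Δ z) = z
    rw [Δ.symm_apply_apply]
  right_inv z := by
    obtain ⟨z, hz⟩ := z
    apply congrArg toDual
    apply Subtype.ext
    show ofDual (Δ (Δ.symm (toDual z))) = z
    rw [Δ.apply_symm_apply]
    rfl
  map_rel_iff' := by
    intro a b
    exact Δ.le_iff_le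

/-- intervals under isomorphisms -/
def iccMap {L L' : Type*} [PartialOrder L] [PartialOrder L'] (Δ : L ≃o L') (x y : L) :
    Set.Icc x y ≃o Set.Icc (Δ x) (Δ y) where
  toFun z := ⟨Δ z, Δ.monotone z.2.1, Δ.monotone z.2.2⟩
  invFun z := ⟨Δ.symm z, by
    constructor
    · rw [Δ.le_symm_apply]; exact z.2.1
    · rw [Δ.symm_apply_le]; exact z.2.2⟩
  left_inv z := Subtype.ext (Δ.symm_apply_apply z)
  right_inv z := Subtype.ext (Δ.apply_symm_apply z)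
  map_rel_iff' := by
    intro a b
    exact Δ.le_iff_le

lemma sd_trans {M N : Type*} [PartialOrder M] [PartialOrder N] (φ : M ≃o N)
    (h : Nonempty (N ≃o Nᵒᵈ)) : Nonempty (M ≃o Mᵒᵈ) := by
  obtain ⟨d⟩ := h
  exact ⟨φ.trans (d.trans φ.symm.dual)⟩

lemma sd_dual {M : Type*} [PartialOrder M] (h : Nonempty (M ≃o Mᵒᵈ)) :
    Nonempty (Mᵒᵈ ≃o Mᵒᵈᵒᵈ) := by
  obtain ⟨d⟩ := h
  exact ⟨d.dual⟩

/-- self-duality of all intervals is invariant under isomorphisms -/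
lemma SD'.iso {L L' : Type*} [PartialOrder L] [PartialOrder L'] (φ : L ≃o L') (h : SD' L') :
    SD' L := by
  intro x y hxy
  exact sd_trans (iccMap φ x y) (h _ _ (φ.monotone hxy))

end SD

/-- planes under isomorphisms -/
lemma isPlane_aux {L L' : Type*} [Lattice L] [Lattice L'] {x y : L} {x' y' : L'} (hxy : x ≤ y)
    (φ : Set.Icc x y → L') (kl : ∀ a b : Set.Icc x y, (φ a ≤ φ b ↔ (a : L) ≤ b))
    (ks : ∀ z', x' ≤ z' → z' ≤ y' → ∃ a : Set.Icc x y, φ a = z')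
    (kb : ∀ a, x' ≤ φ a ∧ φ a ≤ y') (h : IsPlane x y) : IsPlane x' y' := by
  have hxy' : x' ≤ y' := (kb ⟨x, le_rfl, hxy⟩).1.trans (kb ⟨x, le_rfl, hxy⟩).2
  have kx : φ ⟨x, le_rfl, hxy⟩ = x' := by
    obtain ⟨a, ha⟩ := ks x' le_rfl hxy'
    apply le_antisymm _ (kb ⟨x, le_rfl, hxy⟩).1
    rw [← ha, kl]; exact a.2.1
  have ky : (φ ⟨y, hxy, le_rfl⟩ : L') = y' := by
    obtain ⟨a, ha⟩ := ks y' hxy' le_rfl
    apply le_antisymm (kb ⟨y, hxy, le_rfl⟩).2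
    rw [← ha, kl]; exact a.2.2
  have kt : ∀ a b : Set.Icc x y, (φ a < φ b ↔ (a : L) < b) := by
    intro a b
    rw [lt_iff_le_not_ge, lt_iff_le_not_ge, kl, kl]
  have kc : ∀ a b : Set.Icc x y, (φ a ⋖ φ b ↔ (a : L) ⋖ b) := by
    intro a b
    constructor
    · rintro ⟨h1, h2⟩
      refine ⟨(kt a b).1 h1, fun c hac hcb => ?_⟩
      have hc : c ∈ Set.Icc x y := ⟨a.2.1.trans hac.le, hcb.le.trans b.2.2⟩
      exact h2 ((kt a ⟨c, hc⟩).2 hac) ((kt ⟨c, hc⟩ b).2 hcb)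
    · rintro ⟨h1, h2⟩
      refine ⟨(kt a b).2 h1, fun c' hac hcb => ?_⟩
      obtain ⟨c, rfl⟩ := ks c' ((kb a).1.trans hac.le) (hcb.le.trans (kb b).2)
      exact h2 ((kt a c).1 hac) ((kt c b).1 hcb)
  have kc1 : ∀ a : Set.Icc x y, (x' ⋖ φ a ↔ x ⋖ (a : L)) := by
    intro a
    rw [← kc ⟨x, le_rfl, hxy⟩ a, kx]
  have kc2 : ∀ a : Set.Icc x y, (φ a ⋖ y' ↔ (a : L) ⋖ y) := by
    intro a
    rw [← kc a ⟨y, hxy, le_rfl⟩, ky]
  obtain ⟨h1, h2, h3, h4, h5⟩ := h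
  refine ⟨?_, ?_, ?_, ?_, ?_⟩
  · intro z' hz1 hz2
    obtain ⟨a, rfl⟩ := ks z' hz1 hz2
    rcases h1 a a.2.1 a.2.2 with h | h | h | h
    · left; rw [← kx]
      exact congrArg (fun c => φ c) (Subtype.ext h)
    · right; left; exact (kc1 a).2 h
    · right; right; left; exact (kc2 a).2 h
    · right; right; right; rw [← ky]
      exact congrArg (fun c => φ c) (Subtype.ext h)
  · intro p' q' hp' hpy' hq' hqy' hne
    obtain ⟨p, rfl⟩ := ks p' hp'.le hpy'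
    obtain ⟨q, rfl⟩ := ks q' hq'.le hqy'
    obtain ⟨l, ⟨⟨hl1, hl2⟩, hl3, hl4⟩, hl5⟩ := h2 p q ((kc1 p).1 hp') p.2.2 ((kc1 q).1 hq') q.2.2
      (fun h => hne (by rw [Subtype.ext h]))
    refine ⟨φ ⟨l, hl1, hl2.le⟩, ⟨⟨(kb _).1, (kc2 _).2 hl2⟩, (kl _ _).2 hl3, (kl _ _).2 hl4⟩, ?_⟩
    rintro m' ⟨⟨hm1, hm2⟩, hm3, hm4⟩
    obtain ⟨m, rfl⟩ := ks m' hm1 hm2.le
    have := hl5 m ⟨⟨m.2.1, (kc2 m).1 hm2⟩, (kl _ _).1 hm3, (kl _ _).1 hm4⟩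
    exact congrArg (fun c => φ c) (Subtype.ext this)
  · intro p' q' hp' hpy' hq' hqy' hne
    obtain ⟨p, rfl⟩ := ks p' hp' hpy'.le
    obtain ⟨q, rfl⟩ := ks q' hq' hqy'.le
    obtain ⟨l, ⟨⟨hl1, hl2⟩, hl3, hl4⟩, hl5⟩ := h3 p q p.2.1 ((kc2 p).1 hpy') q.2.1
      ((kc2 q).1 hqy') (fun h => hne (by rw [Subtype.ext h]))
    refine ⟨φ ⟨l, hl1.le, hl2⟩, ⟨⟨(kc1 _).2 hl1, (kb _).2⟩, (kl _ _).2 hl3, (kl _ _).2 hl4⟩, ?_⟩
    rintro m' ⟨⟨hm1, hm2⟩, hm3, hm4⟩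
    obtain ⟨m, rfl⟩ := ks m' hm1.le hm2
    have := hl5 m ⟨⟨(kc1 m).1 hm1, m.2.2⟩, (kl _ _).1 hm3, (kl _ _).1 hm4⟩
    exact congrArg (fun c => φ c) (Subtype.ext this)
  · intro l' hl1 hl2
    obtain ⟨l, rfl⟩ := ks l' hl1 hl2.le
    obtain ⟨p, q, r, ⟨hp, hq, hr⟩, ⟨hpl, hql, hrl⟩, hpq, hpr, hqr⟩ := h4 l l.2.1 ((kc2 l).1 hl2)
    have hpi : p ∈ Set.Icc x y := ⟨hp.le, hpl.trans l.2.2⟩
    have hqi : q ∈ Set.Icc x y := ⟨hq.le, hql.trans l.2.2⟩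
    have hri : r ∈ Set.Icc x y := ⟨hr.le, hrl.trans l.2.2⟩
    refine ⟨φ ⟨p, hpi⟩, φ ⟨q, hqi⟩, φ ⟨r, hri⟩, ⟨(kc1 _).2 hp, (kc1 _).2 hq, (kc1 _).2 hr⟩,
      ⟨(kl _ _).2 hpl, (kl _ _).2 hql, (kl _ _).2 hrl⟩, ?_, ?_, ?_⟩
    · intro h; exact hpq (le_antisymm ((kl ⟨p, hpi⟩ ⟨q, hqi⟩).1 h.le) ((kl ⟨q, hqi⟩ ⟨p, hpi⟩).1 h.ge))
    · intro h; exact hpr (le_antisymm ((kl ⟨p, hpi⟩ ⟨r, hri⟩).1 h.le) ((kl ⟨r, hri⟩ ⟨p, hpi⟩).1 h.ge))
    · intro h; exact hqr (le_antisymm ((kl ⟨q, hqi⟩ ⟨r, hri⟩).1 h.le) ((kl ⟨r, hri⟩ ⟨q, hqi⟩).1 h.ge))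
  · obtain ⟨p, q, r, ⟨hp, hq, hr⟩, ⟨hpl, hql, hrl⟩, ⟨hpq, hpr, hqr⟩, hno⟩ := h5
    have hpi : p ∈ Set.Icc x y := ⟨hp.le, hpl⟩
    have hqi : q ∈ Set.Icc x y := ⟨hq.le, hql⟩
    have hri : r ∈ Set.Icc x y := ⟨hr.le, hrl⟩
    refine ⟨φ ⟨p, hpi⟩, φ ⟨q, hqi⟩, φ ⟨r, hri⟩, ⟨(kc1 _).2 hp, (kc1 _).2 hq, (kc1 _).2 hr⟩,
      ⟨(kb _).2, (kb _).2, (kb _).2⟩, ⟨?_, ?_, ?_⟩, ?_⟩
    · intro h; exact hpq (le_antisymm ((kl ⟨p, hpi⟩ ⟨q, hqi⟩).1 h.le) ((kl ⟨q, hqi⟩ ⟨p, hpi⟩).1 h.ge))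
    · intro h; exact hpr (le_antisymm ((kl ⟨p, hpi⟩ ⟨r, hri⟩).1 h.le) ((kl ⟨r, hri⟩ ⟨p, hpi⟩).1 h.ge))
    · intro h; exact hqr (le_antisymm ((kl ⟨q, hqi⟩ ⟨r, hri⟩).1 h.le) ((kl ⟨r, hri⟩ ⟨q, hqi⟩).1 h.ge))
    · rintro l' hl1 hl2 ⟨h6, h7, h8⟩
      obtain ⟨l, rfl⟩ := ks l' hl1 hl2.le
      exact hno l l.2.1 ((kc2 l).1 hl2) ⟨(kl ⟨p, hpi⟩ l).1 h6, (kl ⟨q, hqi⟩ l).1 h7,
        (kl ⟨r, hri⟩ l).1 h8⟩

lemma isPlane_congr {L L' : Type*} [Lattice L] [Lattice L'] {x y : L} {x' y' : L'} (hxy : x ≤ y)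
    (φ : Set.Icc x y ≃o Set.Icc x' y') (h : IsPlane x y) : IsPlane x' y' := by
  refine isPlane_aux hxy (fun a => (φ a : L')) (fun a b => φ.le_iff_le) ?_ (fun a => (φ a).2) h
  intro z' h1 h2
  exact ⟨φ.symm ⟨z', h1, h2⟩, by rw [φ.apply_symm_apply]⟩

end Pool.Agent.Helper87.ML2
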