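import Mathlib

set_option autoImplicit false

/-! Gluing a lattice `P` and the dual of a lattice `Q` along an antitone Galois connection. -/

namespace Pool.Agent.Helper87.ML2

/-- gluing data: an antitone Galois connection between `P` and `Q` which is an antiisomorphism
between `[p, ⊤]` and `[q, ⊤]` -/
structure GData (P Q : Type*) [Lattice P] [Lattice Q] (p : P) (q : Q) where
  e : P → Q
  e' : Q → P
  gc : ∀ a b, b ≤ e a ↔ a ≤ e' b
  ee' : ∀ b, e (e' b) = b ⊔ q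
  e'e : ∀ a, e' (e a) = a ⊔ p

variable {P Q : Type*} [Lattice P] [Lattice Q] {p : P} {q : Q}

namespace GData

variable (D : GData P Q p q)

lemma anti {a a' : P} (h : a ≤ a') : D.e a' ≤ D.e a := by
  rw [D.gc, D.e'e]
  exact h.trans le_sup_left

lemma anti' {b b' : Q} (h : b ≤ b') : D.e' b' ≤ D.e' b := by
  rw [← D.gc, D.ee']
  exact h.trans le_sup_left

lemma q_le (a : P) : q ≤ D.e a := by
  have h : D.e (D.e' (D.e a)) ≤ D.e a := by
    apply D.anti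
    rw [D.e'e]; exact le_sup_left
  rw [D.ee'] at h
  exact le_sup_right.trans h

lemma p_le (b : Q) : p ≤ D.e' b := by
  have h : D.e' (D.e (D.e' b)) ≤ D.e' b := by
    apply D.anti'
    rw [D.ee']; exact le_sup_left
  rw [D.e'e] at h
  exact le_sup_right.trans h

lemma e_sup (a a' : P) : D.e (a ⊔ a') = D.e a ⊓ D.e a' := by
  apply eq_of_forall_le_iff
  intro c
  rw [D.gc, sup_le_iff, le_inf_iff, D.gc, D.gc]

lemma e'_sup (b b' : Q) : D.e' (b ⊔ b') = D.e' b ⊓ D.e' b' := by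
  apply eq_of_forall_le_iff
  intro c
  rw [← D.gc, sup_le_iff, le_inf_iff, D.gc, D.gc]

lemma e_p (a : P) : D.e (a ⊔ p) = D.e a := by
  apply le_antisymm (D.anti le_sup_left)
  rw [D.gc, D.e'e]

lemma e'_q (b : Q) : D.e' (b ⊔ q) = D.e' b := by
  apply le_antisymm (D.anti' le_sup_left)
  rw [← D.gc, D.ee']

/-- the opposite data -/
def symm : GData Q P q p where
  e := D.e'
  e' := D.e
  gc := fun a b => (D.gc b a).symm
  ee' := D.e'e
  e'e := D.ee'

end GData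

/-- the glued lattice: `P` below the dual of `Q`, where `[p, ⊤]` is identified with the dual of
`[q, ⊤]` -/
inductive Gl (D : GData P Q p q)
  | lo (a : P) : Gl D
  | hi (b : Q) (h : ¬ q ≤ b) : Gl D

namespace Gl

variable {D : GData P Q p q}

instance : LE (Gl D) where
  le x y := match x, y with
    | lo a, lo a' => a ≤ a'
    | lo a, hi b _ => b ≤ D.e a
    | hi _ _, lo _ => False
    | hi b _, hi b' _ => b' ≤ b

@[simp] lemma lo_le_lo {a a' : P} : (lo a : Gl D) ≤ lo a' ↔ a ≤ a' := Iff.rfl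
@[simp] lemma lo_le_hi {a : P} {b : Q} {h : ¬ q ≤ b} : (lo a : Gl D) ≤ hi b h ↔ b ≤ D.e a := Iff.rfl
@[simp] lemma hi_le_lo {a : P} {b : Q} {h : ¬ q ≤ b} : ¬ (hi b h : Gl D) ≤ lo a := id
@[simp] lemma hi_le_hi {b b' : Q} {h : ¬ q ≤ b} {h' : ¬ q ≤ b'} :
    (hi b h : Gl D) ≤ hi b' h' ↔ b' ≤ b := Iff.rfl

instance : PartialOrder (Gl D) where
  le_refl x := by cases x <;> simp
  le_trans x y z hxy hyz := by
    rcases x with a | ⟨b, hb⟩ <;> rcases y with a' | ⟨b', hb'⟩ <;> rcases z with a'' | ⟨b'', hb''⟩ <;>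
      simp only [lo_le_lo, lo_le_hi, hi_le_lo, hi_le_hi] at hxy hyz ⊢
    · exact hxy.trans hyz
    · exact hyz.trans (D.anti hxy)
    · exact hyz.trans hxy
    · exact hyz.trans hxy
  le_antisymm x y hxy hyx := by
    rcases x with a | ⟨b, hb⟩ <;> rcases y with a' | ⟨b', hb'⟩ <;>
      simp only [lo_le_lo, lo_le_hi, hi_le_lo, hi_le_hi] at hxy hyx
    · rw [le_antisymm hxy hyx]
    · have : b = b' := le_antisymm hyx hxy
      subst this; rfl

open Classical in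
noncomputable instance : Lattice (Gl D) where
  sup x y := match x, y with
    | lo a, lo a' => lo (a ⊔ a')
    | lo a, hi b h => hi (D.e a ⊓ b) (fun h' => h (h'.trans inf_le_right))
    | hi b h, lo a => hi (D.e a ⊓ b) (fun h' => h (h'.trans inf_le_right))
    | hi b _, hi b' h' => hi (b ⊓ b') (fun h'' => h' (h''.trans inf_le_right))
  inf x y := match x, y with
    | lo a, lo a' => lo (a ⊓ a')
    | lo a, hi b _ => lo (a ⊓ D.e' b)
    | hi b _, lo a => lo (a ⊓ D.e' b)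
    | hi b _, hi b' _ => if h : q ≤ b ⊔ b' then lo (D.e' (b ⊔ b')) else hi (b ⊔ b') h
  le_sup_left x y := by
    rcases x with a | ⟨b, hb⟩ <;> rcases y with a' | ⟨b', hb'⟩ <;> simp
  le_sup_right x y := by
    rcases x with a | ⟨b, hb⟩ <;> rcases y with a' | ⟨b', hb'⟩ <;> simp
  sup_le x y z hxz hyz := by
    rcases x with a | ⟨b, hb⟩ <;> rcases y with a' | ⟨b', hb'⟩ <;> rcases z with a'' | ⟨b'', hb''⟩ <;>
      simp only [lo_le_lo, lo_le_hi, hi_le_lo, hi_le_hi] at hxz hyz ⊢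
    · exact sup_le hxz hyz
    · rw [D.e_sup]; exact le_inf hxz hyz
    · exact le_inf hxz hyz
    · exact le_inf hyz hxz
    · exact le_inf hxz hyz
  inf_le_left x y := by
    rcases x with a | ⟨b, hb⟩ <;> rcases y with a' | ⟨b', hb'⟩
    · simp
    · simp
    · show (lo (a' ⊓ D.e' b) : Gl D) ≤ hi b hb
      rw [lo_le_hi, D.gc]; exact inf_le_right
    · show (if h : q ≤ b ⊔ b' then lo (D.e' (b ⊔ b')) else hi (b ⊔ b') h : Gl D) ≤ hi b hb
      split_ifs with h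
      · rw [lo_le_hi, D.gc]; exact D.anti' le_sup_left
      · rw [hi_le_hi]; exact le_sup_left
  inf_le_right x y := by
    rcases x with a | ⟨b, hb⟩ <;> rcases y with a' | ⟨b', hb'⟩
    · simp
    · show (lo (a ⊓ D.e' b') : Gl D) ≤ hi b' hb'
      rw [lo_le_hi, D.gc]; exact inf_le_right
    · simp
    · show (if h : q ≤ b ⊔ b' then lo (D.e' (b ⊔ b')) else hi (b ⊔ b') h : Gl D) ≤ hi b' hb'
      split_ifs with h
      · rw [lo_le_hi, D.gc]; exact D.anti' le_sup_right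
      · rw [hi_le_hi]; exact le_sup_right
  le_inf x y z hxy hxz := by
    rcases y with a' | ⟨b', hb'⟩ <;> rcases z with a'' | ⟨b'', hb''⟩
    · rcases x with a | ⟨b, hb⟩
      · exact le_inf (lo_le_lo.1 hxy) (lo_le_lo.1 hxz)
      · exact absurd hxy hi_le_lo
    · rcases x with a | ⟨b, hb⟩
      · exact le_inf (lo_le_lo.1 hxy) ((D.gc _ _).1 (lo_le_hi.1 hxz))
      · exact absurd hxy hi_le_lo
    · rcases x with a | ⟨b, hb⟩
      · exact le_inf (lo_le_lo.1 hxz) ((D.gc _ _).1 (lo_le_hi.1 hxy))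
      · exact absurd hxz hi_le_lo
    · show x ≤ (if h : q ≤ b' ⊔ b'' then lo (D.e' (b' ⊔ b'')) else hi (b' ⊔ b'') h : Gl D)
      rcases x with a | ⟨b, hb⟩
      · split_ifs with h
        · rw [lo_le_lo, ← D.gc]; exact sup_le (lo_le_hi.1 hxy) (lo_le_hi.1 hxz)
        · rw [lo_le_hi]; exact sup_le (lo_le_hi.1 hxy) (lo_le_hi.1 hxz)
      · have h1 : b' ⊔ b'' ≤ b := sup_le (hi_le_hi.1 hxy) (hi_le_hi.1 hxz)
        rw [dif_neg (fun h => hb (h.trans h1))]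
        exact h1

lemma lo_sup_lo (a a' : P) : (lo a ⊔ lo a' : Gl D) = lo (a ⊔ a') := rfl
lemma lo_inf_lo (a a' : P) : (lo a ⊓ lo a' : Gl D) = lo (a ⊓ a') := rfl
lemma lo_inf_hi (a : P) (b : Q) (h) : (lo a ⊓ hi b h : Gl D) = lo (a ⊓ D.e' b) := rfl
lemma hi_inf_lo (a : P) (b : Q) (h) : (hi b h ⊓ lo a : Gl D) = lo (a ⊓ D.e' b) := rfl
lemma lo_sup_hi (a : P) (b : Q) (h) : (lo a ⊔ hi b h : Gl D) =
    hi (D.e a ⊓ b) (fun h' => h (h'.trans inf_le_right)) := rfl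
lemma hi_sup_lo (a : P) (b : Q) (h) : (hi b h ⊔ lo a : Gl D) =
    hi (D.e a ⊓ b) (fun h' => h (h'.trans inf_le_right)) := rfl
lemma hi_sup_hi (b b' : Q) (h) (h') : (hi b h ⊔ hi b' h' : Gl D) =
    hi (b ⊓ b') (fun h'' => h' (h''.trans inf_le_right)) := rfl
lemma hi_inf_hi_pos (b b' : Q) (h) (h') (hq : q ≤ b ⊔ b') : (hi b h ⊓ hi b' h' : Gl D) =
    lo (D.e' (b ⊔ b')) := dif_pos hq
lemma hi_inf_hi_neg (b b' : Q) (h) (h') (hq : ¬ q ≤ b ⊔ b') : (hi b h ⊓ hi b' h' : Gl D) =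
    hi (b ⊔ b') hq := dif_neg hq

lemma e'_inf [IsModularLattice Q] (a : P) (b : Q) : D.e' (D.e a ⊓ b) = a ⊔ D.e' b := by
  rw [← D.e'_q, inf_sup_assoc_of_le b (D.q_le a), ← D.ee', ← D.e_sup, D.e'e, sup_assoc,
    sup_eq_left.2 (D.p_le b)]

lemma e_inf [IsModularLattice P] (a : P) (b : Q) : D.e (D.e' b ⊓ a) = b ⊔ D.e a :=
  e'_inf (D := D.symm) b a

instance modular [IsModularLattice P] [IsModularLattice Q] : IsModularLattice (Gl D) where
  sup_inf_le_assoc_of_le := by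
    intro x y z hxz
    apply le_of_eq
    rcases x with a | ⟨b, hb⟩
    · rcases z with a'' | ⟨b'', hb''⟩
      · have haa : a ≤ a'' := hxz
        rcases y with a' | ⟨b', hb'⟩
        · rw [lo_sup_lo, lo_inf_lo, lo_inf_lo, lo_sup_lo, sup_inf_assoc_of_le _ haa]
        · rw [lo_sup_hi, hi_inf_lo, hi_inf_lo, lo_sup_lo, e'_inf, inf_comm a'',
            sup_inf_assoc_of_le _ haa, inf_comm a'']
      · have haa : a ≤ D.e' b'' := (D.gc _ _).1 hxz
        rcases y with a' | ⟨b', hb'⟩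
        · rw [lo_sup_lo, lo_inf_hi, lo_inf_hi, lo_sup_lo, sup_inf_assoc_of_le _ haa]
        · have hc : (D.e a ⊓ b') ⊔ b'' = D.e a ⊓ (b' ⊔ b'') := inf_sup_assoc_of_le b' hxz
          by_cases hq : q ≤ b' ⊔ b''
          · rw [lo_sup_hi, hi_inf_hi_pos _ _ _ _ (by rw [hc]; exact le_inf (D.q_le a) hq),
              hi_inf_hi_pos _ _ _ _ hq, lo_sup_lo, hc, e'_inf]
          · rw [lo_sup_hi, hi_inf_hi_neg _ _ _ _
              (by rw [hc]; exact fun h => hq (h.trans inf_le_right)),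
              hi_inf_hi_neg _ _ _ _ hq, lo_sup_hi]
            congr 1
    · rcases z with a'' | ⟨b'', hb''⟩
      · exact absurd hxz hi_le_lo
      · have hbb : b'' ≤ b := hxz
        rcases y with a' | ⟨b', hb'⟩
        · have hc : (D.e a' ⊓ b) ⊔ b'' = (b'' ⊔ D.e a') ⊓ b := by
            rw [sup_inf_assoc_of_le _ hbb, sup_comm]
          rw [hi_sup_lo, hi_inf_hi_neg _ _ _ _
            (by rw [hc]; exact fun h => hb (h.trans inf_le_right)), lo_inf_hi, hi_sup_lo]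
          congr 1
          rw [hc, inf_comm a', e_inf]
        · have hc : (b ⊓ b') ⊔ b'' = b ⊓ (b' ⊔ b'') := inf_sup_assoc_of_le b' hbb
          rw [hi_sup_hi, hi_inf_hi_neg _ _ _ _
            (by rw [hc]; exact fun h => hb (h.trans inf_le_left))]
          by_cases hq : q ≤ b' ⊔ b''
          · rw [hi_inf_hi_pos _ _ _ _ hq, hi_sup_lo]
            congr 1
            rw [D.ee', hc, sup_eq_left.2 hq, inf_comm]
          · rw [hi_inf_hi_neg _ _ _ _ hq, hi_sup_hi]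
            congr 1

end Gl

section Iso

variable {L L' : Type*} [Lattice L] [Lattice L'] {r s : L} {r' s' : L'}

open Classical in
/-- gluing maps -/
noncomputable def glueFun (h : ∀ x, x ≤ s ∨ r ≤ x) (f : Set.Iic s → Set.Iic s')
    (g : Set.Ici r → Set.Ici r') (x : L) : L' :=
  if hx : x ≤ s then f ⟨x, hx⟩ else g ⟨x, (h x).resolve_left hx⟩

lemma glueFun_lo {h : ∀ x, x ≤ s ∨ r ≤ x} {f : Set.Iic s → Set.Iic s'}
    {g : Set.Ici r → Set.Ici r'} {x : L} (hx : x ≤ s) : glueFun h f g x = f ⟨x, hx⟩ :=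
  dif_pos hx

lemma glueFun_hi {h : ∀ x, x ≤ s ∨ r ≤ x} {f : Set.Iic s → Set.Iic s'}
    {g : Set.Ici r → Set.Ici r'}
    (ha : ∀ x (h1 : x ≤ s) (h2 : r ≤ x), (f ⟨x, h1⟩ : L') = g ⟨x, h2⟩) {x : L} (hx : r ≤ x) :
    glueFun h f g x = g ⟨x, hx⟩ := by
  by_cases h1 : x ≤ s
  · rw [glueFun_lo h1, ha x h1 hx]
  · exact dif_neg h1

lemma glueFun_mono {h : ∀ x, x ≤ s ∨ r ≤ x} (hrs : r ≤ s) {f : Set.Iic s → Set.Iic s'}
    {g : Set.Ici r → Set.Ici r'} (hf : Monotone f) (hg : Monotone g)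
    (ha : ∀ x (h1 : x ≤ s) (h2 : r ≤ x), (f ⟨x, h1⟩ : L') = g ⟨x, h2⟩) :
    Monotone (glueFun h f g) := by
  intro x y hxy
  by_cases hy : y ≤ s
  · rw [glueFun_lo (hxy.trans hy), glueFun_lo hy]
    exact hf (show (⟨x, hxy.trans hy⟩ : Set.Iic s) ≤ ⟨y, hy⟩ from hxy)
  · have hry : r ≤ y := (h y).resolve_left hy
    by_cases hx : x ≤ s
    · have h1 : x ≤ y ⊓ s := le_inf hxy hx
      have h2 : r ≤ y ⊓ s := le_inf hry hrs
      refine le_trans (b := glueFun h f g (y ⊓ s)) ?_ ?_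
      · rw [glueFun_lo hx, glueFun_lo inf_le_right]
        exact hf (show (⟨x, hx⟩ : Set.Iic s) ≤ ⟨y ⊓ s, inf_le_right⟩ from h1)
      · rw [glueFun_hi ha h2, glueFun_hi ha hry]
        exact hg (show (⟨y ⊓ s, h2⟩ : Set.Ici r) ≤ ⟨y, hry⟩ from inf_le_left)
    · have hrx : r ≤ x := (h x).resolve_left hx
      rw [glueFun_hi ha hrx, glueFun_hi ha hry]
      exact hg (show (⟨x, hrx⟩ : Set.Ici r) ≤ ⟨y, hry⟩ from hxy)

/-- gluing isomorphisms -/
lemma glueIso (h : ∀ x, x ≤ s ∨ r ≤ x) (h' : ∀ x, x ≤ s' ∨ r' ≤ x) (hrs : r ≤ s) (hrs' : r' ≤ s')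
    (f : Set.Iic s ≃o Set.Iic s') (g : Set.Ici r ≃o Set.Ici r')
    (ha : ∀ x (h1 : x ≤ s) (h2 : r ≤ x), (f ⟨x, h1⟩ : L') = g ⟨x, h2⟩) :
    ∃ F : L ≃o L', (∀ x (hx : x ≤ s), F x = f ⟨x, hx⟩) ∧ (∀ x (hx : r ≤ x), F x = g ⟨x, hx⟩) := by
  have hgr : (g ⟨r, le_rfl⟩ : L') = r' := by
    apply le_antisymm
    · have h1 : g ⟨r, le_rfl⟩ ≤ ⟨r', le_rfl⟩ := by
        rw [← g.le_symm_apply]
        exact (g.symm ⟨r', le_rfl⟩).2
      exact h1
    · exact (g ⟨r, le_rfl⟩).2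
  have hfr : (f ⟨r, hrs⟩ : L') = r' := by rw [ha r hrs le_rfl, hgr]
  have ha' : ∀ x (h1 : x ≤ s') (h2 : r' ≤ x), (f.symm ⟨x, h1⟩ : L) = g.symm ⟨x, h2⟩ := by
    intro x h1 h2
    have h3 : r ≤ (f.symm ⟨x, h1⟩ : L) := by
      have h4 : (⟨r, hrs⟩ : Set.Iic s) ≤ f.symm ⟨x, h1⟩ := by
        rw [f.le_symm_apply]
        show (f ⟨r, hrs⟩ : L') ≤ x
        rw [hfr]; exact h2
      exact h4
    have h4 := ha (f.symm ⟨x, h1⟩ : L) (f.symm ⟨x, h1⟩).2 h3
    have h5 : (f ⟨(f.symm ⟨x, h1⟩ : L), (f.symm ⟨x, h1⟩).2⟩ : L') = x := by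
      show (f (f.symm ⟨x, h1⟩) : L') = x
      rw [f.apply_symm_apply]
    rw [h5] at h4
    have h6 : g ⟨(f.symm ⟨x, h1⟩ : L), h3⟩ = ⟨x, h2⟩ := Subtype.ext h4.symm
    rw [← h6, g.symm_apply_apply]
  have hGF : ∀ x, glueFun h' f.symm g.symm (glueFun h f g x) = x := by
    intro x
    rcases h x with hx | hx
    · rw [glueFun_lo hx, glueFun_lo (f ⟨x, hx⟩).2]
      show (f.symm (f ⟨x, hx⟩) : L) = x
      rw [f.symm_apply_apply]
    · rw [glueFun_hi ha hx, glueFun_hi ha' (g ⟨x, hx⟩).2]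
      show (g.symm (g ⟨x, hx⟩) : L) = x
      rw [g.symm_apply_apply]
  have hFG : ∀ x, glueFun h f g (glueFun h' f.symm g.symm x) = x := by
    intro x
    rcases h' x with hx | hx
    · rw [glueFun_lo hx, glueFun_lo (f.symm ⟨x, hx⟩).2]
      show (f (f.symm ⟨x, hx⟩) : L') = x
      rw [f.apply_symm_apply]
    · rw [glueFun_hi ha' hx, glueFun_hi ha (g.symm ⟨x, hx⟩).2]
      show (g (g.symm ⟨x, hx⟩) : L') = x
      rw [g.apply_symm_apply]
  have hm1 : Monotone (glueFun h f g) := glueFun_mono hrs f.monotone g.monotone ha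
  have hm2 : Monotone (glueFun h' f.symm g.symm) :=
    glueFun_mono hrs' f.symm.monotone g.symm.monotone ha'
  refine ⟨⟨⟨glueFun h f g, glueFun h' f.symm g.symm, hGF, hFG⟩, ?_⟩, ?_, ?_⟩
  · intro x y
    constructor
    · intro hxy
      have := hm2 hxy
      simpa only [Equiv.coe_fn_mk, hGF] using this
    · intro hxy; exact hm1 hxy
  · intro x hx; exact glueFun_lo (h := h) hx
  · intro x hx; exact glueFun_hi (h := h) ha hx

end Iso

end Pool.Agent.Helper87.ML2
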