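import Pool.Agent.Helper87.ML2.Sub

set_option autoImplicit false

/-! Orders of subplanes, and the number of automorphisms of a finite projective plane. -/

namespace Pool.Agent.Helper87.ML2

open Pool.Agent.Helper87.ML OrderDual Order

universe u

section

variable {P : Type u} [Lattice P] [BoundedOrder P]

/-- the sublattice -/
def SubP.sub {M : Set P} (hM : SubP M) : Sublattice P where
  carrier := M
  supClosed' := fun x hx y hy => hM.sup x hx y hy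
  infClosed' := fun x hx y hy => hM.inf x hx y hy

lemma SubP.cov_o (h : IsPlane (⊥ : P) ⊤) {M : Set P} (hM : SubP M) (z : hM.sub) :
    (⟨⊥, hM.bot⟩ : hM.sub) ⋖ z ↔ ⊥ ⋖ (z : P) := by
  constructor
  · intro hz
    have h0 : (⊥ : P) < z := hz.lt
    rcases h.1 (z : P) bot_le le_top with h1 | h1 | h1 | h1
    · exact absurd h1 h0.ne'
    · exact h1
    · exfalso
      obtain ⟨x, hxM, -, -, -, -, ⟨hx, -, -⟩, ⟨hxl, -, -⟩, -⟩ := three_on_line h hM z.2 h1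
      have h2 : x < z := by
        apply lt_of_le_of_ne hxl
        rintro rfl
        exact point_not_coatom h hx h1
      exact hz.2 (c := ⟨x, hxM⟩) (show ⊥ < x from hx.lt) (show x < (z : P) from h2)
    · exfalso
      obtain ⟨a, haM, _, _, _, _, _, _, Q⟩ := hM.quad
      have h2 : a < (z : P) := by
        rw [h1]
        apply lt_top_iff_ne_top.2
        rintro rfl
        have := rk_point Q.ha
        rw [rk_top h] at this
        omega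
      exact hz.2 (c := ⟨a, haM⟩) (show ⊥ < a from Q.ha.lt) (show a < (z : P) from h2)
  · intro hz
    exact ⟨hz.lt, fun c h1 h2 => hz.2 (show ⊥ < (c : P) from h1) (show (c : P) < z from h2)⟩

lemma SubP.exists_ne {M : Set P} (hM : SubP M) (z : P) : ∃ a ∈ M, ⊥ ⋖ a ∧ z ≠ a := by
  obtain ⟨a, haM, b, hbM, _, _, _, _, Q⟩ := hM.quad
  by_cases h1 : z = a
  · exact ⟨b, hbM, Q.hb, fun h2 => Q.ab (h1.symm.trans h2)⟩
  · exact ⟨a, haM, Q.ha, h1⟩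

lemma SubP.cov_t (h : IsPlane (⊥ : P) ⊤) {M : Set P} (hM : SubP M) (z : hM.sub) :
    z ⋖ (⟨⊤, hM.top⟩ : hM.sub) ↔ (z : P) ⋖ ⊤ := by
  constructor
  · intro hz
    have h0 : (z : P) < ⊤ := hz.lt
    obtain ⟨a, haM, ha, hza⟩ := hM.exists_ne z
    rcases h.1 (z : P) bot_le le_top with h1 | h1 | h1 | h1
    · exfalso
      have h2 : a < ⊤ := by
        apply lt_top_iff_ne_top.2
        rintro rfl
        have := rk_point ha
        rw [rk_top h] at this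
        omega
      exact hz.2 (c := ⟨a, haM⟩) (show (z : P) < a by rw [h1]; exact ha.lt) (show a < ⊤ from h2)
    · exfalso
      have h2 := sup_points h h1 ha hza
      exact hz.2 (c := ⟨(z : P) ⊔ a, hM.sup _ z.2 _ haM⟩) (show (z : P) < (z : P) ⊔ a from h2.1.lt)
        (show (z : P) ⊔ a < ⊤ from h2.2.lt)
    · exact h1
    · exact absurd h1 h0.ne
  · intro hz
    exact ⟨hz.lt, fun c h1 h2 => hz.2 (show (z : P) < (c : P) from h1) (show (c : P) < ⊤ from h2)⟩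

lemma SubP.plane (h : IsPlane (⊥ : P) ⊤) {M : Set P} (hM : SubP M) :
    IsPlane (⟨⊥, hM.bot⟩ : hM.sub) ⟨⊤, hM.top⟩ := by
  refine ⟨?_, ?_, ?_, ?_, ?_⟩
  · intro z _ _
    rcases h.1 (z : P) bot_le le_top with h1 | h1 | h1 | h1
    · left; exact Subtype.ext h1
    · right; left; exact (hM.cov_o h z).2 h1
    · right; right; left; exact (hM.cov_t h z).2 h1
    · right; right; right; exact Subtype.ext h1
  · intro p q hp _ hq _ hne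
    rw [hM.cov_o h] at hp hq
    have hne' : (p : P) ≠ q := fun h1 => hne (Subtype.ext h1)
    have h2 := sup_points h hp hq hne'
    refine ⟨⟨(p : P) ⊔ q, hM.sup _ p.2 _ q.2⟩, ⟨⟨bot_le (a := (p : P) ⊔ q), (hM.cov_t h _).2 h2.2⟩,
      le_sup_left (a := (p : P)), le_sup_right (a := (p : P))⟩, ?_⟩
    rintro l ⟨⟨-, h3⟩, h4, h5⟩
    exact Subtype.ext (sup_points_eq h hp hq hne' ((hM.cov_t h l).1 h3) h4 h5).symm
  · intro l m _ hl _ hm hne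
    rw [hM.cov_t h] at hl hm
    have hne' : (l : P) ≠ m := fun h1 => hne (Subtype.ext h1)
    have h2 := inf_lines h hl hm hne'
    refine ⟨⟨(l : P) ⊓ m, hM.inf _ l.2 _ m.2⟩, ⟨⟨(hM.cov_o h _).2 h2, le_top (a := (l : P) ⊓ m)⟩,
      inf_le_left (a := (l : P)), inf_le_right (a := (l : P))⟩, ?_⟩
    rintro x ⟨⟨h3, -⟩, h4, h5⟩
    exact Subtype.ext (point_eq ((hM.cov_o h x).1 h3) h2 (le_inf h4 h5))
  · intro l _ hl
    rw [hM.cov_t h] at hl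
    obtain ⟨x, hx, y, hy, z, hz, ⟨h1, h2, h3⟩, ⟨h4, h5, h6⟩, h7, h8, h9⟩ :=
      three_on_line h hM l.2 hl
    exact ⟨⟨x, hx⟩, ⟨y, hy⟩, ⟨z, hz⟩, ⟨(hM.cov_o h _).2 h1, (hM.cov_o h _).2 h2,
      (hM.cov_o h _).2 h3⟩, ⟨h4, h5, h6⟩, fun h => h7 (congrArg Subtype.val h),
      fun h => h8 (congrArg Subtype.val h), fun h => h9 (congrArg Subtype.val h)⟩
  · obtain ⟨a, ha, b, hb, c, hc, _, _, Q⟩ := hM.quad
    have ac : a ≠ c := fun h1 => Q.cab (h1 ▸ le_sup_left)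
    have bc : b ≠ c := fun h1 => Q.cab (h1 ▸ le_sup_right)
    refine ⟨⟨a, ha⟩, ⟨b, hb⟩, ⟨c, hc⟩, ⟨(hM.cov_o h _).2 Q.ha, (hM.cov_o h _).2 Q.hb,
      (hM.cov_o h _).2 Q.hc⟩, ⟨le_top (a := a), le_top (a := b), le_top (a := c)⟩,
      ⟨fun h => Q.ab (congrArg Subtype.val h),
      fun h => ac (congrArg Subtype.val h), fun h => bc (congrArg Subtype.val h)⟩, ?_⟩
    rintro l - h1 ⟨h2, h3, h4⟩
    rw [hM.cov_t h] at h1
    have h5 := sup_points_eq h Q.ha Q.hb Q.ab h1 h2 h3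
    exact Q.cab (h5 ▸ h4)

/-- the points of a sublattice on a line -/
def ptsM (M : Set P) (l : P) : Set P := {x | x ∈ M ∧ ⊥ ⋖ x ∧ x ≤ l}

/-- the lines of a sublattice through a point -/
def linesM (M : Set P) (x : P) : Set P := {l | l ∈ M ∧ x ≤ l ∧ l ⋖ ⊤}

variable [Finite P]

/-- the order of a subplane -/
lemma SubP.order (h : IsPlane (⊥ : P) ⊤) {M : Set P} (hM : SubP M) : ∃ n, 2 ≤ n ∧
    (∀ l ∈ M, l ⋖ ⊤ → (ptsM M l).ncard = n + 1) ∧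
    (∀ x ∈ M, ⊥ ⋖ x → (linesM M x).ncard = n + 1) := by
  have hpl := hM.plane h
  have hF : LF hM.sub := fun x y => Set.toFinite _
  have e1 : ∀ l : hM.sub, (ptsM M l).ncard = (pts (⟨⊥, hM.bot⟩ : hM.sub) l).ncard := by
    intro l
    rw [← Set.ncard_image_of_injective _ (Subtype.val_injective (p := (· ∈ hM.sub)))]
    congr 1
    ext x
    constructor
    · rintro ⟨h1, h2, h3⟩
      exact ⟨⟨x, h1⟩, ⟨(hM.cov_o h _).2 h2, h3⟩, rfl⟩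
    · rintro ⟨y, ⟨h1, h2⟩, rfl⟩
      exact ⟨y.2, (hM.cov_o h _).1 h1, h2⟩
  have e2 : ∀ x : hM.sub, (linesM M x).ncard =
      {n : hM.sub | x ≤ n ∧ n ⋖ ⟨⊤, hM.top⟩}.ncard := by
    intro x
    rw [← Set.ncard_image_of_injective _ (Subtype.val_injective (p := (· ∈ hM.sub)))]
    congr 1
    ext l
    constructor
    · rintro ⟨h1, h2, h3⟩
      exact ⟨⟨l, h1⟩, ⟨h2, (hM.cov_t h _).2 h3⟩, rfl⟩
    · rintro ⟨y, ⟨h1, h2⟩, rfl⟩
      exact ⟨y.2, h1, (hM.cov_t h _).1 h2⟩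
  obtain ⟨a, haM, b, hbM, _, _, _, _, Q⟩ := hM.quad
  have hl0 := (sup_points h Q.ha Q.hb Q.ab).2
  have hl0M : a ⊔ b ∈ M := hM.sup _ haM _ hbM
  have h3 : 3 ≤ (ptsM M (a ⊔ b)).ncard := by
    obtain ⟨x, hx, y, hy, z, hz, ⟨h1, h2, h3⟩, ⟨h4, h5, h6⟩, h7, h8, h9⟩ :=
      three_on_line h hM hl0M hl0
    have h10 : ({x, y, z} : Set P).ncard = 3 := by
      rw [Set.ncard_eq_three]; exact ⟨x, y, z, h7, h8, h9, rfl⟩
    rw [← h10]
    apply Set.ncard_le_ncard _ (Set.toFinite _)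
    rintro w (rfl | rfl | rfl)
    · exact ⟨hx, h1, h4⟩
    · exact ⟨hy, h2, h5⟩
    · exact ⟨hz, h3, h6⟩
  refine ⟨(ptsM M (a ⊔ b)).ncard - 1, by omega, ?_, ?_⟩
  · intro l hlM hl
    have h4 := plane_lines hF hpl (l := ⟨l, hlM⟩) (m := ⟨a ⊔ b, hl0M⟩) (bot_le (a := l))
      ((hM.cov_t h _).2 hl) (bot_le (a := a ⊔ b)) ((hM.cov_t h _).2 hl0)
    rw [← e1, ← e1] at h4
    have h5 : (ptsM M l).ncard = (ptsM M (a ⊔ b)).ncard := h4
    omega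
  · intro x hxM hx
    have h4 := plane_pencil hF hpl (u := ⟨x, hxM⟩) (l := ⟨a ⊔ b, hl0M⟩)
      ((hM.cov_o h _).2 hx) (le_top (a := x)) (bot_le (a := a ⊔ b)) ((hM.cov_t h _).2 hl0)
    rw [← e1, ← e2] at h4
    have h5 : (linesM M x).ncard = (ptsM M (a ⊔ b)).ncard := h4
    omega

/-- orders grow at least quadratically -/
lemma SubP.growth (h : IsPlane (⊥ : P) ⊤) {M M' : Set P} (hM : SubP M) (hM' : SubP M')
    (hMM : M ⊆ M') {Q : P} (hQ : ⊥ ⋖ Q) (hQM' : Q ∈ M') (hQM : Q ∉ M) {n n' : ℕ}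
    (hn : ∀ x ∈ M, ⊥ ⋖ x → (linesM M x).ncard = n + 1)
    (hn' : ∀ x ∈ M', ⊥ ⋖ x → (linesM M' x).ncard = n' + 1) : n * n ≤ n' := by
  -- lines of `M` through `Q`
  have huniq : ∀ l ∈ M, ∀ m ∈ M, l ⋖ ⊤ → m ⋖ ⊤ → Q ≤ l → Q ≤ m → l = m := by
    intro l hl m hm hl' hm' h1 h2
    by_contra hne
    have h3 := inf_lines h hl' hm' hne
    have h4 := point_eq hQ h3 (le_inf h1 h2)
    exact hQM (h4 ▸ hM.inf _ hl _ hm)
  obtain ⟨l, hlM, hl, hlQ⟩ : ∃ l ∈ M, l ⋖ ⊤ ∧ ∀ m ∈ M, m ⋖ ⊤ → Q ≤ m → m = l := by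
    by_cases hex : ∃ l ∈ M, l ⋖ ⊤ ∧ Q ≤ l
    · obtain ⟨l, h1, h2, h3⟩ := hex
      exact ⟨l, h1, h2, fun m h4 h5 h6 => huniq m h4 l h1 h5 h2 h6 h3⟩
    · push Not at hex
      obtain ⟨a, haM, b, hbM, _, _, _, _, R⟩ := hM.quad
      exact ⟨a ⊔ b, hM.sup _ haM _ hbM, (sup_points h R.ha R.hb R.ab).2,
        fun m h4 h5 h6 => absurd h6 (hex m h4 h5)⟩
  obtain ⟨y1, hy1M, y2, hy2M, -, -, ⟨hy1, hy2, -⟩, ⟨hy1l, hy2l, -⟩, hy12, -⟩ :=
    three_on_line h hM hlM hl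
  have hy1Q : y1 ≠ Q := fun h1 => hQM (h1 ▸ hy1M)
  have hy12l : y1 ⊔ y2 = l := sup_points_eq h hy1 hy2 hy12 hl hy1l hy2l
  -- the excluded line
  obtain ⟨e, heM', hQe, he, he'⟩ : ∃ e ∈ M', Q ≤ e ∧ e ⋖ ⊤ ∧
      ∀ x ∈ M, ⊥ ⋖ x → ¬ x ≤ l → ¬ x ≤ e := by
    by_cases hQl : Q ≤ l
    · exact ⟨l, hMM hlM, hQl, hl, fun x _ _ h1 => h1⟩
    · have h2 := sup_points h hy1 hQ hy1Q
      refine ⟨y1 ⊔ Q, hM'.sup _ (hMM hy1M) _ hQM', le_sup_right, h2.2, ?_⟩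
      intro x hxM hx hxl hxe
      have hxy : y1 ≠ x := fun h3 => hxl (h3 ▸ hy1l)
      have h3 := sup_points_eq h hy1 hx hxy h2.2 le_sup_left hxe
      have h4 := hlQ _ (hM.sup _ hy1M _ hxM) (sup_points h hy1 hx hxy).2 (h3 ▸ le_sup_right)
      exact hxl (h4 ▸ le_sup_right)
  -- the two families of lines
  have hcA : ∀ y ∈ M, ⊥ ⋖ y → y ≤ l → (linesM M y \ {l}).ncard = n := by
    intro y hyM hy hyl
    rw [Set.ncard_sdiff_singleton_of_mem (show l ∈ linesM M y from ⟨hlM, hyl, hl⟩), hn y hyM hy]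
    omega
  have hcB : (linesM M' Q \ {e}).ncard = n' := by
    rw [Set.ncard_sdiff_singleton_of_mem (show e ∈ linesM M' Q from ⟨heM', hQe, he⟩),
      hn' Q hQM' hQ]
    omega
  -- intersection points
  have hpt : ∀ l1 ∈ linesM M y1 \ {l}, ∀ l2 ∈ linesM M y2 \ {l}, l1 ⊓ l2 ∈ M ∧ ⊥ ⋖ l1 ⊓ l2 ∧
      ¬ l1 ⊓ l2 ≤ l := by
    rintro l1 ⟨⟨h1, h2, h3⟩, h4⟩ l2 ⟨⟨h5, h6, h7⟩, h8⟩
    have h4' : l1 ≠ l := h4
    have h8' : l2 ≠ l := h8
    have hne : l1 ≠ l2 := by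
      rintro rfl
      exact h4' (by rw [← hy12l]; exact (sup_points_eq h hy1 hy2 hy12 h3 h2 h6).symm)
    refine ⟨hM.inf _ h1 _ h5, inf_lines h h3 h7 hne, ?_⟩
    intro h9
    have hx := inf_lines h h3 h7 hne
    have e1 : l1 ⊓ l2 = y1 := by
      by_contra h10
      have h11 := sup_points_eq h hx hy1 h10 hl h9 hy1l
      have h12 := sup_points_eq h hx hy1 h10 h3 inf_le_left h2
      exact h4' (h12.symm.trans h11)
    have e2 : l1 ⊓ l2 = y2 := by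
      by_contra h10
      have h11 := sup_points_eq h hx hy2 h10 hl h9 hy2l
      have h12 := sup_points_eq h hx hy2 h10 h7 inf_le_right h6
      exact h8' (h12.symm.trans h11)
    exact hy12 (e1.symm.trans e2)
  have hinj : Set.InjOn (fun z : P × P => (z.1 ⊓ z.2) ⊔ Q)
      ((linesM M y1 \ {l}) ×ˢ (linesM M y2 \ {l})) := by
    rintro ⟨l1, l2⟩ ⟨h1, h2⟩ ⟨m1, m2⟩ ⟨h3, h4⟩ heq
    simp only at h1 h2 h3 h4 heq
    obtain ⟨k1, k2, k3⟩ := hpt l1 h1 l2 h2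
    obtain ⟨k4, k5, k6⟩ := hpt m1 h3 m2 h4
    have hxQ : l1 ⊓ l2 ≠ Q := fun h5 => hQM (h5 ▸ k1)
    have hl1 := sup_points h k2 hQ hxQ
    have hxx : l1 ⊓ l2 = m1 ⊓ m2 := by
      by_contra h5
      have h6 := sup_points_eq h k2 k5 h5 hl1.2 le_sup_left (by rw [heq]; exact le_sup_left)
      have h7 := hlQ _ (hM.sup _ k1 _ k4) (by rw [h6]; exact hl1.2) (by rw [h6]; exact le_sup_right)
      exact k3 (by rw [← h7]; exact le_sup_left)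
    have hy1x : y1 ≠ l1 ⊓ l2 := fun h5 => k3 (h5 ▸ hy1l)
    have hy2x : y2 ≠ l1 ⊓ l2 := fun h5 => k3 (h5 ▸ hy2l)
    have e1 : y1 ⊔ (l1 ⊓ l2) = l1 := sup_points_eq h hy1 k2 hy1x h1.1.2.2 h1.1.2.1 inf_le_left
    have e2 : y2 ⊔ (l1 ⊓ l2) = l2 := sup_points_eq h hy2 k2 hy2x h2.1.2.2 h2.1.2.1 inf_le_right
    have e3 : y1 ⊔ (l1 ⊓ l2) = m1 := by
      rw [hxx] at hy1x ⊢
      exact sup_points_eq h hy1 k5 hy1x h3.1.2.2 h3.1.2.1 inf_le_left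
    have e4 : y2 ⊔ (l1 ⊓ l2) = m2 := by
      rw [hxx] at hy2x ⊢
      exact sup_points_eq h hy2 k5 hy2x h4.1.2.2 h4.1.2.1 inf_le_right
    rw [Prod.mk.injEq]
    exact ⟨e1.symm.trans e3, e2.symm.trans e4⟩
  have hmaps : Set.MapsTo (fun z : P × P => (z.1 ⊓ z.2) ⊔ Q)
      ((linesM M y1 \ {l}) ×ˢ (linesM M y2 \ {l})) (linesM M' Q \ {e}) := by
    rintro ⟨l1, l2⟩ ⟨h1, h2⟩
    simp only at h1 h2 ⊢
    obtain ⟨k1, k2, k3⟩ := hpt l1 h1 l2 h2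
    have hxQ : l1 ⊓ l2 ≠ Q := fun h5 => hQM (h5 ▸ k1)
    refine ⟨⟨hM'.sup _ (hMM k1) _ hQM', le_sup_right, (sup_points h k2 hQ hxQ).2⟩, ?_⟩
    intro h5
    have h6 : l1 ⊓ l2 ⊔ Q = e := h5
    exact he' _ k1 k2 k3 (by rw [← h6]; exact le_sup_left)
  have hfin := Set.ncard_le_ncard_of_injOn _ hmaps hinj (Set.toFinite _)
  rw [Set.ncard_prod, hcA y1 hy1M hy1 hy1l, hcA y2 hy2M hy2 hy2l, hcB] at hfin
  exact hfin

end

end Pool.Agent.Helper87.ML2
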