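import Pool.Agent.Helper87.ML2.Count

set_option autoImplicit false

/-! Over every finite self-dual projective plane there are many modular lattices of length four
with self-dual intervals, all with the same proper intervals. -/

namespace Pool.Agent.Helper87.ML2.OldManyTwists

open Pool.Agent.Helper87.ML Pool.Agent.Helper87.ML2 Nat

universe u

theorem result (P : Type u) [Lattice P] [BoundedOrder P] [Finite P]
    (hP : IsPlane (⊥ : P) ⊤) (hd : Nonempty (P ≃o Pᵒᵈ)) (q : ℕ)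
    (hq : ∃ l : P, l ⋖ ⊤ ∧ {x : P | ⊥ ⋖ x ∧ x ≤ l}.ncard = q + 1) :
    ∃ (ι : Type u) (_ : Finite ι) (L : ι → Type u) (_ : ∀ i, Lattice (L i))
      (_ : ∀ i, BoundedOrder (L i)),
      (∀ i, Finite (L i) ∧ IsModularLattice (L i) ∧ SD' (L i) ∧ Order.krullDim (L i) = 4 ∧
        ¬ ComplementedLattice (L i) ∧ ¬ PlaneFree (L i) ∧
        ∀ x y : L i, IsPlane x y → Nonempty (Set.Icc x y ≃o P)) ∧
      (∀ i j, Nonempty (L i ≃o L j) → i = j) ∧
      (∀ i j, ∀ x y : L i, x ≤ y → ¬ (x = ⊥ ∧ y = ⊤) → ∃ x' y' : L j, x' ≤ y' ∧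
        ¬ (x' = ⊥ ∧ y' = ⊤) ∧ Nonempty (Set.Icc x y ≃o Set.Icc x' y')) ∧
      Nat.card {σ : Equiv.Perm (Fin (q + 1)) // σ * σ = 1} ≤
        Nat.card ι * Nat.card (P ≃o P) ^ 2 ∧
      ((q + 1) / 2)! ≤ Nat.card {σ : Equiv.Perm (Fin (q + 1)) // σ * σ = 1} ∧
      Nat.card (P ≃o P) ≤ (q ^ 2 + q + 1) ^ (Nat.log 2 (Nat.log 2 q) + 5) :=
  many P hP hd q hq

end Pool.Agent.Helper87.ML2.OldManyTwists
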