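import Pool.Agent.Helper87.ML2.Glue
import Pool.Agent.Helper87.ML.Order

set_option autoImplicit false

/-! Lattices which are projective planes. -/

namespace Pool.Agent.Helper87.ML2

open Pool.Agent.Helper87.ML

section

variable {P : Type*} [Lattice P] [BoundedOrder P]

lemma point_not_coatom (h : IsPlane (⊥ : P) ⊤) {p : P} (hp : ⊥ ⋖ p) : ¬ p ⋖ ⊤ := by
  intro hc
  obtain ⟨-, -, -, h4, -⟩ := h
  obtain ⟨a, b, c, ⟨ha, hb, hc'⟩, ⟨hap, hbp, hcp⟩, hab, -, -⟩ := h4 p bot_le hc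
  have h1 : a = p := by
    rcases eq_or_lt_of_le hap with h | h
    · exact h
    · exact absurd h (hp.2 ha.lt)
  have h2 : b = p := by
    rcases eq_or_lt_of_le hbp with h | h
    · exact h
    · exact absurd h (hp.2 hb.lt)
  exact hab (h1.trans h2.symm)

/-- the elements above a point -/
lemma above_point (h : IsPlane (⊥ : P) ⊤) {p z : P} (hp : ⊥ ⋖ p) (hpz : p ≤ z) :
    z = p ∨ (p ⋖ z ∧ z ⋖ ⊤) ∨ z = ⊤ := by
  rcases eq_or_lt_of_le hpz with h0 | h0
  · exact Or.inl h0.symm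
  rcases h.1 z bot_le le_top with h1 | h1 | h1 | h1
  · rw [h1] at h0; exact absurd h0 not_lt_bot
  · exact absurd h0 (h1.2 hp.lt)
  · refine Or.inr (Or.inl ⟨⟨h0, ?_⟩, h1⟩)
    intro w hpw hwz
    rcases h.1 w bot_le le_top with h2 | h2 | h2 | h2
    · rw [h2] at hpw; exact absurd hpw not_lt_bot
    · exact absurd hpw (h2.2 hp.lt)
    · exact absurd h1.lt (h2.2 hwz)
    · rw [h2] at hwz; exact absurd hwz not_top_lt
  · exact Or.inr (Or.inr h1)

lemma cov_point (h : IsPlane (⊥ : P) ⊤) {p z : P} (hp : ⊥ ⋖ p) (hz : p ⋖ z) : z ⋖ ⊤ := by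
  rcases above_point h hp hz.le with h1 | h1 | h1
  · exact absurd h1 hz.lt.ne'
  · exact h1.2
  · exact absurd (h1 ▸ hz) (point_not_coatom h hp)

/-- the join of two points is a line -/
lemma sup_points (h : IsPlane (⊥ : P) ⊤) {p a : P} (hp : ⊥ ⋖ p) (ha : ⊥ ⋖ a) (hne : p ≠ a) :
    p ⋖ p ⊔ a ∧ p ⊔ a ⋖ ⊤ := by
  obtain ⟨l, ⟨⟨-, hl⟩, hpl, hal⟩, -⟩ := h.2.1 p a hp le_top ha le_top hne
  rcases above_point h hp (le_sup_left : p ≤ p ⊔ a) with h1 | h1 | h1
  · exfalso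
    have h2 : a ≤ p := by rw [← h1]; exact le_sup_right
    rcases eq_or_lt_of_le h2 with h3 | h3
    · exact hne h3.symm
    · exact hp.2 ha.lt h3
  · exact h1
  · exfalso
    have h2 : p ⊔ a ≤ l := sup_le hpl hal
    rw [h1] at h2
    exact hl.lt.not_ge h2

/-- two points of a line span it -/
lemma sup_points_eq (h : IsPlane (⊥ : P) ⊤) {p a z : P} (hp : ⊥ ⋖ p) (ha : ⊥ ⋖ a) (hne : p ≠ a)
    (hz : z ⋖ ⊤) (hpz : p ≤ z) (haz : a ≤ z) : p ⊔ a = z := by
  have h1 := sup_points h hp ha hne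
  rcases eq_or_lt_of_le (sup_le hpz haz) with h2 | h2
  · exact h2
  · exact absurd hz.lt (h1.2.2 h2)

lemma plane_modular (h : IsPlane (⊥ : P) ⊤) : IsModularLattice P where
  sup_inf_le_assoc_of_le := by
    intro x y z hxz
    by_cases hyz : y ≤ z
    · rw [inf_eq_left.2 hyz]; exact inf_le_left
    by_cases hxy : x ≤ y
    · rw [sup_eq_right.2 hxy]; exact le_sup_right
    by_cases hzx : z ≤ x
    · exact inf_le_right.trans (hzx.trans le_sup_left)
    have hx : ⊥ ⋖ x := by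
      rcases h.1 x bot_le le_top with h1 | h1 | h1 | h1
      · rw [h1] at hxy; exact absurd bot_le hxy
      · exact h1
      · exfalso
        rcases eq_or_lt_of_le hxz with h2 | h2
        · exact hzx h2.ge
        · rcases eq_or_lt_of_le (le_top : z ≤ ⊤) with h3 | h3
          · exact hyz (h3 ▸ le_top)
          · exact h1.2 h2 h3
      · rw [h1] at hzx; exact absurd le_top hzx
    have hz : z ⋖ ⊤ := by
      rcases above_point h hx hxz with h1 | h1 | h1
      · exact absurd h1.le hzx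
      · exact h1.2
      · rw [h1] at hyz; exact absurd le_top hyz
    rcases h.1 y bot_le le_top with h1 | h1 | h1 | h1
    · rw [h1] at hyz; exact absurd bot_le hyz
    · -- `y` a point
      have hne : x ≠ y := fun h2 => hxy h2.le
      have h2 := sup_points h hx h1 hne
      have h3 : (x ⊔ y) ⊓ z < x ⊔ y := by
        apply lt_of_le_of_ne inf_le_left
        intro h4
        exact hyz ((le_sup_right.trans h4.ge).trans inf_le_right)
      have h4 : x ≤ (x ⊔ y) ⊓ z := le_inf le_sup_left hxz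
      have h5 : x = (x ⊔ y) ⊓ z := by
        rcases eq_or_lt_of_le h4 with h6 | h6
        · exact h6
        · exact absurd h3 (h2.1.2 h6)
      rw [← h5]; exact le_sup_left
    · -- `y` a line
      have hne : y ≠ z := fun h2 => hyz h2.le
      obtain ⟨w, ⟨⟨hw, -⟩, hwy, hwz⟩, -⟩ := h.2.2.1 y z bot_le h1 bot_le hz hne
      have hxw : x ≠ w := fun h2 => hxy (h2 ▸ hwy)
      have h2 := sup_points_eq h hx hw hxw hz hxz hwz
      refine inf_le_right.trans ?_
      rw [← h2]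
      exact sup_le le_sup_left ((le_inf hwy (h2 ▸ hwz)).trans le_sup_right)
    · rw [h1] at hxy; exact absurd le_top hxy

open Classical in
/-- the rank in a plane -/
noncomputable def rk (z : P) : ℕ := if z = ⊥ then 0 else if ⊥ ⋖ z then 1 else if z = ⊤ then 3 else 2

lemma rk_bot : rk (⊥ : P) = 0 := if_pos rfl

lemma rk_point {z : P} (hz : ⊥ ⋖ z) : rk z = 1 := by
  rw [rk, if_neg hz.lt.ne', if_pos hz]

lemma rk_line (h : IsPlane (⊥ : P) ⊤) {z : P} (hz : z ⋖ ⊤) : rk z = 2 := by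
  have h1 : z ≠ ⊥ := by
    rintro rfl
    obtain ⟨-, -, -, -, p, q, r, ⟨hp, hq, hr⟩, -, ⟨hpq, -, -⟩, -⟩ := h
    have h2 : p = ⊤ := by
      by_contra h3
      exact hz.2 hp.lt (lt_top_iff_ne_top.2 h3)
    have h3 : q = ⊤ := by
      by_contra h3
      exact hz.2 hq.lt (lt_top_iff_ne_top.2 h3)
    exact hpq (h2.trans h3.symm)
  rw [rk, if_neg h1, if_neg (fun h2 => point_not_coatom h h2 hz), if_neg hz.lt.ne]

lemma rk_top (h : IsPlane (⊥ : P) ⊤) : rk (⊤ : P) = 3 := by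
  obtain ⟨-, -, -, -, p, q, r, ⟨hp, hq, hr⟩, -, ⟨hpq, -, -⟩, -⟩ := id h
  have h1 : (⊤ : P) ≠ ⊥ := fun h1 => hp.lt.ne' (le_bot_iff.1 (h1 ▸ le_top))
  have h2 : ¬ (⊥ : P) ⋖ ⊤ := by
    intro h2
    have h3 : p = ⊤ := by
      by_contra h3
      exact h2.2 hp.lt (lt_top_iff_ne_top.2 h3)
    have h4 : q = ⊤ := by
      by_contra h3
      exact h2.2 hq.lt (lt_top_iff_ne_top.2 h3)
    exact hpq (h3.trans h4.symm)
  rw [rk, if_neg h1, if_neg h2, if_pos rfl]

lemma rk_le (z : P) : rk z ≤ 3 := by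
  unfold rk; split_ifs <;> omega

lemma rk_cases (h : IsPlane (⊥ : P) ⊤) (z : P) : (z = ⊥ ∧ rk z = 0) ∨ (⊥ ⋖ z ∧ rk z = 1) ∨
    (z ⋖ ⊤ ∧ rk z = 2) ∨ (z = ⊤ ∧ rk z = 3) := by
  rcases h.1 z bot_le le_top with h1 | h1 | h1 | h1
  · left; rw [h1]; exact ⟨rfl, rk_bot⟩
  · right; left; exact ⟨h1, rk_point h1⟩
  · right; right; left; exact ⟨h1, rk_line h h1⟩
  · right; right; right; rw [h1]; exact ⟨rfl, rk_top h⟩

lemma rk_lt (h : IsPlane (⊥ : P) ⊤) {z w : P} (hzw : z < w) : rk z < rk w := by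
  rcases rk_cases h z with ⟨h1, h2⟩ | ⟨h1, h2⟩ | ⟨h1, h2⟩ | ⟨h1, h2⟩ <;>
    rcases rk_cases h w with ⟨h3, h4⟩ | ⟨h3, h4⟩ | ⟨h3, h4⟩ | ⟨h3, h4⟩ <;>
    rw [h2, h4]
  · exact absurd hzw (by rw [h1, h3]; exact lt_irrefl _)
  · omega
  · omega
  · omega
  · rw [h3] at hzw; exact absurd hzw not_lt_bot
  · exact absurd hzw (h3.2 h1.lt)
  · omega
  · omega
  · rw [h3] at hzw; exact absurd hzw not_lt_bot
  · exact absurd (bot_le.trans_lt hzw) (fun h5 => by
      rcases above_point h h3 le_rfl with _ | _ | _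
      all_goals
        have h6 := rk_line h h1
        rcases eq_or_lt_of_le (bot_le : ⊥ ≤ z) with h7 | h7
        · rw [← h7, rk_bot] at h6; omega
        · exact h3.2 h7 hzw)
  · exact absurd h3.lt (h1.2 hzw)
  · omega
  · rw [h1] at hzw; exact absurd hzw not_top_lt
  · rw [h1] at hzw; exact absurd hzw not_top_lt
  · rw [h1] at hzw; exact absurd hzw not_top_lt
  · rw [h1] at hzw; exact absurd hzw not_top_lt

end

end Pool.Agent.Helper87.ML2
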