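import Pool.Agent.Helper87.ML2.Plane
import Pool.Agent.Helper87.ML2.Defs

set_option autoImplicit false

/-! The gluing data given by a permutation of the lines through a point. -/

namespace Pool.Agent.Helper87.ML2

open Pool.Agent.Helper87.ML OrderDual

universe u v w

section

variable {P : Type u} [Lattice P] [BoundedOrder P] {p : P}

open Classical in
noncomputable def pol (σ : Equiv.Perm {l : P // p ⋖ l}) (a : P) : P :=
  if a ≤ p then ⊤ else if h : p ⋖ a ⊔ p then (σ ⟨a ⊔ p, h⟩ : P) else p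

variable (σ : Equiv.Perm {l : P // p ⋖ l})

lemma pol_le {a : P} (h : a ≤ p) : pol σ a = ⊤ := if_pos h

lemma pol_line {a l : P} (hl : p ⋖ l) (h : a ⊔ p = l) : pol σ a = σ ⟨l, hl⟩ := by
  subst h
  have h1 : ¬ a ≤ p := by
    intro h1
    rw [sup_eq_right.2 h1] at hl
    exact hl.lt.false
  rw [pol, if_neg h1, dif_pos hl]

variable (hP : IsPlane (⊥ : P) ⊤) (hp : ⊥ ⋖ p)

include hP hp in
lemma pol_top {a : P} (h : a ⊔ p = ⊤) : pol σ a = p := by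
  have h1 : ¬ a ≤ p := by
    intro h1
    rw [sup_eq_right.2 h1] at h
    have := rk_point hp
    rw [h, rk_top hP] at this
    omega
  rw [pol, if_neg h1, dif_neg (by rw [h]; exact point_not_coatom hP hp)]

include hP hp in
lemma pol_cases (a : P) : (a ≤ p ∧ pol σ a = ⊤) ∨
    (∃ l, ∃ hl : p ⋖ l, a ⊔ p = l ∧ pol σ a = σ ⟨l, hl⟩) ∨ (a ⊔ p = ⊤ ∧ pol σ a = p) := by
  rcases above_point hP hp (le_sup_right : p ≤ a ⊔ p) with h | h | h
  · left
    exact ⟨by rw [← h]; exact le_sup_left, pol_le σ (by rw [← h]; exact le_sup_left)⟩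
  · right; left
    exact ⟨_, h.1, rfl, pol_line σ h.1 rfl⟩
  · right; right
    exact ⟨h, pol_top σ hP hp h⟩

include hP hp in
lemma p_le_pol (a : P) : p ≤ pol σ a := by
  rcases pol_cases σ hP hp a with ⟨-, h⟩ | ⟨l, hl, -, h⟩ | ⟨-, h⟩
  · rw [h]; exact le_top
  · rw [h]; exact (σ ⟨l, hl⟩).2.le
  · rw [h]

include hP hp in
lemma pol_gc (a b : P) (h : b ≤ pol σ a) : a ≤ pol σ⁻¹ b := by
  rcases pol_cases σ hP hp a with ⟨h1, h2⟩ | ⟨l, hl, h1, h2⟩ | ⟨h1, h2⟩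
  · exact h1.trans (p_le_pol σ⁻¹ hP hp b)
  · rw [h2] at h
    have h3 : b ⊔ p ≤ σ ⟨l, hl⟩ := sup_le h (σ ⟨l, hl⟩).2.le
    rcases eq_or_lt_of_le h3 with h4 | h4
    · rw [pol_line σ⁻¹ (σ ⟨l, hl⟩).2 h4]
      have h5 : σ⁻¹ ⟨(σ ⟨l, hl⟩ : P), (σ ⟨l, hl⟩).2⟩ = ⟨l, hl⟩ := by
        rw [Equiv.Perm.inv_eq_iff_eq]
      rw [h5]
      exact le_sup_left.trans h1.le
    · have h5 : b ≤ p := by
        by_contra h5
        exact (σ ⟨l, hl⟩).2.2 (right_lt_sup.2 h5) h4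
      rw [pol_le σ⁻¹ h5]; exact le_top
  · rw [h2] at h
    rw [pol_le σ⁻¹ h]; exact le_top

include hP hp in
lemma pol_pol (a : P) : pol σ⁻¹ (pol σ a) = a ⊔ p := by
  rcases pol_cases σ hP hp a with ⟨h1, h2⟩ | ⟨l, hl, h1, h2⟩ | ⟨h1, h2⟩
  · rw [h2, pol_top σ⁻¹ hP hp (top_sup_eq p), sup_eq_right.2 h1]
  · have h3 : (σ ⟨l, hl⟩ : P) ⊔ p = σ ⟨l, hl⟩ := sup_eq_left.2 (σ ⟨l, hl⟩).2.le
    rw [h2, pol_line σ⁻¹ (σ ⟨l, hl⟩).2 h3, h1]
    have h5 : σ⁻¹ ⟨(σ ⟨l, hl⟩ : P), (σ ⟨l, hl⟩).2⟩ = ⟨l, hl⟩ := by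
      rw [Equiv.Perm.inv_eq_iff_eq]
    rw [h5]
  · rw [h2, pol_le σ⁻¹ le_rfl, h1]

/-- the gluing data -/
noncomputable def polData : GData P P p p where
  e := pol σ
  e' := pol σ⁻¹
  gc := fun a b => ⟨pol_gc σ hP hp a b, fun h => by
    have := pol_gc σ⁻¹ hP hp b a h
    rwa [inv_inv] at this⟩
  ee' := fun b => by
    have := pol_pol σ⁻¹ hP hp b
    rwa [inv_inv] at this
  e'e := fun a => pol_pol σ hP hp a

/-- the twisted gluing -/
abbrev Tw := Gl (polData σ hP hp)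

instance [Finite P] : Finite (Tw σ hP hp) := by
  have : Function.Surjective (fun x : P ⊕ {b : P // ¬ p ≤ b} =>
      (match x with
        | Sum.inl a => Gl.lo a
        | Sum.inr b => Gl.hi b.1 b.2 : Tw σ hP hp)) := by
    rintro (a | ⟨b, hb⟩)
    · exact ⟨Sum.inl a, rfl⟩
    · exact ⟨Sum.inr ⟨b, hb⟩, rfl⟩
  exact Finite.of_surjective _ this

include hp in
lemma not_p_le_bot : ¬ p ≤ (⊥ : P) := fun h => hp.lt.not_ge h

noncomputable instance : BoundedOrder (Tw σ hP hp) where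
  bot := Gl.lo ⊥
  bot_le x := by
    rcases x with a | ⟨b, hb⟩
    · exact bot_le (a := a)
    · show b ≤ pol σ ⊥
      rw [pol_le σ bot_le]; exact le_top
  top := Gl.hi ⊥ (not_p_le_bot hp)
  le_top x := by
    rcases x with a | ⟨b, hb⟩
    · exact bot_le (a := pol σ a)
    · exact bot_le (a := b)

lemma tw_bot : (⊥ : Tw σ hP hp) = Gl.lo ⊥ := rfl
lemma tw_top : (⊤ : Tw σ hP hp) = Gl.hi ⊥ (not_p_le_bot hp) := rfl

lemma tw_modular : IsModularLattice (Tw σ hP hp) := by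
  have := plane_modular hP
  infer_instance

/-- the ideal -/
noncomputable def twF : P ≃o Set.Iic (Gl.lo ⊤ : Tw σ hP hp) where
  toFun a := ⟨Gl.lo a, le_top (a := a)⟩
  invFun x := match x with
    | ⟨Gl.lo a, _⟩ => a
    | ⟨Gl.hi _ _, h⟩ => False.elim h
  left_inv a := rfl
  right_inv x := by
    rcases x with ⟨a | ⟨b, hb⟩, hx⟩
    · rfl
    · exact False.elim hx
  map_rel_iff' := by intro a b; exact Iff.rfl

open Classical in
/-- the filter -/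
noncomputable def twG : Pᵒᵈ ≃o Set.Ici (Gl.lo p : Tw σ hP hp) where
  toFun b := if h : p ≤ ofDual b then ⟨Gl.lo (pol σ⁻¹ (ofDual b)), p_le_pol σ⁻¹ hP hp _⟩
    else ⟨Gl.hi (ofDual b) h, show ofDual b ≤ pol σ p by rw [pol_le σ le_rfl]; exact le_top⟩
  invFun x := match x with
    | ⟨Gl.lo a, _⟩ => toDual (pol σ a)
    | ⟨Gl.hi b _, _⟩ => toDual b
  left_inv b := by
    by_cases h : p ≤ ofDual b
    · simp only [dif_pos h]
      rw [show pol σ (pol σ⁻¹ (ofDual b)) = ofDual b ⊔ p from (polData σ hP hp).ee' _,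
        sup_eq_left.2 h]
      rfl
    · simp only [dif_neg h]
      rfl
  right_inv x := by
    rcases x with ⟨a | ⟨b, hb⟩, hx⟩
    · have hpa : p ≤ a := hx
      simp only [ofDual_toDual, dif_pos (p_le_pol σ hP hp a)]
      apply Subtype.ext
      show (Gl.lo (pol σ⁻¹ (pol σ a)) : Tw σ hP hp) = Gl.lo a
      rw [pol_pol σ hP hp, sup_eq_left.2 hpa]
    · simp only [ofDual_toDual, dif_neg hb]
  map_rel_iff' := by
    intro b c
    show (if h : p ≤ ofDual b then (⟨Gl.lo (pol σ⁻¹ (ofDual b)), p_le_pol σ⁻¹ hP hp _⟩ :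
        Set.Ici (Gl.lo p : Tw σ hP hp))
      else ⟨Gl.hi (ofDual b) h, show ofDual b ≤ pol σ p by rw [pol_le σ le_rfl]; exact le_top⟩) ≤
      (if h : p ≤ ofDual c then (⟨Gl.lo (pol σ⁻¹ (ofDual c)), p_le_pol σ⁻¹ hP hp _⟩ :
        Set.Ici (Gl.lo p : Tw σ hP hp))
      else ⟨Gl.hi (ofDual c) h, show ofDual c ≤ pol σ p by rw [pol_le σ le_rfl]; exact le_top⟩) ↔
      ofDual c ≤ ofDual b
    by_cases h1 : p ≤ ofDual b <;> by_cases h2 : p ≤ ofDual c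
    · rw [dif_pos h1, dif_pos h2]
      show pol σ⁻¹ (ofDual b) ≤ (polData σ hP hp).e' (ofDual c) ↔ _
      rw [← (polData σ hP hp).gc (pol σ⁻¹ (ofDual b)) (ofDual c)]
      show ofDual c ≤ (polData σ hP hp).e ((polData σ hP hp).e' (ofDual b)) ↔ _
      rw [(polData σ hP hp).ee', sup_eq_left.2 h1]
    · rw [dif_pos h1, dif_neg h2]
      show ofDual c ≤ (polData σ hP hp).e ((polData σ hP hp).e' (ofDual b)) ↔ _
      rw [(polData σ hP hp).ee', sup_eq_left.2 h1]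
    · rw [dif_neg h1, dif_pos h2]
      constructor
      · intro h; exact False.elim h
      · intro h; exact absurd (h2.trans h) h1
    · rw [dif_neg h1, dif_neg h2]
      exact Iff.rfl

lemma twG_pos {b : P} (h : p ≤ b) :
    (twG σ hP hp (toDual b) : Tw σ hP hp) = Gl.lo (pol σ⁻¹ b) := by
  simp [twG, h]

lemma twG_neg {b : P} (h : ¬ p ≤ b) :
    (twG σ hP hp (toDual b) : Tw σ hP hp) = Gl.hi b h := by
  simp [twG, h]

theorem isTwist_tw : IsTwist P p σ (Tw σ hP hp) := by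
  refine ⟨Gl.lo p, Gl.lo ⊤, twF σ hP hp, twG σ hP hp, ?_, rfl, ?_, ?_⟩
  · rintro (a | ⟨b, hb⟩)
    · exact Or.inl (le_top (a := a))
    · right
      show b ≤ pol σ p
      rw [pol_le σ le_rfl]; exact le_top
  · rw [twG_pos σ hP hp le_rfl, pol_le σ⁻¹ le_rfl]
  · rintro ⟨l, hl⟩
    have h1 : p ≤ (σ ⟨l, hl⟩ : P) := (σ ⟨l, hl⟩).2.le
    rw [twG_pos σ hP hp h1, pol_line σ⁻¹ (σ ⟨l, hl⟩).2 (sup_eq_left.2 h1)]
    have h5 : σ⁻¹ ⟨(σ ⟨l, hl⟩ : P), (σ ⟨l, hl⟩).2⟩ = ⟨l, hl⟩ := by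
      rw [Equiv.Perm.inv_eq_iff_eq]
    rw [h5]
    rfl

end

end Pool.Agent.Helper87.ML2
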