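import Pool.Agent.Helper87.ML2.Class

set_option autoImplicit false

/-! The proper intervals of the twisted gluings. -/

namespace Pool.Agent.Helper87.ML2

open Pool.Agent.Helper87.ML OrderDual Order

universe u v

/-- posets of height three, described by two levels `i`, `j` -/
structure Four (M : Type*) [PartialOrder M] (α : Type*) (R : α → α → Prop) (o t : M)
    (i j : α → M) : Prop where
  hot : o ≠ t
  ho : ∀ z, o ≤ z
  ht : ∀ z, z ≤ t
  hcov : ∀ z, z = o ∨ (∃ a, z = i a) ∨ (∃ a, z = j a) ∨ z = t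
  hio : ∀ a, i a ≠ o
  hit : ∀ a, i a ≠ t
  hjo : ∀ a, j a ≠ o
  hjt : ∀ a, j a ≠ t
  hii : ∀ a b, i a ≤ i b → a = b
  hjj : ∀ a b, j a ≤ j b → a = b
  hji : ∀ a b, ¬ j a ≤ i b
  hij : ∀ a b, i a ≤ j b ↔ R a b

section

variable {M M' : Type*} [PartialOrder M] [PartialOrder M'] {α α' : Type*} {R : α → α → Prop}
  {R' : α' → α' → Prop} {o t : M} {i j : α → M} {o' t' : M'} {i' j' : α' → M'}

lemma Four.exists_map (h : Four M α R o t i j) (h' : Four M' α' R' o' t' i' j') (ε : α → α')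
    (hR : ∀ a b, R a b → R' (ε a) (ε b)) :
    ∃ F : M → M', Monotone F ∧ F o = o' ∧ F t = t' ∧ (∀ a, F (i a) = i' (ε a)) ∧
      ∀ a, F (j a) = j' (ε a) := by
  classical
  obtain ⟨F, hF⟩ : ∃ F : M → M', F = fun z =>
    if z = o then o' else if z = t then t' else if h : ∃ a, z = i a then i' (ε h.choose)
    else if h : ∃ a, z = j a then j' (ε h.choose) else o' := ⟨_, rfl⟩
  have hFo : F o = o' := by rw [hF]; simp
  have hFt : F t = t' := by rw [hF]; simp [h.hot.symm]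
  have hFi : ∀ a, F (i a) = i' (ε a) := by
    intro a
    have hex : ∃ b, i a = i b := ⟨a, rfl⟩
    have h1 : hex.choose = a := (h.hii _ _ hex.choose_spec.le).symm
    rw [hF]
    simp only [h.hio a, h.hit a, if_false, dif_pos hex]
    rw [h1]
  have hFj : ∀ a, F (j a) = j' (ε a) := by
    intro a
    have hex : ∃ b, j a = j b := ⟨a, rfl⟩
    have h1 : hex.choose = a := (h.hjj _ _ hex.choose_spec.le).symm
    have hno : ¬ ∃ b, j a = i b := by
      rintro ⟨b, hb⟩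
      exact h.hji a b hb.le
    rw [hF]
    simp only [h.hjo a, h.hjt a, if_false, dif_neg hno, dif_pos hex]
    rw [h1]
  refine ⟨F, ?_, hFo, hFt, hFi, hFj⟩
  intro z w hzw
  rcases h.hcov z with rfl | ⟨a, rfl⟩ | ⟨a, rfl⟩ | rfl
  · rw [hFo]; exact h'.ho _
  · rcases h.hcov w with rfl | ⟨b, rfl⟩ | ⟨b, rfl⟩ | rfl
    · exact absurd (le_antisymm hzw (h.ho _)) (h.hio a)
    · rw [h.hii a b hzw]
    · rw [hFi, hFj, h'.hij]
      exact hR a b ((h.hij a b).1 hzw)
    · rw [hFt]; exact h'.ht _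
  · rcases h.hcov w with rfl | ⟨b, rfl⟩ | ⟨b, rfl⟩ | rfl
    · exact absurd (le_antisymm hzw (h.ho _)) (h.hjo a)
    · exact absurd hzw (h.hji a b)
    · rw [h.hjj a b hzw]
    · rw [hFt]; exact h'.ht _
  · rw [le_antisymm (h.ht w) hzw]

lemma Four.iso (h : Four M α R o t i j) (h' : Four M' α' R' o' t' i' j') (ε : α ≃ α')
    (hR : ∀ a b, R a b ↔ R' (ε a) (ε b)) : Nonempty (M ≃o M') := by
  obtain ⟨F, hFm, hFo, hFt, hFi, hFj⟩ := h.exists_map h' ε (fun a b => (hR a b).1)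
  obtain ⟨G, hGm, hGo, hGt, hGi, hGj⟩ := h'.exists_map h ε.symm (fun a b hab => by
    rw [hR, ε.apply_symm_apply, ε.apply_symm_apply]; exact hab)
  have hGF : ∀ z, G (F z) = z := by
    intro z
    rcases h.hcov z with rfl | ⟨a, rfl⟩ | ⟨a, rfl⟩ | rfl
    · rw [hFo, hGo]
    · rw [hFi, hGi, ε.symm_apply_apply]
    · rw [hFj, hGj, ε.symm_apply_apply]
    · rw [hFt, hGt]
  have hFG : ∀ z, F (G z) = z := by
    intro z
    rcases h'.hcov z with rfl | ⟨a, rfl⟩ | ⟨a, rfl⟩ | rfl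
    · rw [hGo, hFo]
    · rw [hGi, hFi, ε.apply_symm_apply]
    · rw [hGj, hFj, ε.apply_symm_apply]
    · rw [hGt, hFt]
  refine ⟨⟨⟨F, G, hGF, hFG⟩, ?_⟩⟩
  intro z w
  constructor
  · intro h1
    have h2 := hGm h1
    simpa only [Equiv.coe_fn_mk, hGF] using h2
  · intro h1; exact hFm h1

end

lemma three_key {K : Type*} [PartialOrder K] {a b c : K} (hab : a < b) (hbc : b < c)
    (hz : ∀ z, a ≤ z → z ≤ c → z = a ∨ z = b ∨ z = c) : Nonempty (Fin 3 ≃o Set.Icc a c) := by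
  have hac := hab.trans hbc
  obtain ⟨F, h0, h1, h2⟩ : ∃ F : Fin 3 → Set.Icc a c, F 0 = ⟨a, le_rfl, hac.le⟩ ∧
      F 1 = ⟨b, hab.le, hbc.le⟩ ∧ F 2 = ⟨c, hac.le, le_rfl⟩ :=
    ⟨![⟨a, le_rfl, hac.le⟩, ⟨b, hab.le, hbc.le⟩, ⟨c, hac.le, le_rfl⟩], rfl, rfl, rfl⟩
  have hmono : StrictMono F := by
    rw [Fin.strictMono_iff_lt_succ]
    intro k
    fin_cases k
    · show F 0 < F 1
      rw [h0, h1]; exact hab
    · show F 1 < F 2
      rw [h1, h2]; exact hbc
  have hsurj : Function.Surjective F := by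
    rintro ⟨z, hz1, hz2⟩
    rcases hz z hz1 hz2 with rfl | rfl | rfl
    · exact ⟨0, h0⟩
    · exact ⟨1, h1⟩
    · exact ⟨2, h2⟩
  exact ⟨StrictMono.orderIsoOfSurjective F hmono hsurj⟩

/-- chains with three elements -/
lemma three_iso {L L' : Type*} [PartialOrder L] [PartialOrder L'] {x m y : L} {x' m' y' : L'}
    (hxm : x < m) (hmy : m < y) (h : ∀ z, x ≤ z → z ≤ y → z = x ∨ z = m ∨ z = y)
    (hxm' : x' < m') (hmy' : m' < y') (h' : ∀ z, x' ≤ z → z ≤ y' → z = x' ∨ z = m' ∨ z = y') :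
    Nonempty (Set.Icc x y ≃o Set.Icc x' y') := by
  obtain ⟨e⟩ := three_key hxm hmy h
  obtain ⟨e'⟩ := three_key hxm' hmy' h'
  exact ⟨e.symm.trans e'⟩

/-- intervals of principal ideals -/
def iccF {M L : Type*} [PartialOrder M] [PartialOrder L] {s : L} (f : M ≃o Set.Iic s) (a b : M) :
    Set.Icc a b ≃o Set.Icc (f a : L) (f b) where
  toFun x := ⟨f x, f.monotone x.2.1, f.monotone x.2.2⟩
  invFun x := ⟨f.symm ⟨x, x.2.2.trans (f b).2⟩, by
    constructor
    · rw [f.le_symm_apply]; exact x.2.1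
    · rw [f.symm_apply_le]; exact x.2.2⟩
  left_inv x := Subtype.ext (f.symm_apply_apply x)
  right_inv x := by
    apply Subtype.ext
    show (f (f.symm ⟨x, _⟩) : L) = x
    rw [f.apply_symm_apply]
  map_rel_iff' := by
    intro x y
    exact f.le_iff_le

/-- intervals of principal filters -/
def iccG {M L : Type*} [PartialOrder M] [PartialOrder L] {s : L} (f : M ≃o Set.Ici s) (a b : M) :
    Set.Icc a b ≃o Set.Icc (f a : L) (f b) where
  toFun x := ⟨f x, f.monotone x.2.1, f.monotone x.2.2⟩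
  invFun x := ⟨f.symm ⟨x, (f a).2.trans x.2.1⟩, by
    constructor
    · rw [f.le_symm_apply]; exact x.2.1
    · rw [f.symm_apply_le]; exact x.2.2⟩
  left_inv x := Subtype.ext (f.symm_apply_apply x)
  right_inv x := by
    apply Subtype.ext
    show (f (f.symm ⟨x, _⟩) : L) = x
    rw [f.apply_symm_apply]
  map_rel_iff' := by
    intro x y
    exact f.le_iff_le

section

variable {P : Type u} [Lattice P] [BoundedOrder P] {p : P} (σ τ : Equiv.Perm {l : P // p ⋖ l})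
  (hP : IsPlane (⊥ : P) ⊤) (hp : ⊥ ⋖ p)

/-- the ideals below coatoms off the lower plane -/
lemma tw_four [Finite P] {b : P} (hb : ⊥ ⋖ b) (hpb : ¬ p ≤ b) :
    ∃ (m : P) (_ : p ⋖ m) (i j : {a : P // ⊥ ⋖ a ∧ a ≤ m} →
      Set.Icc (⊥ : Tw σ hP hp) (Gl.hi b hpb)),
      Four (Set.Icc (⊥ : Tw σ hP hp) (Gl.hi b hpb)) {a : P // ⊥ ⋖ a ∧ a ≤ m}
        (fun a c => (a : P) = p ∨ (c : P) = p) ⟨⊥, le_rfl, bot_le⟩
        ⟨Gl.hi b hpb, bot_le, le_rfl⟩ i j := by
  classical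
  have hne : p ≠ b := fun h => hpb h.le
  have hl0 := sup_points hP hp hb hne
  rw [sup_comm] at hl0
  obtain ⟨m, hm⟩ : ∃ m, m = (σ⁻¹ ⟨b ⊔ p, hl0.1⟩ : P) := ⟨_, rfl⟩
  have hpm : p ⋖ m := by rw [hm]; exact (σ⁻¹ ⟨b ⊔ p, hl0.1⟩).2
  have hmt : m ⋖ ⊤ := cov_point hP hp hpm
  have e1 : pol σ⁻¹ b = m := by rw [pol_line σ⁻¹ hl0.1 rfl, hm]
  have e2 : pol σ⁻¹ (b ⊔ p) = m := by
    rw [pol_line σ⁻¹ hl0.1 (by rw [sup_assoc, sup_idem]), hm]
  have hF : LF P := fun x y => Set.toFinite _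
  have hcard := plane_pencil hF hP hb le_top bot_le hmt
  have hcard' : Nat.card {a : P // ⊥ ⋖ a ∧ a ≤ m} = Nat.card {c : P // b ≤ c ∧ c ⋖ ⊤} := hcard.symm
  obtain ⟨e0⟩ : Nonempty ({a : P // ⊥ ⋖ a ∧ a ≤ m} ≃ {c : P // b ≤ c ∧ c ⋖ ⊤}) :=
    Finite.card_eq.1 hcard'
  obtain ⟨κ, hκ⟩ : ∃ κ : {a : P // ⊥ ⋖ a ∧ a ≤ m} ≃ {c : P // b ≤ c ∧ c ⋖ ⊤},
      κ ⟨p, hp, hpm.le⟩ = ⟨b ⊔ p, le_sup_left, hl0.2⟩ :=
    ⟨e0.trans (Equiv.swap (e0 ⟨p, hp, hpm.le⟩) ⟨b ⊔ p, le_sup_left, hl0.2⟩), by simp⟩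
  have hκp : ∀ a, p ≤ (κ a : P) → (a : P) = p := by
    intro a ha
    have h1 : b ⊔ p = (κ a : P) := line_eq hP hl0.2 (κ a).2.2 (sup_le (κ a).2.1 ha)
    have h2 : κ a = κ ⟨p, hp, hpm.le⟩ := by rw [hκ]; exact Subtype.ext h1.symm
    rw [κ.injective h2]
  have hκn : ∀ a : {a : P // ⊥ ⋖ a ∧ a ≤ m}, (a : P) ≠ p → ¬ p ≤ (κ a : P) :=
    fun a ha h => ha (hκp a h)
  have hgb : (twG σ hP hp (toDual b) : Tw σ hP hp) = Gl.hi b hpb := twG_neg σ hP hp hpb
  obtain ⟨i, hi⟩ : ∃ i : {a : P // ⊥ ⋖ a ∧ a ≤ m} → Set.Icc (⊥ : Tw σ hP hp) (Gl.hi b hpb),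
      ∀ a, (i a : Tw σ hP hp) = Gl.lo (a : P) :=
    ⟨fun a => ⟨Gl.lo (a : P), bot_le, by
      show b ≤ (polData σ hP hp).e a
      rw [(polData σ hP hp).gc]
      show (a : P) ≤ pol σ⁻¹ b
      rw [e1]; exact a.2.2⟩, fun a => rfl⟩
  obtain ⟨j, hj⟩ : ∃ j : {a : P // ⊥ ⋖ a ∧ a ≤ m} → Set.Icc (⊥ : Tw σ hP hp) (Gl.hi b hpb),
      ∀ a, (j a : Tw σ hP hp) = twG σ hP hp (toDual (κ a : P)) :=
    ⟨fun a => ⟨twG σ hP hp (toDual (κ a : P)), bot_le, by
      rw [← hgb]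
      exact (twG σ hP hp).monotone (show toDual (κ a : P) ≤ toDual b from (κ a).2.1)⟩,
      fun a => rfl⟩
  have hri : ∀ a, rkT σ hP hp (i a) = 1 := by
    intro a; rw [hi]; exact rk_point a.2.1
  have hrj : ∀ a, rkT σ hP hp (j a) = 2 := by
    intro a; rw [hj, rkT_twG σ hP hp _ (em _), rk_line hP (κ a).2.2]
  have hro : rkT σ hP hp (⊥ : Tw σ hP hp) = 0 := rk_bot
  have hrt : rkT σ hP hp (Gl.hi b hpb) = 3 := by
    show 4 - rk b = 3
    rw [rk_point hb]
  have hlt := rkT_lt σ hP hp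
  have hrk : ∀ z w : Set.Icc (⊥ : Tw σ hP hp) (Gl.hi b hpb), z ≤ w →
      rkT σ hP hp w ≤ rkT σ hP hp z → z = w := by
    intro z w hzw hr
    by_contra h1
    have h2 : (z : Tw σ hP hp) < w := lt_of_le_of_ne hzw (fun h => h1 (Subtype.ext h))
    have := hlt h2
    omega
  have hinj : ∀ z w : Set.Icc (⊥ : Tw σ hP hp) (Gl.hi b hpb), z = w →
      rkT σ hP hp z = rkT σ hP hp w := by
    rintro z w rfl; rfl
  refine ⟨m, hpm, i, j, ?_, ?_, ?_, ?_, ?_, ?_, ?_, ?_, ?_, ?_, ?_, ?_⟩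
  · intro h
    have := hinj _ _ h
    rw [show rkT σ hP hp (⟨⊥, _⟩ : Set.Icc (⊥ : Tw σ hP hp) (Gl.hi b hpb)) = 0 from hro,
      show rkT σ hP hp (⟨Gl.hi b hpb, _⟩ : Set.Icc (⊥ : Tw σ hP hp) (Gl.hi b hpb)) = 3 from hrt]
      at this
    omega
  · intro z; exact z.2.1
  · intro z; exact z.2.2
  · -- every element is on one of the four levels
    rintro ⟨z, hz1, hz2⟩
    rcases z with a | ⟨c, hc⟩
    · have ham : a ≤ m := by
        have h1 : b ≤ (polData σ hP hp).e a := hz2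
        rw [(polData σ hP hp).gc] at h1
        rw [← e1]; exact h1
      rcases hP.1 a bot_le le_top with h1 | h1 | h1 | h1
      · left
        apply Subtype.ext
        show (Gl.lo a : Tw σ hP hp) = Gl.lo ⊥
        rw [h1]
      · right; left
        refine ⟨⟨a, h1, ham⟩, Subtype.ext ?_⟩
        rw [hi]
      · right; right; left
        have h2 : a = m := line_eq hP h1 hmt ham
        refine ⟨⟨p, hp, hpm.le⟩, Subtype.ext ?_⟩
        rw [hj, hκ, twG_pos σ hP hp le_sup_right, e2]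
        show (Gl.lo a : Tw σ hP hp) = Gl.lo m
        rw [h2]
      · exfalso
        rw [h1] at ham
        exact hmt.lt.not_ge ham
    · have hbc : b ≤ c := hz2
      rcases above_point hP hb hbc with h1 | h1 | h1
      · right; right; right
        subst h1; rfl
      · right; right; left
        refine ⟨κ.symm ⟨c, hbc, h1.2⟩, Subtype.ext ?_⟩
        rw [hj, κ.apply_symm_apply, twG_neg σ hP hp hc]
      · exfalso
        rw [h1] at hc; exact hc le_top
  · intro a h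
    have h1 := hinj _ _ h
    rw [hri, show rkT σ hP hp (⟨⊥, _⟩ : Set.Icc (⊥ : Tw σ hP hp) (Gl.hi b hpb)) = 0 from hro] at h1
    omega
  · intro a h
    have h1 := hinj _ _ h
    rw [hri, show rkT σ hP hp (⟨Gl.hi b hpb, _⟩ : Set.Icc (⊥ : Tw σ hP hp) (Gl.hi b hpb)) = 3
      from hrt] at h1
    omega
  · intro a h
    have h1 := hinj _ _ h
    rw [hrj, show rkT σ hP hp (⟨⊥, _⟩ : Set.Icc (⊥ : Tw σ hP hp) (Gl.hi b hpb)) = 0 from hro] at h1
    omega
  · intro a h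
    have h1 := hinj _ _ h
    rw [hrj, show rkT σ hP hp (⟨Gl.hi b hpb, _⟩ : Set.Icc (⊥ : Tw σ hP hp) (Gl.hi b hpb)) = 3
      from hrt] at h1
    omega
  · intro a c h
    have h1 := hrk _ _ h (by rw [hri, hri])
    have h2 : (Gl.lo (a : P) : Tw σ hP hp) = Gl.lo (c : P) := by rw [← hi, ← hi, h1]
    exact Subtype.ext (by injection h2)
  · intro a c h
    have h1 := hrk _ _ h (by rw [hrj, hrj])
    have h2 : (twG σ hP hp (toDual (κ a : P)) : Tw σ hP hp) = twG σ hP hp (toDual (κ c : P)) := by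
      rw [← hj, ← hj, h1]
    have h3 : toDual (κ a : P) = toDual (κ c : P) := (twG σ hP hp).injective (Subtype.ext h2)
    exact κ.injective (Subtype.ext h3)
  · intro a c h
    have h1 : (j a : Tw σ hP hp) ≤ i c := h
    rcases eq_or_lt_of_le h1 with h2 | h2
    · have h3 := congrArg (rkT σ hP hp) h2
      rw [hrj, hri] at h3
      omega
    · have h3 := hlt h2
      rw [hrj, hri] at h3
      omega
  · intro a c
    constructor
    · intro h
      by_cases hcp : (c : P) = p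
      · right; exact hcp
      · left
        have h1 : (Gl.lo (a : P) : Tw σ hP hp) ≤ Gl.hi (κ c : P) (hκn c hcp) := by
          rw [← twG_neg σ hP hp (hκn c hcp), ← hi, ← hj]; exact h
        have h2 : (κ c : P) ≤ (polData σ hP hp).e a := h1
        rw [(polData σ hP hp).gc] at h2
        have h3 : (κ c : P) ⊔ p = ⊤ := by
          rcases above_point hP hp (le_sup_right : p ≤ (κ c : P) ⊔ p) with h4 | h4 | h4
          · exfalso
            have h5 : (κ c : P) ≤ p := by rw [← h4]; exact le_sup_left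
            have h6 := rk_mono hP hp h5
            rw [rk_line hP (κ c).2.2, rk_point hp] at h6
            omega
          · exfalso
            have h5 := line_eq hP (κ c).2.2 h4.2 le_sup_left
            exact hκn c hcp (by rw [h5]; exact le_sup_right)
          · exact h4
        have h5 : pol σ⁻¹ (κ c : P) = p := pol_top σ⁻¹ hP hp h3
        exact point_eq a.2.1 hp (by rw [← h5]; exact h2)
    · intro h
      show (i a : Tw σ hP hp) ≤ j c
      rcases h with h | h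
      · rw [hi, h, hj]
        exact (twG σ hP hp (toDual (κ c : P))).2
      · have h5 : c = ⟨p, hp, hpm.le⟩ := Subtype.ext h
        rw [hj, h5, hκ, twG_pos σ hP hp le_sup_right, e2, hi]
        exact a.2.2

/-- coatoms of two twisted gluings -/
lemma coatom_match [Finite P] {Y : Tw σ hP hp} (hY : Y ⋖ ⊤) : ∃ Y' : Tw τ hP hp, Y' ⋖ ⊤ ∧
    Nonempty (Set.Icc (⊥ : Tw σ hP hp) Y ≃o Set.Icc (⊥ : Tw τ hP hp) Y') := by
  have hcoP : ∀ (ρ : Equiv.Perm {l : P // p ⋖ l}), (Gl.lo ⊤ : Tw ρ hP hp) ⋖ ⊤ := by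
    intro ρ
    have h1 : (Gl.lo ⊤ : Tw ρ hP hp) < ⊤ := by
      rw [tw_top]
      exact lt_of_le_not_ge (show ⊥ ≤ pol ρ ⊤ from bot_le) (fun h => h)
    refine ⟨h1, fun w h2 h3 => ?_⟩
    have h4 := rkT_lt ρ hP hp h2
    have h5 := rkT_lt ρ hP hp h3
    have h6 := rkT_le ρ hP hp ⊤
    have h7 : rkT ρ hP hp (Gl.lo ⊤ : Tw ρ hP hp) = 3 := rk_top hP
    omega
  rcases Y with a | ⟨b, hb⟩
  · have h1 : (Gl.lo a : Tw σ hP hp) = Gl.lo ⊤ := by
      by_contra h1
      have h2 : (Gl.lo a : Tw σ hP hp) < Gl.lo ⊤ := lt_of_le_of_ne (le_top (a := a)) h1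
      exact hY.2 h2 (hcoP σ).lt
    rw [h1]
    exact ⟨Gl.lo ⊤, hcoP τ, ⟨(twLow σ hP hp).symm.trans (twLow τ hP hp)⟩⟩
  · have hbp : ⊥ ⋖ b := by
      rcases hP.1 b bot_le le_top with h1 | h1 | h1 | h1
      · exfalso
        subst h1
        exact hY.lt.ne rfl
      · exact h1
      · exfalso
        obtain ⟨-, -, -, h4, -⟩ := id hP
        obtain ⟨c, -, -, ⟨hc, -, -⟩, ⟨hcb, -, -⟩, -⟩ := h4 b bot_le h1
        have h2 : ¬ p ≤ c := fun h => hb (h.trans hcb)
        have hlt : c < b := by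
          apply lt_of_le_of_ne hcb
          intro h; rw [h] at hc
          exact point_not_coatom hP hc h1
        have h3 : (Gl.hi b hb : Tw σ hP hp) < Gl.hi c h2 :=
          lt_of_le_not_ge (show c ≤ b from hcb) (fun h => hlt.not_ge h)
        have h4 : (Gl.hi c h2 : Tw σ hP hp) < ⊤ := by
          rw [tw_top]
          exact lt_of_le_not_ge (show ⊥ ≤ c from bot_le) (fun h => hc.lt.not_ge h)
        exact hY.2 h3 h4
      · exact absurd le_top (h1 ▸ hb)
    refine ⟨Gl.hi b hb, ?_, ?_⟩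
    · have h1 : (Gl.hi b hb : Tw τ hP hp) < ⊤ := by
        rw [tw_top]
        exact lt_of_le_not_ge (show ⊥ ≤ b from bot_le) (fun h => hbp.lt.not_ge h)
      refine ⟨h1, fun w h2 h3 => ?_⟩
      have h4 := rkT_lt τ hP hp h2
      have h5 := rkT_lt τ hP hp h3
      have h6 := rkT_le τ hP hp ⊤
      have h7 : rkT τ hP hp (Gl.hi b hb : Tw τ hP hp) = 3 := by
        show 4 - rk b = 3
        rw [rk_point hbp]
      omega
    · obtain ⟨m, hpm, i, j, h1⟩ := tw_four σ hP hp hbp hb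
      obtain ⟨m', hpm', i', j', h2⟩ := tw_four τ hP hp hbp hb
      have hF : LF P := fun x y => Set.toFinite _
      have hcard : Nat.card {a : P // ⊥ ⋖ a ∧ a ≤ m} = Nat.card {a : P // ⊥ ⋖ a ∧ a ≤ m'} :=
        plane_lines hF hP bot_le (cov_point hP hp hpm) bot_le (cov_point hP hp hpm')
      obtain ⟨e0⟩ := Finite.card_eq.1 hcard
      classical
      obtain ⟨ε, hε⟩ : ∃ ε : {a : P // ⊥ ⋖ a ∧ a ≤ m} ≃ {a : P // ⊥ ⋖ a ∧ a ≤ m'},
          ε ⟨p, hp, hpm.le⟩ = ⟨p, hp, hpm'.le⟩ :=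
        ⟨e0.trans (Equiv.swap (e0 ⟨p, hp, hpm.le⟩) ⟨p, hp, hpm'.le⟩), by simp⟩
      have hεp : ∀ a : {a : P // ⊥ ⋖ a ∧ a ≤ m}, (a : P) = p ↔ (ε a : P) = p := by
        intro a
        constructor
        · intro h
          have : a = ⟨p, hp, hpm.le⟩ := Subtype.ext h
          rw [this, hε]
        · intro h
          have h3 : ε a = ε ⟨p, hp, hpm.le⟩ := by rw [hε]; exact Subtype.ext h
          rw [ε.injective h3]
      exact h1.iso h2 ε (fun a b => by rw [hεp a, hεp b])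

/-- the dual of a twisted gluing -/
lemma tw_dual : Nonempty (Tw σ hP hp ≃o (Tw σ⁻¹ hP hp)ᵒᵈ) := by
  apply twist_iso_of hP hp (isTwist_tw σ hP hp) (isTwist_tw σ⁻¹ hP hp).dual (OrderIso.refl P)
    (OrderIso.refl P) rfl rfl
  rintro l l' hll
  have h7 : l' = l := Subtype.ext hll
  rw [inv_inv, h7]
  rfl

/-- atoms of two twisted gluings -/
lemma atom_match [Finite P] {X : Tw σ hP hp} (hX : ⊥ ⋖ X) : ∃ X' : Tw τ hP hp, ⊥ ⋖ X' ∧
    Nonempty (Set.Icc X ⊤ ≃o Set.Icc X' ⊤) := by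
  obtain ⟨Ψ⟩ := tw_dual σ hP hp
  obtain ⟨Φ⟩ := tw_dual τ hP hp
  have h1 : Ψ ⊥ ⋖ Ψ X := (apply_covBy_apply_iff Ψ).2 hX
  rw [Ψ.map_bot] at h1
  obtain ⟨Y, hY, ⟨e⟩⟩ := coatom_match σ⁻¹ τ⁻¹ hP hp (Y := ofDual (Ψ X)) h1.ofDual
  have h2 : (⊥ : (Tw τ⁻¹ hP hp)ᵒᵈ) ⋖ toDual Y := hY.toDual
  refine ⟨Φ.symm (toDual Y), ?_, ?_⟩
  · rw [← apply_covBy_apply_iff Φ, Φ.map_bot, Φ.apply_symm_apply]
    exact h2
  · have e1 := iccDual Ψ X ⊤
    have e2 := iccDual Φ (Φ.symm (toDual Y)) ⊤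
    rw [Ψ.map_top] at e1
    rw [Φ.map_top, Φ.apply_symm_apply] at e2
    exact ⟨e1.trans (e.dual.trans e2.symm)⟩

lemma exists_off (h : IsPlane (⊥ : P) ⊤) (p : P) (hp : ⊥ ⋖ p) : ∃ l, l ⋖ ⊤ ∧ ¬ p ≤ l := by
  obtain ⟨-, -, -, -, a, b, c, ⟨ha, hb, hc⟩, -, ⟨hab, hac, hbc⟩, hno⟩ := id h
  by_contra hcon
  push Not at hcon
  have l1 := (sup_points h ha hb hab).2
  have l2 := (sup_points h ha hc hac).2
  have l3 := (sup_points h hb hc hbc).2
  have hne : ∀ {s t r : P}, ⊥ ⋖ s → s ⊔ t ⋖ ⊤ → s ⊔ r ⋖ ⊤ → ¬ r ≤ s ⊔ t → p = s := by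
    intro s t r hs h1 h2 h3
    by_contra h6
    have h7 := sup_points_eq h hs hp (Ne.symm h6) h1 le_sup_left (hcon _ h1)
    have h8 := sup_points_eq h hs hp (Ne.symm h6) h2 le_sup_left (hcon _ h2)
    exact h3 (by rw [← h7, h8]; exact le_sup_right)
  have e1 : p = a := hne ha l1 l2 (fun h1 => hno _ bot_le l1 ⟨le_sup_left, le_sup_right, h1⟩)
  have e2 : p = b := hne (t := a) (r := c) hb (by rw [sup_comm]; exact l1) l3
    (fun h1 => hno _ bot_le l1 ⟨le_sup_left, le_sup_right, by rw [sup_comm]; exact h1⟩)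
  exact hab (e1.symm.trans e2)

/-- a chain with three elements -/
lemma chain_b {b : P} (hb : b ⋖ ⊤) (hpb : ¬ p ≤ b) : (⊥ : Tw σ hP hp) < Gl.lo p ∧
    (Gl.lo p : Tw σ hP hp) < Gl.hi b hpb ∧ ∀ z : Tw σ hP hp, ⊥ ≤ z → z ≤ Gl.hi b hpb →
      z = ⊥ ∨ z = Gl.lo p ∨ z = Gl.hi b hpb := by
  have hbp : b ⊔ p = ⊤ := by
    rcases above_point hP hp (le_sup_right : p ≤ b ⊔ p) with h4 | h4 | h4
    · exfalso
      have h5 : b ≤ p := by rw [← h4]; exact le_sup_left
      have h6 := rk_mono hP hp h5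
      rw [rk_line hP hb, rk_point hp] at h6
      omega
    · exfalso
      have h5 := line_eq hP hb h4.2 le_sup_left
      exact hpb (by rw [h5]; exact le_sup_right)
    · exact h4
  refine ⟨?_, ?_, ?_⟩
  · exact lt_of_le_not_ge (show (⊥ : P) ≤ p from bot_le) (fun h => hp.lt.not_ge h)
  · refine lt_of_le_not_ge ?_ (fun h => h)
    show b ≤ pol σ p
    rw [pol_le σ le_rfl]; exact le_top
  · intro z _ hz
    rcases z with a | ⟨c, hc⟩
    · have h1 : b ≤ (polData σ hP hp).e a := hz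
      rw [(polData σ hP hp).gc] at h1
      have h2 : a ≤ pol σ⁻¹ b := h1
      rw [pol_top σ⁻¹ hP hp hbp] at h2
      rcases eq_or_lt_of_le h2 with h3 | h3
      · right; left; rw [h3]
      · left
        have h4 : a = ⊥ := by
          by_contra h5
          exact hp.2 (bot_lt_iff_ne_bot.2 h5) h3
        rw [h4]; rfl
    · have h1 : b ≤ c := hz
      right; right
      rcases eq_or_lt_of_le h1 with h3 | h3
      · subst h3; rfl
      · exfalso
        have h4 : c = ⊤ := by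
          by_contra h5
          exact hb.2 h3 (lt_top_iff_ne_top.2 h5)
        rw [h4] at hc
        exact hc le_top

/-- the proper intervals of two twisted gluings -/
theorem proper_match [Finite P] {X Y : Tw σ hP hp} (hXY : X ≤ Y) (hne : ¬ (X = ⊥ ∧ Y = ⊤)) :
    ∃ X' Y' : Tw τ hP hp, X' ≤ Y' ∧ ¬ (X' = ⊥ ∧ Y' = ⊤) ∧
      Nonempty (Set.Icc X Y ≃o Set.Icc X' Y') := by
  by_cases hY : Y ≤ Gl.lo ⊤
  · -- in the lower plane
    obtain ⟨x, hx⟩ : ∃ x, x = (twF σ hP hp).symm ⟨X, hXY.trans hY⟩ := ⟨_, rfl⟩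
    obtain ⟨y, hy⟩ : ∃ y, y = (twF σ hP hp).symm ⟨Y, hY⟩ := ⟨_, rfl⟩
    have hx' : (twF σ hP hp x : Tw σ hP hp) = X := by rw [hx, OrderIso.apply_symm_apply]
    have hy' : (twF σ hP hp y : Tw σ hP hp) = Y := by rw [hy, OrderIso.apply_symm_apply]
    have hxy : x ≤ y := by
      rw [← (twF σ hP hp).le_iff_le]
      show (twF σ hP hp x : Tw σ hP hp) ≤ twF σ hP hp y
      rw [hx', hy']; exact hXY
    refine ⟨twF τ hP hp x, twF τ hP hp y, (twF τ hP hp).monotone hxy, ?_, ?_⟩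
    · rintro ⟨-, h⟩
      have h1 : (⊤ : Tw τ hP hp) ≤ Gl.lo ⊤ := by rw [← h]; exact (twF τ hP hp y).2
      exact h1
    · have e1 := iccF (twF σ hP hp) x y
      rw [hx', hy'] at e1
      exact ⟨e1.symm.trans (iccF (twF τ hP hp) x y)⟩
  by_cases hX : Gl.lo p ≤ X
  · -- in the upper plane
    obtain ⟨x, hx⟩ : ∃ x, x = (twG σ hP hp).symm ⟨X, hX⟩ := ⟨_, rfl⟩
    obtain ⟨y, hy⟩ : ∃ y, y = (twG σ hP hp).symm ⟨Y, hX.trans hXY⟩ := ⟨_, rfl⟩
    have hx' : (twG σ hP hp x : Tw σ hP hp) = X := by rw [hx, OrderIso.apply_symm_apply]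
    have hy' : (twG σ hP hp y : Tw σ hP hp) = Y := by rw [hy, OrderIso.apply_symm_apply]
    have hxy : x ≤ y := by
      rw [← (twG σ hP hp).le_iff_le]
      show (twG σ hP hp x : Tw σ hP hp) ≤ twG σ hP hp y
      rw [hx', hy']; exact hXY
    refine ⟨twG τ hP hp x, twG τ hP hp y, (twG τ hP hp).monotone hxy, ?_, ?_⟩
    · rintro ⟨h, -⟩
      have h1 : (Gl.lo p : Tw τ hP hp) ≤ ⊥ := by rw [← h]; exact (twG τ hP hp x).2
      have h2 : p ≤ ⊥ := h1
      exact hp.lt.not_ge h2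
    · have e1 := iccG (twG σ hP hp) x y
      rw [hx', hy'] at e1
      exact ⟨e1.symm.trans (iccG (twG τ hP hp) x y)⟩
  -- the mixed case
  obtain ⟨l, hl, hpl⟩ := exists_off hP p hp
  obtain ⟨c1, c2, c3⟩ := chain_b τ hP hp hl hpl
  have hchain : ∀ m, X < m → m < Y → (∀ z, X ≤ z → z ≤ Y → z = X ∨ z = m ∨ z = Y) →
      ∃ X' Y' : Tw τ hP hp, X' ≤ Y' ∧ ¬ (X' = ⊥ ∧ Y' = ⊤) ∧
        Nonempty (Set.Icc X Y ≃o Set.Icc X' Y') := by
    intro m h1 h2 h3
    refine ⟨⊥, Gl.hi l hpl, bot_le, ?_, three_iso h1 h2 h3 c1 c2 c3⟩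
    rintro ⟨-, h⟩
    have h4 := congrArg (rkT τ hP hp) h
    have h5 : rkT τ hP hp (⊤ : Tw τ hP hp) = 4 := by
      show 4 - rk (⊥ : P) = 4
      rw [rk_bot]
    have h6 : rkT τ hP hp (Gl.hi l hpl) = 2 := by
      show 4 - rk l = 2
      rw [rk_line hP hl]
    omega
  rcases Y with y | ⟨b, hb⟩
  · exact absurd (le_top (a := y)) hY
  rcases X with a | ⟨x, hx⟩
  swap
  · exfalso
    apply hX
    show x ≤ pol σ p
    rw [pol_le σ le_rfl]; exact le_top
  have hpa : ¬ p ≤ a := hX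
  have hba : b ≤ pol σ a := hXY
  have hlt : b < pol σ a := lt_of_le_of_ne hba (fun h => hb (h ▸ p_le_pol σ hP hp a))
  have hrk := rk_lt hP hlt
  have hrk2 := rk_pol σ hP hp a
  rcases rk_cases hP a with ⟨h1, h2⟩ | ⟨h1, h2⟩ | ⟨h1, h2⟩ | ⟨h1, h2⟩
  · -- `X = ⊥`
    subst h1
    rcases rk_cases hP b with ⟨h3, h4⟩ | ⟨h3, h4⟩ | ⟨h3, h4⟩ | ⟨h3, h4⟩
    · exfalso
      subst h3
      exact hne ⟨rfl, rfl⟩
    · have hYt : (Gl.hi b hb : Tw σ hP hp) ⋖ ⊤ := by
        have h5 : (Gl.hi b hb : Tw σ hP hp) < ⊤ := by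
          rw [tw_top]
          exact lt_of_le_not_ge (show ⊥ ≤ b from bot_le) (fun h => h3.lt.not_ge h)
        refine ⟨h5, fun w h6 h7 => ?_⟩
        have h8 := rkT_lt σ hP hp h6
        have h9 := rkT_lt σ hP hp h7
        have h10 := rkT_le σ hP hp ⊤
        have h11 : rkT σ hP hp (Gl.hi b hb : Tw σ hP hp) = 3 := by
          show 4 - rk b = 3
          rw [h4]
        omega
      obtain ⟨Y', h5, h6⟩ := coatom_match σ τ hP hp hYt
      exact ⟨⊥, Y', bot_le, fun h => h5.lt.ne h.2, h6⟩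
    · obtain ⟨d1, d2, d3⟩ := chain_b σ hP hp h3 hb
      exact hchain _ d1 d2 d3
    · exfalso
      rw [h3] at hb; exact hb le_top
  · -- `a` a point
    have hne' : a ≠ p := fun h => hpa h.ge
    have hl1 := sup_points hP h1 hp hne'
    rw [rk_line hP hl1.2] at hrk2
    rcases rk_cases hP b with ⟨h3, h4⟩ | ⟨h3, h4⟩ | ⟨h3, h4⟩ | ⟨h3, h4⟩
    · subst h3
      have hXa : (⊥ : Tw σ hP hp) ⋖ Gl.lo a := by
        have h5 : (⊥ : Tw σ hP hp) < Gl.lo a :=
          lt_of_le_not_ge (show (⊥ : P) ≤ a from bot_le) (fun h => h1.lt.not_ge h)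
        refine ⟨h5, fun w h6 h7 => ?_⟩
        have h8 := rkT_lt σ hP hp h6
        have h9 := rkT_lt σ hP hp h7
        have h11 : rkT σ hP hp (Gl.lo a : Tw σ hP hp) = 1 := h2
        omega
      obtain ⟨X', h5, h6⟩ := atom_match σ τ hP hp hXa
      exact ⟨X', ⊤, le_top, fun h => h5.lt.ne' h.1, h6⟩
    · -- two points
      apply hchain (Gl.lo (a ⊔ p))
      · exact lt_of_le_not_ge (show a ≤ a ⊔ p from le_sup_left)
          (fun h => hpa (le_sup_right.trans h))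
      · refine lt_of_le_not_ge ?_ (fun h => h)
        show b ≤ pol σ (a ⊔ p)
        rw [show pol σ (a ⊔ p) = pol σ a from (polData σ hP hp).e_p a]
        exact hba
      · intro z hz1 hz2
        rcases z with a' | ⟨c, hc⟩
        · have haa : a ≤ a' := hz1
          have h5 : b ≤ (polData σ hP hp).e a' := hz2
          have h6 := h5
          rw [(polData σ hP hp).gc] at h5
          have h7 : a' ≤ pol σ⁻¹ b := h5
          -- `pol σ⁻¹ b` is a line
          have h8 := rk_pol σ⁻¹ hP hp b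
          have hbp : b ≠ p := fun h => hb h.ge
          rw [rk_line hP (sup_points hP h3 hp hbp).2] at h8
          have h9 : a ⊔ p ≤ pol σ⁻¹ b := sup_le (haa.trans h7) (p_le_pol σ⁻¹ hP hp b)
          have h10 : a ⊔ p = pol σ⁻¹ b := by
            by_contra h11
            have h12 := rk_lt hP (lt_of_le_of_ne h9 h11)
            rw [rk_line hP hl1.2] at h12
            omega
          rcases eq_or_lt_of_le haa with h11 | h11
          · left; rw [h11]
          · right; left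
            congr 1
            by_contra h12
            have h13 : a' < a ⊔ p := lt_of_le_of_ne (h7.trans h10.ge) h12
            exact hl1.1.2 h11 h13
        · right; right
          have h5 : b ≤ c := hz2
          have h6 : c ≤ pol σ a := hz1
          have h7 : c < pol σ a := lt_of_le_of_ne h6 (fun h => hc (h ▸ p_le_pol σ hP hp a))
          have h8 := rk_lt hP h7
          have h9 : b = c := by
            by_contra h10
            have h11 := rk_lt hP (lt_of_le_of_ne h5 h10)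
            omega
          subst h9; rfl
    · omega
    · omega
  · -- `a` a line
    have hap : a ⊔ p = ⊤ := by
      rcases above_point hP hp (le_sup_right : p ≤ a ⊔ p) with h4 | h4 | h4
      · exfalso
        have h5 : a ≤ p := by rw [← h4]; exact le_sup_left
        have h6 := rk_mono hP hp h5
        rw [h2, rk_point hp] at h6
        omega
      · exfalso
        have h5 := line_eq hP h1 h4.2 le_sup_left
        exact hpa (by rw [h5]; exact le_sup_right)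
      · exact h4
    rw [hap, rk_top hP] at hrk2
    rcases rk_cases hP b with ⟨h3, h4⟩ | ⟨h3, h4⟩ | ⟨h3, h4⟩ | ⟨h3, h4⟩
    · subst h3
      apply hchain (Gl.lo ⊤)
      · exact lt_of_le_not_ge (show a ≤ ⊤ from le_top) (fun h => h1.lt.not_ge h)
      · exact lt_of_le_not_ge (show ⊥ ≤ pol σ ⊤ from bot_le) (fun h => h)
      · intro z hz1 hz2
        rcases z with a' | ⟨c, hc⟩
        · have haa : a ≤ a' := hz1
          rcases eq_or_lt_of_le haa with h11 | h11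
          · left; rw [h11]
          · right; left
            congr 1
            by_contra h12
            exact h1.2 h11 (lt_top_iff_ne_top.2 h12)
        · right; right
          have h6 : c ≤ pol σ a := hz1
          rw [pol_top σ hP hp hap] at h6
          have h7 : c < p := lt_of_le_of_ne h6 (fun h => hc h.ge)
          have h8 : c = ⊥ := by
            by_contra h9
            exact hp.2 (bot_lt_iff_ne_bot.2 h9) h7
          subst h8; rfl
    · omega
    · omega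
    · omega
  · exfalso
    rw [h1] at hpa; exact hpa le_top

/-- the planes in a twisted gluing -/
theorem tw_planes [Finite P] (hsd : SD' (Tw σ hP hp)) {X Y : Tw σ hP hp} (h : IsPlane X Y) :
    Nonempty (Set.Icc X Y ≃o P) := by
  have hbelow : ∀ (ρ : Equiv.Perm {l : P // p ⋖ l}) (Y : Tw ρ hP hp), IsPlane ⊥ Y → Y ≠ ⊤ →
      Nonempty (Set.Icc ⊥ Y ≃o P) := by
    intro ρ Y hY hYt
    obtain ⟨d⟩ := (isTwist_tw ρ hP hp).data
    obtain ⟨a, b, h1, h2, h3⟩ := plane_chain hY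
    have hle : Y ≤ Gl.lo ⊤ := by
      apply le_of_atoms hY
      intro x hx
      have hcov : ∀ z : Tw ρ hP hp, z ≤ Gl.lo ⊤ ∨ Gl.lo p ≤ z := by
        rintro (z | ⟨z, hz⟩)
        · exact Or.inl (le_top (a := z))
        · right
          show z ≤ pol ρ p
          rw [pol_le ρ le_rfl]; exact le_top
      exact (twist_lub hP hp (twF ρ hP hp) hcov rfl).1 x hx
    have hge : Y = Gl.lo ⊤ := by
      by_contra h4
      have h5 := rkT_lt ρ hP hp (lt_of_le_of_ne hle h4)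
      have h6 := rkT_lt ρ hP hp h1
      have h7 := rkT_lt ρ hP hp h2
      have h8 := rkT_lt ρ hP hp h3
      have h9 : rkT ρ hP hp (Gl.lo ⊤ : Tw ρ hP hp) = 3 := rk_top hP
      omega
    rw [hge]
    obtain ⟨w⟩ := whole_icc (L := P)
    exact ⟨(twLow ρ hP hp).symm.trans w.symm⟩
  obtain ⟨a, b, h1, h2, h3⟩ := plane_chain h
  have h6 := rkT_lt σ hP hp h1
  have h7 := rkT_lt σ hP hp h2
  have h8 := rkT_lt σ hP hp h3
  have h9 := rkT_le σ hP hp Y
  by_cases hX : X = ⊥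
  · subst hX
    apply hbelow σ Y h
    rintro rfl
    have h10 : krullDim (Tw σ hP hp) ≤ 3 := krull_le 3 rk (fun a b h' => rk_lt h h') rk_le
    rw [tw_krull] at h10
    exact absurd h10 (by decide)
  · have h10 := rkT_lt σ hP hp (bot_lt_iff_ne_bot.2 hX)
    have hY : Y = ⊤ := by
      by_contra hY
      have h11 := rkT_lt σ hP hp (lt_top_iff_ne_top.2 hY)
      have h12 := rkT_le σ hP hp ⊤
      omega
    subst hY
    obtain ⟨Ψ⟩ := tw_dual σ hP hp
    obtain ⟨e⟩ := hsd X ⊤ le_top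
    have e2 := iccDual Ψ X ⊤
    rw [Ψ.map_top] at e2
    have e3 := e.trans e2.dual
    obtain ⟨e4⟩ := hbelow σ⁻¹ (ofDual (Ψ X)) (isPlane_congr le_top e3 h) (by
      intro h11
      apply hX
      have h12 : Ψ X = Ψ ⊥ := by
        rw [Ψ.map_bot]; exact h11
      exact Ψ.injective h12)
    exact ⟨e3.trans e4⟩

end

end Pool.Agent.Helper87.ML2
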