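import Pool.Agent.Helper87.ML2.Pol
import Pool.Agent.Helper87.ML2.Gen

set_option autoImplicit false

/-! Rank and self-dual intervals in the twisted gluings. -/

namespace Pool.Agent.Helper87.ML2

open Pool.Agent.Helper87.ML OrderDual Order

universe u v w

lemma krull_le {α : Type*} [Preorder α] (n : ℕ) (f : α → ℕ) (hf : StrictMono f)
    (hn : ∀ x, f x ≤ n) : krullDim α ≤ n := by
  unfold krullDim
  apply iSup_le
  intro p
  have key : ∀ i : ℕ, ∀ hi : i < p.length + 1, i ≤ f (p ⟨i, hi⟩) := by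
    intro i
    induction i with
    | zero => intro _; exact Nat.zero_le _
    | succ i ih =>
      intro hi
      have h1 := ih (by omega)
      have h2 : f (p ⟨i, by omega⟩) < f (p ⟨i + 1, hi⟩) := by
        apply hf
        apply LTSeries.strictMono
        simp
      omega
  have h1 := (key p.length (by omega)).trans (hn _)
  exact_mod_cast h1

lemma krull_ge4 {α : Type*} [Preorder α] {a b c d e : α} (h1 : a < b) (h2 : b < c) (h3 : c < d)
    (h4 : d < e) : 4 ≤ krullDim α := by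
  have h := LTSeries.length_le_krullDim (α := α) ⟨4, ![a, b, c, d, e], by
    intro i; fin_cases i <;> simpa⟩
  exact_mod_cast h

lemma krull_ge5 {α : Type*} [Preorder α] {a b c d e f : α} (h1 : a < b) (h2 : b < c) (h3 : c < d)
    (h4 : d < e) (h5 : e < f) : 5 ≤ krullDim α := by
  have h := LTSeries.length_le_krullDim (α := α) ⟨5, ![a, b, c, d, e, f], by
    intro i; fin_cases i <;> simpa⟩
  exact_mod_cast h

section

variable {P : Type u} [Lattice P] [BoundedOrder P] {p : P} (σ : Equiv.Perm {l : P // p ⋖ l})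
  (hP : IsPlane (⊥ : P) ⊤) (hp : ⊥ ⋖ p)

include hP hp

lemma rk_pol (a : P) : rk (pol σ a) + rk (a ⊔ p) = 4 := by
  rcases pol_cases σ hP hp a with ⟨h1, h2⟩ | ⟨l, hl, h1, h2⟩ | ⟨h1, h2⟩
  · rw [h2, sup_eq_right.2 h1, rk_top hP, rk_point hp]
  · rw [h2, h1, rk_line hP (cov_point hP hp hl), rk_line hP (cov_point hP hp (σ ⟨l, hl⟩).2)]
  · rw [h2, h1, rk_top hP, rk_point hp]

lemma rk_mono {a b : P} (h : a ≤ b) : rk a ≤ rk b := by
  rcases eq_or_lt_of_le h with h | h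
  · rw [h]
  · exact (rk_lt hP h).le

omit hP hp in
/-- the rank -/
noncomputable def rkT : Tw σ hP hp → ℕ
  | Gl.lo a => rk a
  | Gl.hi b _ => 4 - rk b

lemma rkT_lt : StrictMono (rkT σ hP hp) := by
  intro x y hxy
  rcases x with a | ⟨b, hb⟩ <;> rcases y with a' | ⟨b', hb'⟩
  · show rk a < rk a'
    apply rk_lt hP
    exact lt_of_le_not_ge hxy.le (fun h => hxy.not_ge h)
  · show rk a < 4 - rk b'
    have h1 : b' ≤ pol σ a := hxy.le
    have h2 : b' < pol σ a := lt_of_le_of_ne h1 (fun h => hb' (h ▸ p_le_pol σ hP hp a))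
    have h3 := rk_lt hP h2
    have h4 := rk_pol σ hP hp a
    have h5 := rk_mono hP hp (le_sup_left : a ≤ a ⊔ p)
    omega
  · exact False.elim hxy.le
  · show 4 - rk b < 4 - rk b'
    have h1 : b' < b := lt_of_le_not_ge hxy.le (fun h => hxy.not_ge h)
    have h2 := rk_lt hP h1
    have h3 := rk_le b
    omega

lemma rkT_le (x : Tw σ hP hp) : rkT σ hP hp x ≤ 4 := by
  rcases x with a | ⟨b, hb⟩
  · have := rk_le a
    show rk a ≤ 4
    omega
  · show 4 - rk b ≤ 4
    omega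

lemma exists_line_point : ∃ l, p ⋖ l := by
  obtain ⟨-, -, -, -, a, b, c, ⟨ha, hb, hc⟩, -, ⟨hab, -, -⟩, -⟩ := id hP
  by_cases h : p = a
  · have h1 : p ≠ b := fun h1 => hab (h.symm.trans h1)
    exact ⟨_, (sup_points hP hp hb h1).1⟩
  · exact ⟨_, (sup_points hP hp ha h).1⟩

lemma tw_krull : krullDim (Tw σ hP hp) = 4 := by
  apply le_antisymm
  · exact krull_le 4 _ (rkT_lt σ hP hp) (rkT_le σ hP hp)
  · obtain ⟨l, hl⟩ := exists_line_point hP hp
    have hlt := (cov_point hP hp hl).lt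
    refine krull_ge4 (a := (Gl.lo ⊥ : Tw σ hP hp)) (b := Gl.lo p) (c := Gl.lo l) (d := Gl.lo ⊤)
      (e := Gl.hi ⊥ (not_p_le_bot hp)) ?_ ?_ ?_ ?_
    · exact lt_of_le_not_ge (show (⊥ : P) ≤ p from bot_le) (fun h => hp.lt.not_ge h)
    · exact lt_of_le_not_ge (show p ≤ l from hl.le) (fun h => hl.lt.not_ge h)
    · exact lt_of_le_not_ge (show l ≤ ⊤ from le_top) (fun h => hlt.not_ge h)
    · exact lt_of_le_not_ge (show ⊥ ≤ pol σ ⊤ from bot_le) (fun h => h)

lemma tw_not_compl : ¬ ComplementedLattice (Tw σ hP hp) := by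
  rintro ⟨h⟩
  obtain ⟨y, hy⟩ := h (Gl.lo p)
  have h1 := hy.sup_eq_top
  have h2 := hy.inf_eq_bot
  rcases y with a | ⟨b, hb⟩
  · rw [Gl.lo_sup_lo, tw_top] at h1
    exact absurd h1 (by simp)
  · rw [Gl.lo_inf_hi, tw_bot] at h2
    have h3 : p ⊓ (polData σ hP hp).e' b = ⊥ := by simpa using h2
    rw [inf_eq_left.2 ((polData σ hP hp).p_le b)] at h3
    exact hp.lt.ne' h3

omit hP hp in
/-- the lower plane -/
noncomputable def twLow : Set.Icc (⊥ : P) ⊤ ≃o Set.Icc (Gl.lo ⊥ : Tw σ hP hp) (Gl.lo ⊤) where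
  toFun a := ⟨Gl.lo a, bot_le (a := (a : P)), le_top (a := (a : P))⟩
  invFun x := match x with
    | ⟨Gl.lo a, _⟩ => ⟨a, bot_le, le_top⟩
    | ⟨Gl.hi _ _, h⟩ => False.elim h.2
  left_inv a := rfl
  right_inv x := by
    rcases x with ⟨a | ⟨b, hb⟩, hx⟩
    · rfl
    · exact False.elim hx.2
  map_rel_iff' := by intro a b; exact Iff.rfl

lemma tw_plane : IsPlane (Gl.lo ⊥ : Tw σ hP hp) (Gl.lo ⊤) :=
  isPlane_congr (bot_le (a := ⊤)) (twLow σ hP hp) hP

lemma tw_not_pf : ¬ PlaneFree (Tw σ hP hp) :=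
  fun h => h _ _ (show (⊥ : P) ≤ ⊤ from bot_le) (tw_plane σ hP hp)

end

end Pool.Agent.Helper87.ML2
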