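import Pool.Agent.Helper87.ML2.Twist

set_option autoImplicit false

/-! The intervals of the twisted gluings are self-dual. -/

namespace Pool.Agent.Helper87.ML2

open Pool.Agent.Helper87.ML OrderDual Order

universe u v w

section

variable {P : Type u} [Lattice P] [BoundedOrder P] {p : P} (σ : Equiv.Perm {l : P // p ⋖ l})
  (hP : IsPlane (⊥ : P) ⊤) (hp : ⊥ ⋖ p)

include hP in
lemma line_eq {l m : P} (hl : l ⋖ ⊤) (hm : m ⋖ ⊤) (h : l ≤ m) : l = m := by
  by_contra hne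
  have h1 := rk_lt hP (lt_of_le_of_ne h hne)
  rw [rk_line hP hl, rk_line hP hm] at h1
  omega

lemma point_eq {a b : P} (ha : ⊥ ⋖ a) (hb : ⊥ ⋖ b) (h : a ≤ b) : a = b := by
  rcases eq_or_lt_of_le h with h1 | h1
  · exact h1
  · exact absurd h1 (hb.2 ha.lt)

include hP hp in
lemma rkT_twG (c : P) (hc : p ≤ c ∨ ¬ p ≤ c) :
    rkT σ hP hp (twG σ hP hp (toDual c) : Tw σ hP hp) = 4 - rk c := by
  rcases hc with h | h
  · rw [twG_pos σ hP hp h]
    show rk (pol σ⁻¹ c) = 4 - rk c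
    have h1 := rk_pol σ⁻¹ hP hp c
    rw [sup_eq_left.2 h] at h1
    omega
  · rw [twG_neg σ hP hp h]
    rfl

/-- the ideals below coatoms off the lower plane -/
lemma sd_below [Finite P] {b : P} (hb : ⊥ ⋖ b) (hpb : ¬ p ≤ b) :
    Nonempty (Set.Icc (⊥ : Tw σ hP hp) (Gl.hi b hpb) ≃o
      (Set.Icc (⊥ : Tw σ hP hp) (Gl.hi b hpb))ᵒᵈ) := by
  classical
  have hne : p ≠ b := fun h => hpb h.le
  have hl0 := sup_points hP hp hb hne
  rw [sup_comm] at hl0
  obtain ⟨m, hm⟩ : ∃ m, m = (σ⁻¹ ⟨b ⊔ p, hl0.1⟩ : P) := ⟨_, rfl⟩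
  have hpm : p ⋖ m := by rw [hm]; exact (σ⁻¹ ⟨b ⊔ p, hl0.1⟩).2
  have hmt : m ⋖ ⊤ := cov_point hP hp hpm
  have e1 : pol σ⁻¹ b = m := by rw [pol_line σ⁻¹ hl0.1 rfl, hm]
  have e2 : pol σ⁻¹ (b ⊔ p) = m := by
    rw [pol_line σ⁻¹ hl0.1 (by rw [sup_assoc, sup_idem]), hm]
  have hF : LF P := fun x y => Set.toFinite _
  have hcard := plane_pencil hF hP hb le_top bot_le hmt
  have hcard' : Nat.card {a : P // ⊥ ⋖ a ∧ a ≤ m} = Nat.card {c : P // b ≤ c ∧ c ⋖ ⊤} := hcard.symm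
  obtain ⟨e0⟩ : Nonempty ({a : P // ⊥ ⋖ a ∧ a ≤ m} ≃ {c : P // b ≤ c ∧ c ⋖ ⊤}) :=
    Finite.card_eq.1 hcard'
  obtain ⟨κ, hκ⟩ : ∃ κ : {a : P // ⊥ ⋖ a ∧ a ≤ m} ≃ {c : P // b ≤ c ∧ c ⋖ ⊤},
      κ ⟨p, hp, hpm.le⟩ = ⟨b ⊔ p, le_sup_left, hl0.2⟩ :=
    ⟨e0.trans (Equiv.swap (e0 ⟨p, hp, hpm.le⟩) ⟨b ⊔ p, le_sup_left, hl0.2⟩), by simp⟩
  have hκp : ∀ a, p ≤ (κ a : P) → (a : P) = p := by
    intro a ha
    have h1 : b ⊔ p = (κ a : P) := line_eq hP hl0.2 (κ a).2.2 (sup_le (κ a).2.1 ha)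
    have h2 : κ a = κ ⟨p, hp, hpm.le⟩ := by rw [hκ]; exact Subtype.ext h1.symm
    rw [κ.injective h2]
  have hκn : ∀ a : {a : P // ⊥ ⋖ a ∧ a ≤ m}, (a : P) ≠ p → ¬ p ≤ (κ a : P) :=
    fun a ha h => ha (hκp a h)
  have hgb : (twG σ hP hp (toDual b) : Tw σ hP hp) = Gl.hi b hpb := twG_neg σ hP hp hpb
  -- the two levels
  obtain ⟨i, hi⟩ : ∃ i : {a : P // ⊥ ⋖ a ∧ a ≤ m} → Set.Icc (⊥ : Tw σ hP hp) (Gl.hi b hpb),
      ∀ a, (i a : Tw σ hP hp) = Gl.lo (a : P) :=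
    ⟨fun a => ⟨Gl.lo (a : P), bot_le, by
      show b ≤ (polData σ hP hp).e a
      rw [(polData σ hP hp).gc]
      show (a : P) ≤ pol σ⁻¹ b
      rw [e1]; exact a.2.2⟩, fun a => rfl⟩
  obtain ⟨j, hj⟩ : ∃ j : {a : P // ⊥ ⋖ a ∧ a ≤ m} → Set.Icc (⊥ : Tw σ hP hp) (Gl.hi b hpb),
      ∀ a, (j a : Tw σ hP hp) = twG σ hP hp (toDual (κ a : P)) :=
    ⟨fun a => ⟨twG σ hP hp (toDual (κ a : P)), bot_le, by
      rw [← hgb]
      exact (twG σ hP hp).monotone (show toDual (κ a : P) ≤ toDual b from (κ a).2.1)⟩,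
      fun a => rfl⟩
  have hri : ∀ a, rkT σ hP hp (i a) = 1 := by
    intro a; rw [hi]; exact rk_point a.2.1
  have hrj : ∀ a, rkT σ hP hp (j a) = 2 := by
    intro a; rw [hj, rkT_twG σ hP hp _ (em _), rk_line hP (κ a).2.2]
  have hro : rkT σ hP hp (⊥ : Tw σ hP hp) = 0 := rk_bot
  have hrt : rkT σ hP hp (Gl.hi b hpb) = 3 := by
    show 4 - rk b = 3
    rw [rk_point hb]
  have hlt := rkT_lt σ hP hp
  have hrk : ∀ z w : Set.Icc (⊥ : Tw σ hP hp) (Gl.hi b hpb), z ≤ w →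
      rkT σ hP hp w ≤ rkT σ hP hp z → z = w := by
    intro z w hzw hr
    by_contra h1
    have h2 : (z : Tw σ hP hp) < w := lt_of_le_of_ne hzw (fun h => h1 (Subtype.ext h))
    have := hlt h2
    omega
  have hinj : ∀ z w : Set.Icc (⊥ : Tw σ hP hp) (Gl.hi b hpb), z = w →
      rkT σ hP hp z = rkT σ hP hp w := by
    rintro z w rfl; rfl
  refine sd_four (o := ⟨⊥, le_rfl, bot_le⟩) (t := ⟨Gl.hi b hpb, bot_le, le_rfl⟩) ?_ ?_ ?_ i j
    ?_ ?_ ?_ ?_ ?_ ?_ ?_ ?_ ?_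
  · intro h
    have := hinj _ _ h
    rw [show rkT σ hP hp (⟨⊥, _⟩ : Set.Icc (⊥ : Tw σ hP hp) (Gl.hi b hpb)) = 0 from hro,
      show rkT σ hP hp (⟨Gl.hi b hpb, _⟩ : Set.Icc (⊥ : Tw σ hP hp) (Gl.hi b hpb)) = 3 from hrt]
      at this
    omega
  · intro z; exact z.2.1
  · intro z; exact z.2.2
  · -- every element is on one of the four levels
    rintro ⟨z, hz1, hz2⟩
    rcases z with a | ⟨c, hc⟩
    · have ham : a ≤ m := by
        have h1 : b ≤ (polData σ hP hp).e a := hz2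
        rw [(polData σ hP hp).gc] at h1
        rw [← e1]; exact h1
      rcases hP.1 a bot_le le_top with h1 | h1 | h1 | h1
      · left
        apply Subtype.ext
        show (Gl.lo a : Tw σ hP hp) = Gl.lo ⊥
        rw [h1]
      · right; left
        refine ⟨⟨a, h1, ham⟩, Subtype.ext ?_⟩
        rw [hi]
      · right; right; left
        have h2 : a = m := line_eq hP h1 hmt ham
        refine ⟨⟨p, hp, hpm.le⟩, Subtype.ext ?_⟩
        rw [hj, hκ, twG_pos σ hP hp le_sup_right, e2]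
        show (Gl.lo a : Tw σ hP hp) = Gl.lo m
        rw [h2]
      · exfalso
        rw [h1] at ham
        exact hmt.lt.not_ge ham
    · have hbc : b ≤ c := hz2
      rcases above_point hP hb hbc with h1 | h1 | h1
      · right; right; right
        subst h1; rfl
      · right; right; left
        refine ⟨κ.symm ⟨c, hbc, h1.2⟩, Subtype.ext ?_⟩
        rw [hj, κ.apply_symm_apply, twG_neg σ hP hp hc]
      · exfalso
        rw [h1] at hc; exact hc le_top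
  · intro a h
    have h1 := hinj _ _ h
    rw [hri, show rkT σ hP hp (⟨⊥, _⟩ : Set.Icc (⊥ : Tw σ hP hp) (Gl.hi b hpb)) = 0 from hro] at h1
    omega
  · intro a h
    have h1 := hinj _ _ h
    rw [hri, show rkT σ hP hp (⟨Gl.hi b hpb, _⟩ : Set.Icc (⊥ : Tw σ hP hp) (Gl.hi b hpb)) = 3
      from hrt] at h1
    omega
  · intro a h
    have h1 := hinj _ _ h
    rw [hrj, show rkT σ hP hp (⟨⊥, _⟩ : Set.Icc (⊥ : Tw σ hP hp) (Gl.hi b hpb)) = 0 from hro] at h1
    omega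
  · intro a h
    have h1 := hinj _ _ h
    rw [hrj, show rkT σ hP hp (⟨Gl.hi b hpb, _⟩ : Set.Icc (⊥ : Tw σ hP hp) (Gl.hi b hpb)) = 3
      from hrt] at h1
    omega
  · intro a c h
    have h1 := hrk _ _ h (by rw [hri, hri])
    have h2 : (Gl.lo (a : P) : Tw σ hP hp) = Gl.lo (c : P) := by rw [← hi, ← hi, h1]
    exact Subtype.ext (by injection h2)
  · intro a c h
    have h1 := hrk _ _ h (by rw [hrj, hrj])
    have h2 : (twG σ hP hp (toDual (κ a : P)) : Tw σ hP hp) = twG σ hP hp (toDual (κ c : P)) := by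
      rw [← hj, ← hj, h1]
    have h3 : toDual (κ a : P) = toDual (κ c : P) := (twG σ hP hp).injective (Subtype.ext h2)
    exact κ.injective (Subtype.ext h3)
  · intro a c h
    have h1 : (j a : Tw σ hP hp) ≤ i c := h
    rcases eq_or_lt_of_le h1 with h2 | h2
    · have h3 := congrArg (rkT σ hP hp) h2
      rw [hrj, hri] at h3
      omega
    · have h3 := hlt h2
      rw [hrj, hri] at h3
      omega
  · intro a c h
    show (i c : Tw σ hP hp) ≤ j a
    by_cases hcp : (c : P) = p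
    · rw [hi, hcp, hj]
      exact (twG σ hP hp (toDual (κ a : P))).2
    · have h1 : (Gl.lo (a : P) : Tw σ hP hp) ≤ Gl.hi (κ c : P) (hκn c hcp) := by
        rw [← twG_neg σ hP hp (hκn c hcp), ← hi, ← hj]; exact h
      have h2 : (κ c : P) ≤ (polData σ hP hp).e a := h1
      rw [(polData σ hP hp).gc] at h2
      have h3 : (κ c : P) ⊔ p = ⊤ := by
        rcases above_point hP hp (le_sup_right : p ≤ (κ c : P) ⊔ p) with h4 | h4 | h4
        · exfalso
          have h5 : (κ c : P) ≤ p := by rw [← h4]; exact le_sup_left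
          have h6 := rk_mono hP hp h5
          rw [rk_line hP (κ c).2.2, rk_point hp] at h6
          omega
        · exfalso
          have h5 := line_eq hP (κ c).2.2 h4.2 le_sup_left
          exact hκn c hcp (by rw [h5]; exact le_sup_right)
        · exact h4
      have h4 : (a : P) ≤ p := by
        have h5 : pol σ⁻¹ (κ c : P) = p := pol_top σ⁻¹ hP hp h3
        rw [← h5]; exact h2
      have h5 : a = ⟨p, hp, hpm.le⟩ := Subtype.ext (point_eq a.2.1 hp h4)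
      rw [hj, h5, hκ, twG_pos σ hP hp le_sup_right, e2, hi]
      exact c.2.2

/-- the ideals below coatoms -/
lemma sd_coatom [Finite P] (δ : P ≃o Pᵒᵈ) {Y : Tw σ hP hp} (hY : Y ⋖ ⊤) :
    Nonempty (Set.Icc (⊥ : Tw σ hP hp) Y ≃o (Set.Icc (⊥ : Tw σ hP hp) Y)ᵒᵈ) := by
  rcases Y with a | ⟨b, hb⟩
  · have h1 : (Gl.lo a : Tw σ hP hp) = Gl.lo ⊤ := by
      by_contra h1
      have h2 : (Gl.lo a : Tw σ hP hp) < Gl.lo ⊤ := lt_of_le_of_ne (le_top (a := a)) h1
      have h3 : (Gl.lo ⊤ : Tw σ hP hp) < ⊤ := by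
        rw [tw_top]
        exact lt_of_le_not_ge (show ⊥ ≤ pol σ ⊤ from bot_le) (fun h => h)
      exact hY.2 h2 h3
    rw [h1]
    refine sd_trans (twLow σ hP hp).symm ?_
    have h2 := iccDual δ ⊥ ⊤
    rw [δ.map_bot, δ.map_top] at h2
    exact ⟨h2⟩
  · have hbp : ⊥ ⋖ b := by
      rcases hP.1 b bot_le le_top with h1 | h1 | h1 | h1
      · exfalso
        subst h1
        exact hY.lt.ne rfl
      · exact h1
      · exfalso
        obtain ⟨-, -, -, h4, -⟩ := id hP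
        obtain ⟨c, -, -, ⟨hc, -, -⟩, ⟨hcb, -, -⟩, -⟩ := h4 b bot_le h1
        have h2 : ¬ p ≤ c := fun h => hb (h.trans hcb)
        have hlt : c < b := by
          apply lt_of_le_of_ne hcb
          intro h; rw [h] at hc
          exact point_not_coatom hP hc h1
        have h3 : (Gl.hi b hb : Tw σ hP hp) < Gl.hi c h2 :=
          lt_of_le_not_ge (show c ≤ b from hcb) (fun h => hlt.not_ge h)
        have h4 : (Gl.hi c h2 : Tw σ hP hp) < ⊤ := by
          rw [tw_top]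
          exact lt_of_le_not_ge (show ⊥ ≤ c from bot_le) (fun h => hc.lt.not_ge h)
        exact hY.2 h3 h4
      · exact absurd le_top (h1 ▸ hb)
    exact sd_below σ hP hp hbp hb

/-- all intervals are self-dual -/
theorem sd_tw [Finite P] (δ : P ≃o Pᵒᵈ) (Δ : Tw σ hP hp ≃o (Tw σ hP hp)ᵒᵈ) : SD' (Tw σ hP hp) := by
  intro X Y hXY
  have hlt := rkT_lt σ hP hp
  by_cases hr : rkT σ hP hp Y ≤ rkT σ hP hp X + 2
  · apply sd_short _ hXY
    intro z w hXz hzw hwY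
    have h1 := hlt hXz
    have h2 := hlt hwY
    by_contra h3
    have h4 := hlt (lt_of_le_of_ne hzw h3)
    omega
  push Not at hr
  have h4 := rkT_le σ hP hp Y
  by_cases hX : X = ⊥
  · subst hX
    by_cases hY : Y = ⊤
    · subst hY
      have h2 := iccDual Δ ⊥ ⊤
      rw [Δ.map_bot, Δ.map_top] at h2
      exact ⟨h2⟩
    · apply sd_coatom σ hP hp δ
      have h0 : rkT σ hP hp (⊥ : Tw σ hP hp) = 0 := rk_bot
      have h5 : Y < ⊤ := lt_top_iff_ne_top.2 hY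
      refine ⟨h5, fun w h6 h7 => ?_⟩
      have h8 := hlt h6
      have h9 := hlt h7
      have h10 := rkT_le σ hP hp ⊤
      omega
  · have h5 : ⊥ < X := bot_lt_iff_ne_bot.2 hX
    have h6 := hlt h5
    have hY : Y = ⊤ := by
      by_contra hY
      have h7 := hlt (lt_top_iff_ne_top.2 hY)
      have h8 := rkT_le σ hP hp ⊤
      omega
    subst hY
    have hXa : ⊥ ⋖ X := by
      refine ⟨h5, fun w h7 h8 => ?_⟩
      have h9 := hlt h7
      have h10 := hlt h8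
      omega
    -- the dual
    have hdual : Nonempty (Tw σ hP hp ≃o (Tw σ⁻¹ hP hp)ᵒᵈ) := by
      apply twist_iso_of hP hp (isTwist_tw σ hP hp) (isTwist_tw σ⁻¹ hP hp).dual (OrderIso.refl P)
        (OrderIso.refl P) rfl rfl
      rintro l l' hll
      have h7 : l' = l := Subtype.ext hll
      rw [inv_inv, h7]
      rfl
    obtain ⟨Ψ⟩ := hdual
    refine sd_trans (iccDual Ψ X ⊤) (sd_dual ?_)
    rw [Ψ.map_top]
    apply sd_coatom σ⁻¹ hP hp δ
    have h7 : Ψ ⊥ ⋖ Ψ X := (apply_covBy_apply_iff Ψ).2 hXa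
    rw [Ψ.map_bot] at h7
    exact h7.ofDual

end

end Pool.Agent.Helper87.ML2
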