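import Pool.Agent.Helper87.ML2.SDTw

set_option autoImplicit false

/-! Non-complemented modular lattices of length four with a plane are twisted gluings. -/

namespace Pool.Agent.Helper87.ML2

open Pool.Agent.Helper87.ML OrderDual Order

universe u v w

lemma compl_of_atoms {L : Type u} [Lattice L] [BoundedOrder L] [Finite L] [IsModularLattice L]
    (h : ∀ u : L, (∀ a, ⊥ ⋖ a → a ≤ u) → u = ⊤) : ComplementedLattice L := by
  have := Fintype.ofFinite L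
  let i1 : CompleteLattice L := Fintype.toCompleteLattice L
  have i2 : IsModularLattice L := ‹IsModularLattice L›
  have i3 : IsCompactlyGenerated L := CompleteLattice.isCompactlyGenerated_of_wellFoundedGT
  apply complementedLattice_of_sSup_atoms_eq_top
  apply h
  intro a ha
  exact le_sSup (bot_covBy_iff.1 ha)

lemma eq_sup_cov {L : Type u} [Lattice L] [BoundedOrder L] {s x : L} (hst : s ⋖ ⊤)
    (h : ¬ x ≤ s) : s ⊔ x = ⊤ := by
  rcases eq_or_lt_of_le (le_top : s ⊔ x ≤ ⊤) with h1 | h1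
  · exact h1
  · exact absurd h1 (hst.2 (left_lt_sup.2 h))

lemma inf_cov {L : Type u} [Lattice L] [BoundedOrder L] [IsModularLattice L] {s x : L}
    (hst : s ⋖ ⊤) (h : ¬ x ≤ s) : s ⊓ x ⋖ x := by
  apply inf_covBy_of_covBy_sup_left
  rw [eq_sup_cov hst h]; exact hst

lemma iic_icc {L : Type u} [Lattice L] [BoundedOrder L] (s : L) :
    Nonempty (Set.Icc (⊥ : L) s ≃o Set.Icc (⊥ : Set.Iic s) ⊤) :=
  ⟨{ toFun := fun x => ⟨⟨x, x.2.2⟩, bot_le, le_top⟩
     invFun := fun x => ⟨(x : Set.Iic s), bot_le, (x : Set.Iic s).2⟩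
     left_inv := fun x => rfl
     right_inv := fun x => rfl
     map_rel_iff' := by intro a b; exact Iff.rfl }⟩

lemma iic_icc' {L : Type u} [Lattice L] [BoundedOrder L] (s : L) :
    Nonempty (Set.Iic s ≃o Set.Icc (⊥ : L) s) :=
  ⟨{ toFun := fun x => ⟨x, bot_le, x.2⟩
     invFun := fun x => ⟨x, x.2.2⟩
     left_inv := fun x => rfl
     right_inv := fun x => rfl
     map_rel_iff' := by intro a b; exact Iff.rfl }⟩

lemma whole_icc {L : Type u} [Lattice L] [BoundedOrder L] :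
    Nonempty (L ≃o Set.Icc (⊥ : L) ⊤) :=
  ⟨{ toFun := fun x => ⟨x, bot_le, le_top⟩
     invFun := fun x => x
     left_inv := fun x => rfl
     right_inv := fun x => rfl
     map_rel_iff' := by intro a b; exact Iff.rfl }⟩

lemma plane_chain {L : Type u} [Lattice L] {x y : L} (h : IsPlane x y) :
    ∃ a b, x < a ∧ a < b ∧ b < y := by
  obtain ⟨-, h2, -, h4, p, q, r, ⟨hp, hq, hr⟩, ⟨hpy, hqy, hry⟩, ⟨hpq, -, -⟩, -⟩ := h
  obtain ⟨l, ⟨⟨h5, h6⟩, h7, h8⟩, -⟩ := h2 p q hp hpy hq hqy hpq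
  refine ⟨p, l, hp.lt, ?_, h6.lt⟩
  apply lt_of_le_of_ne h7
  intro h9
  subst h9
  rcases eq_or_lt_of_le h8 with h10 | h10
  · exact hpq h10.symm
  · exact hp.2 hq.lt h10

section

variable {L : Type u} [Lattice L] [BoundedOrder L]

/-- the plane at the bottom -/
lemma exists_bottom_plane (hsd : SD' L) (hk : krullDim L = 4) (hpf : ¬ PlaneFree L)
    (Δ : L ≃o Lᵒᵈ) : ∃ s : L, IsPlane ⊥ s ∧ s ⋖ ⊤ := by
  have h5 : ¬ (5 : WithBot ℕ∞) ≤ krullDim L := by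
    rw [hk]; decide
  have hco : ∀ s : L, IsPlane ⊥ s → s ≠ ⊤ → s ⋖ ⊤ := by
    intro s hs hst
    obtain ⟨a, b, h1, h2, h3⟩ := plane_chain hs
    refine ⟨lt_top_iff_ne_top.2 hst, fun w h6 h7 => h5 (krull_ge5 h1 h2 h3 h6 h7)⟩
  unfold PlaneFree at hpf
  push Not at hpf
  obtain ⟨x, y, hxy, hpl⟩ := hpf
  by_cases hx : x = ⊥
  · subst hx
    have hy : y ≠ ⊤ := by
      rintro rfl
      have h1 : krullDim L ≤ 3 := krull_le 3 rk (fun a b h => rk_lt hpl h) rk_le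
      rw [hk] at h1
      exact absurd h1 (by decide)
    exact ⟨y, hpl, hco y hpl hy⟩
  · by_cases hy : y = ⊤
    · subst hy
      have hs : IsPlane ⊥ (ofDual (Δ x)) := by
        obtain ⟨e⟩ := hsd x ⊤ le_top
        have e2 := iccDual Δ x ⊤
        rw [Δ.map_top] at e2
        exact isPlane_congr le_top (e.trans e2.dual) hpl
      refine ⟨_, hs, hco _ hs ?_⟩
      intro h
      apply hx
      have h1 : Δ x = Δ ⊥ := by
        rw [Δ.map_bot]; exact h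
      exact Δ.injective h1
    · exfalso
      obtain ⟨a, b, h1, h2, h3⟩ := plane_chain hpl
      exact h5 (krull_ge5 (bot_lt_iff_ne_bot.2 hx) h1 h2 h3 (lt_top_iff_ne_top.2 hy))

/-- the join of the atoms -/
lemma le_of_atoms {s : L} (hs : IsPlane ⊥ s) {u : L} (h : ∀ a, ⊥ ⋖ a → a ≤ u) : s ≤ u := by
  obtain ⟨e⟩ := iic_icc s
  have hP : IsPlane (⊥ : Set.Iic s) ⊤ := isPlane_congr bot_le e hs
  have h1 : (⟨u ⊓ s, inf_le_right⟩ : Set.Iic s) = ⊤ := by
    apply top_of_points hP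
    intro a ha
    have h2 : ⊥ ⋖ (a : L) := (twist_f_atom (OrderIso.refl (Set.Iic s)) (a := a)).2 ha
    exact le_inf (h _ h2) a.2
  have h2 : u ⊓ s = s := congrArg Subtype.val h1
  rw [← h2]; exact inf_le_left

/-- the two parts cover the lattice -/
lemma twist_cover [IsModularLattice L] {r s : L} (hs : IsPlane ⊥ s) (hst : s ⋖ ⊤)
    (hat : ∀ a, ⊥ ⋖ a → a ≤ s) (hco : ∀ c, c ⋖ ⊤ → r ≤ c) (x : L) : x ≤ s ∨ r ≤ x := by
  by_contra hcon
  push Not at hcon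
  obtain ⟨hxs, hrx⟩ := hcon
  have hsup : s ⊔ x = ⊤ := eq_sup_cov hst hxs
  have hcov : s ⊓ x ⋖ x := inf_cov hst hxs
  have hiso := infIccOrderIsoIccSup s x
  have hx1 : x ≠ ⊤ := by
    rintro rfl
    exact hrx le_top
  have hx2 : ¬ x ⋖ ⊤ := fun h => hrx (hco x h)
  obtain ⟨e⟩ := iic_icc s
  have hP : IsPlane (⊥ : Set.Iic s) ⊤ := isPlane_congr bot_le e hs
  have hlift : ∀ {a b : Set.Iic s}, (a : L) ⋖ b ↔ a ⋖ b :=
    fun {a b} => twist_f_cov (OrderIso.refl (Set.Iic s))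
  -- coatoms above `x` from lines above `s ⊓ x`
  have hline : ∀ m : L, s ⊓ x ≤ m → m ⋖ s → m ⊔ x ⋖ ⊤ := by
    intro m h1 h2
    have h3 : (⟨m, h1, h2.le⟩ : Set.Icc (s ⊓ x) s) ⋖ ⟨s, inf_le_left, le_rfl⟩ :=
      ⟨h2.lt, fun c h4 h5 => h2.2 (show m < (c : L) from h4) (show (c : L) < s from h5)⟩
    have h4 := (apply_covBy_apply_iff (infIccOrderIsoIccSup s x)).2 h3
    refine ⟨?_, fun w h5 h6 => ?_⟩
    · have h5 := h4.lt
      have h6 : m ⊔ x < s ⊔ x := h5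
      rwa [hsup] at h6
    · have h7 : w ≤ s ⊔ x := by rw [hsup]; exact le_top
      have h8 : w < s ⊔ x := by rw [hsup]; exact h6
      exact h4.2 (c := ⟨w, le_sup_right.trans h5.le, h7⟩) (show m ⊔ x < w from h5)
        (show w < s ⊔ x from h8)
  rcases hP.1 ⟨s ⊓ x, inf_le_left⟩ bot_le le_top with h | h | h | h
  · -- `x` is an atom
    have h1 : s ⊓ x = ⊥ := congrArg Subtype.val h
    rw [h1] at hcov
    exact hxs (hat x hcov)
  · -- two lines through the point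
    have h0 : s ⊓ x ⋖ s ∨ True := Or.inr trivial
    obtain ⟨l1, l2, h1, h2, h3, h4, h5⟩ : ∃ l1 l2 : Set.Iic s, ⟨s ⊓ x, inf_le_left⟩ ⋖ l1 ∧
        ⟨s ⊓ x, inf_le_left⟩ ⋖ l2 ∧ l1 ⋖ ⊤ ∧ l2 ⋖ ⊤ ∧ l1 ≠ l2 := by
      obtain ⟨-, -, -, -, a, b, c, ⟨ha, hb, hc⟩, -, ⟨hab, hac, hbc⟩, hno⟩ := id hP
      by_contra hcon
      push Not at hcon
      obtain ⟨t, ht⟩ : ∃ t : Set.Iic s, t = ⟨s ⊓ x, inf_le_left⟩ := ⟨_, rfl⟩
      rw [← ht] at h hcon
      obtain ⟨l, hl⟩ := exists_line_point hP h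
      have hall : ∀ d : Set.Iic s, ⊥ ⋖ d → d ≤ l := by
        intro d hd
        by_cases hdt : t = d
        · rw [← hdt]; exact hl.le
        · have h6 := sup_points hP h hd hdt
          have h7 := hcon l (t ⊔ d) hl h6.1 (cov_point hP h hl) h6.2
          rw [h7]; exact le_sup_right
      have h6 := top_of_points hP hall
      exact point_not_coatom hP h (h6 ▸ hl)
    have e1 : (⟨s ⊓ x, inf_le_left⟩ : Set.Iic s) ≤ l1 ⊓ l2 := le_inf h1.le h2.le
    have e2 : l1 ⊓ l2 = ⟨s ⊓ x, inf_le_left⟩ := by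
      rcases eq_or_lt_of_le e1 with h6 | h6
      · exact h6.symm
      · exfalso
        have h7 : l1 ⊓ l2 < l1 := by
          apply lt_of_le_of_ne inf_le_left
          intro h8
          exact h5 (line_eq hP h3 h4 (by rw [← h8]; exact inf_le_right))
        exact h1.2 h6 h7
    have e3 : (l1 : L) ⊓ l2 = s ⊓ x := congrArg Subtype.val e2
    have h6 := hline l1 h1.le (hlift.2 h3)
    have h7 := hline l2 h2.le (hlift.2 h4)
    have h8 : ((l1 : L) ⊔ x) ⊓ (l2 ⊔ x) = x := by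
      have e4 := (infIccOrderIsoIccSup s x).map_inf ⟨(l1 : L), h1.le, l1.2⟩ ⟨(l2 : L), h2.le, l2.2⟩
      have e5 : ((l1 : L) ⊓ l2) ⊔ x = ((l1 : L) ⊔ x) ⊓ (l2 ⊔ x) := congrArg Subtype.val e4
      rw [← e5, e3]
      exact sup_eq_right.2 inf_le_right
    exact hrx (h8 ▸ le_inf (hco _ h6) (hco _ h7))
  · -- a line
    have h1 : s ⊓ x ⋖ s := hlift.2 h
    have h2 := hline (s ⊓ x) le_rfl h1
    rw [sup_eq_right.2 inf_le_right] at h2
    exact hx2 h2
  · have h1 : s ⊓ x = s := congrArg Subtype.val h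
    have h2 : s ≤ x := inf_eq_left.1 h1
    exact hrx ((hco s hst).trans h2)

/-- the structure of the non-complemented lattices of length four with a plane -/
theorem exists_twist [Finite L] [IsModularLattice L] (hsd : SD' L) (hk : krullDim L = 4)
    (hc : ¬ ComplementedLattice L) (hpf : ¬ PlaneFree L) :
    ∃ (P : Type u) (_ : Lattice P) (_ : BoundedOrder P) (p : P)
      (σ : Equiv.Perm {l : P // p ⋖ l}), Finite P ∧ IsPlane (⊥ : P) ⊤ ∧ ⊥ ⋖ p ∧
      Nonempty (P ≃o Pᵒᵈ) ∧ IsTwist P p σ L := by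
  obtain ⟨w⟩ := whole_icc (L := L)
  obtain ⟨Δ⟩ : Nonempty (L ≃o Lᵒᵈ) := sd_trans w (hsd ⊥ ⊤ le_top)
  obtain ⟨s, hs, hst⟩ := exists_bottom_plane hsd hk hpf Δ
  have hat : ∀ a, ⊥ ⋖ a → a ≤ s := by
    intro a ha
    by_contra has
    apply hc
    apply compl_of_atoms
    intro u hu
    have h1 : s ⊔ a = ⊤ := eq_sup_cov hst has
    rw [eq_top_iff, ← h1]
    exact sup_le (le_of_atoms hs hu) (hu a ha)
  -- the duality as an antitone map
  obtain ⟨D, D', hDD', hD'D, hD, hD'⟩ : ∃ D D' : L → L, (∀ x, D (D' x) = x) ∧ (∀ x, D' (D x) = x) ∧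
      (∀ x y, D x ≤ D y ↔ y ≤ x) ∧ ∀ x y, D' x ≤ D' y ↔ y ≤ x := by
    refine ⟨fun x => ofDual (Δ x), fun x => Δ.symm (toDual x), ?_, ?_, ?_, ?_⟩
    · intro x; show ofDual (Δ (Δ.symm (toDual x))) = x; rw [Δ.apply_symm_apply]; rfl
    · intro x; show Δ.symm (Δ x) = x; rw [Δ.symm_apply_apply]
    · intro x y; exact Δ.le_iff_le
    · intro x y; exact Δ.symm.le_iff_le
  have hDl : ∀ x y, D x < D y ↔ y < x := by
    intro x y; rw [lt_iff_le_not_ge, lt_iff_le_not_ge, hD, hD]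
  have hDl' : ∀ x y, D' x < D' y ↔ y < x := by
    intro x y; rw [lt_iff_le_not_ge, lt_iff_le_not_ge, hD', hD']
  have hDc : ∀ x y, D x ⋖ D y ↔ y ⋖ x := by
    intro x y
    constructor
    · rintro ⟨h1, h2⟩
      exact ⟨(hDl _ _).1 h1, fun c h3 h4 => h2 ((hDl _ _).2 h4) ((hDl _ _).2 h3)⟩
    · rintro ⟨h1, h2⟩
      refine ⟨(hDl _ _).2 h1, fun c h3 h4 => ?_⟩
      rw [← hDD' c, hDl] at h3 h4
      exact h2 h4 h3
  have hDb : D ⊥ = ⊤ := by
    apply eq_top_iff.2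
    rw [← hDD' ⊤, hD]; exact bot_le
  have hDt : D ⊤ = ⊥ := by
    apply eq_bot_iff.2
    rw [← hDD' ⊥, hD]; exact le_top
  obtain ⟨r, hr⟩ : ∃ r, r = D s := ⟨_, rfl⟩
  have hr0 : ⊥ ⋖ r := by rw [hr, ← hDt, hDc]; exact hst
  have hco : ∀ c, c ⋖ ⊤ → r ≤ c := by
    intro c hc
    rw [hr, ← hDD' c, hD]
    apply hat
    rw [← hDc, hDD', hDb]; exact hc
  have hglb : ∀ u, (∀ c, c ⋖ ⊤ → u ≤ c) → u ≤ r := by
    intro u hu
    have h1 : s ≤ D' u := by
      apply le_of_atoms hs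
      intro a ha
      rw [← hD, hDD']
      apply hu
      rw [← hDb, hDc]; exact ha
    rw [← hDD' u, hr, hD]; exact h1
  have hDr : D r = s := by
    apply le_antisymm
    · rw [← hDD' s, hD]
      apply hglb
      intro c hc
      rw [← hD, hDD']
      apply hat
      rw [← hDt, hDc]; exact hc
    · apply le_of_atoms hs
      intro a ha
      rw [← hDD' a, hD]
      apply hco
      rw [← hDc, hDD', hDt]; exact ha
  have hD's : D' s = r := by rw [← hDr, hD'D]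
  have hD'r : D' r = s := by rw [hr, hD'D]
  have hrs : r ≤ s := hco s hst
  have hcover := twist_cover hs hst hat hco
  obtain ⟨e⟩ := iic_icc s
  have hP : IsPlane (⊥ : Set.Iic s) ⊤ := isPlane_congr bot_le e hs
  have hlift : ∀ {a b : Set.Iic s}, (a : L) ⋖ b ↔ a ⋖ b :=
    fun {a b} => twist_f_cov (OrderIso.refl (Set.Iic s))
  have hp : (⊥ : Set.Iic s) ⋖ ⟨r, hrs⟩ := hlift.1 hr0
  have hline : ∀ l : Set.Iic s, (⟨r, hrs⟩ : Set.Iic s) ⋖ l → (l : L) ⋖ s := by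
    intro l hl
    exact hlift.2 (cov_point hP hp hl)
  have hD'c : ∀ x y, D' x ⋖ D' y ↔ y ⋖ x := by
    intro x y
    rw [← hDc, hDD', hDD']
  have k1 : ∀ x, D' x ≤ s ↔ r ≤ x := fun x => by
    constructor
    · intro h; rw [← hD', hD'r]; exact h
    · intro h; rw [← hD', hD'r] at h; exact h
  have k2 : ∀ x, r ⋖ D' x ↔ x ⋖ s := fun x => by
    rw [← hD'c s x, hD's]
  have k3 : ∀ x, D x ≤ s ↔ r ≤ x := fun x => by
    rw [← hD x r, hDr]
  have k4 : ∀ x, r ⋖ D x ↔ x ⋖ s := fun x => by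
    rw [← hDc s x, ← hr]
  have k5 : ∀ x, r ≤ D x ↔ x ≤ s := fun x => by
    rw [← hD s x, ← hr]
  obtain ⟨σ, hσ⟩ : ∃ σ : Equiv.Perm {l : Set.Iic s // (⟨r, hrs⟩ : Set.Iic s) ⋖ l},
      ∀ l, ((σ l : Set.Iic s) : L) = D' ((l : Set.Iic s) : L) := by
    refine ⟨⟨fun l => ⟨⟨D' ((l : Set.Iic s) : L), ?_⟩, ?_⟩,
      fun l => ⟨⟨D ((l : Set.Iic s) : L), ?_⟩, ?_⟩, ?_, ?_⟩, ?_⟩
    · exact (k1 _).2 l.2.le
    · exact hlift.1 ((k2 _).2 (hline l l.2))
    · exact (k3 _).2 l.2.le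
    · exact hlift.1 ((k4 _).2 (hline l l.2))
    · intro l
      apply Subtype.ext
      apply Subtype.ext
      exact hDD' _
    · intro l
      apply Subtype.ext
      apply Subtype.ext
      exact hD'D _
    · intro l; rfl
  obtain ⟨e'⟩ := iic_icc' s
  refine ⟨Set.Iic s, inferInstance, inferInstance, ⟨r, hrs⟩, σ, inferInstance, hP, hp,
    sd_trans e' (hsd ⊥ s bot_le), r, s, OrderIso.refl _,
    ⟨⟨fun x => ⟨D ((ofDual x : Set.Iic s) : L), ?_⟩, fun x => toDual ⟨D' x, ?_⟩, ?_, ?_⟩, ?_⟩,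
    hcover, rfl, ?_, ?_⟩
  · exact (k5 _).2 (ofDual x).2
  · exact (k1 _).2 x.2
  · intro x
    exact congrArg toDual (Subtype.ext (hD'D _))
  · intro x
    exact Subtype.ext (hDD' _)
  · intro x y
    exact hD _ _
  · exact hDr
  · intro l
    show ((l : Set.Iic s) : L) = D ((σ l : Set.Iic s) : L)
    rw [hσ, hDD']

end

end Pool.Agent.Helper87.ML2
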