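import Pool.Agent.Helper87.ML2.Class

set_option autoImplicit false

/-! Subplanes of finite projective planes. -/

namespace Pool.Agent.Helper87.ML2

open Pool.Agent.Helper87.ML OrderDual Order

universe u

section

variable {P : Type u} [Lattice P] [BoundedOrder P]

/-- two distinct lines meet in a point -/
lemma inf_lines (h : IsPlane (⊥ : P) ⊤) {l m : P} (hl : l ⋖ ⊤) (hm : m ⋖ ⊤) (hne : l ≠ m) :
    ⊥ ⋖ l ⊓ m := by
  obtain ⟨a, ⟨⟨ha, -⟩, hal, ham⟩, -⟩ := h.2.2.1 l m bot_le hl bot_le hm hne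
  have h1 : a ≤ l ⊓ m := le_inf hal ham
  have h2 : l ⊓ m < l := by
    apply lt_of_le_of_ne inf_le_left
    intro h3
    exact hne (line_eq h hl hm (inf_eq_left.1 h3))
  rcases rk_cases h (l ⊓ m) with ⟨h3, h4⟩ | ⟨h3, h4⟩ | ⟨h3, h4⟩ | ⟨h3, h4⟩
  · rw [h3] at h1
    exact absurd h1 ha.lt.not_ge
  · exact h3
  · have := rk_lt h h2
    rw [h4, rk_line h hl] at this
    omega
  · have := rk_lt h h2
    rw [h4, rk_line h hl] at this
    omega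

/-- four points, no three on a line -/
structure Quad (a b c d : P) : Prop where
  ha : ⊥ ⋖ a
  hb : ⊥ ⋖ b
  hc : ⊥ ⋖ c
  hd : ⊥ ⋖ d
  ab : a ≠ b
  cab : ¬ c ≤ a ⊔ b
  dab : ¬ d ≤ a ⊔ b
  dac : ¬ d ≤ a ⊔ c
  dbc : ¬ d ≤ b ⊔ c

/-- exchange -/
lemma exch (h : IsPlane (⊥ : P) ⊤) {a b c : P} (ha : ⊥ ⋖ a) (hb : ⊥ ⋖ b) (hc : ⊥ ⋖ c)
    (hab : a ≠ b) (hcab : ¬ c ≤ a ⊔ b) : ¬ b ≤ a ⊔ c := by
  intro h1
  have hac : a ≠ c := fun h2 => hcab (h2 ▸ le_sup_left)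
  have h2 := sup_points h ha hc hac
  have h3 := sup_points_eq h ha hb hab h2.2 le_sup_left h1
  exact hcab (h3 ▸ le_sup_right)

lemma exists_quad (h : IsPlane (⊥ : P) ⊤) : ∃ a b c d : P, Quad a b c d := by
  obtain ⟨-, -, -, h4, p, q, r, ⟨hp, hq, hr⟩, -, ⟨hpq, hpr, hqr⟩, hno⟩ := id h
  have hrpq : ¬ r ≤ p ⊔ q := fun h1 =>
    hno _ bot_le (sup_points h hp hq hpq).2 ⟨le_sup_left, le_sup_right, h1⟩
  -- a third point on `q ⊔ r`
  have third : ∀ {l a b : P}, l ⋖ ⊤ → ∃ x, ⊥ ⋖ x ∧ x ≤ l ∧ x ≠ a ∧ x ≠ b := by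
    intro l a b hl
    obtain ⟨x, y, z, ⟨hx, hy, hz⟩, ⟨hxl, hyl, hzl⟩, hxy, hxz, hyz⟩ := h4 l bot_le hl
    by_cases c1 : x = a ∨ x = b
    · by_cases c2 : y = a ∨ y = b
      · refine ⟨z, hz, hzl, ?_, ?_⟩
        · rintro rfl
          rcases c1 with c1 | c1 <;> rcases c2 with c2 | c2
          · exact hxz c1
          · exact hxz c1
          · exact hyz c2
          · exact hxy (c1.trans c2.symm)
        · rintro rfl
          rcases c1 with c1 | c1 <;> rcases c2 with c2 | c2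
          · exact hxy (c1.trans c2.symm)
          · exact hyz c2
          · exact hxz c1
          · exact hxz c1
      · push Not at c2
        exact ⟨y, hy, hyl, c2.1, c2.2⟩
    · push Not at c1
      exact ⟨x, hx, hxl, c1.1, c1.2⟩
  have hqrl := sup_points h hq hr hqr
  obtain ⟨x, hx, hxl, hxq, hxr⟩ := third (a := q) (b := r) hqrl.2
  have hpqr : ¬ p ≤ q ⊔ r := by
    have h1 := exch h hq hp hr (Ne.symm hpq) (by rw [sup_comm]; exact hrpq)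
    rwa [sup_comm] at h1 ⊢
  have hpx : p ≠ x := fun h1 => hpqr (h1 ▸ hxl)
  have hpxl := sup_points h hp hx hpx
  obtain ⟨d, hd, hdl, hdp, hdx⟩ := third (a := p) (b := x) hpxl.2
  -- `q`, `r` are not on `p ⊔ x`
  have hqx : q ⊔ x = q ⊔ r := sup_points_eq h hq hx (Ne.symm hxq) hqrl.2 le_sup_left hxl
  have hrx : r ⊔ x = q ⊔ r := sup_points_eq h hr hx (Ne.symm hxr) hqrl.2 le_sup_right hxl
  have key : ∀ {y : P}, ⊥ ⋖ y → y ⊔ x = q ⊔ r → y ≠ x → ¬ y ≤ p ⊔ x := by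
    intro y hy hyx hne h1
    have h2 := sup_points_eq h hy hx hne hpxl.2 h1 le_sup_right
    rw [hyx] at h2
    exact hpqr (h2 ▸ le_sup_left)
  refine ⟨p, q, r, d, hp, hq, hr, hd, hpq, hrpq, ?_, ?_, ?_⟩
  · intro h1
    have h2 := sup_points_eq h hp hd (Ne.symm hdp) (sup_points h hp hq hpq).2 le_sup_left h1
    have h3 := sup_points_eq h hp hd (Ne.symm hdp) hpxl.2 le_sup_left hdl
    exact key hq hqx (Ne.symm hxq) (by rw [← h3, h2]; exact le_sup_right)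
  · intro h1
    have h2 := sup_points_eq h hp hd (Ne.symm hdp) (sup_points h hp hr hpr).2 le_sup_left h1
    have h3 := sup_points_eq h hp hd (Ne.symm hdp) hpxl.2 le_sup_left hdl
    exact key hr hrx (Ne.symm hxr) (by rw [← h3, h2]; exact le_sup_right)
  · intro h1
    have h2 := sup_points_eq h hd hx hdx hqrl.2 h1 hxl
    have h3 := sup_points_eq h hd hx hdx hpxl.2 hdl le_sup_right
    exact hpqr (by rw [← h2, h3]; exact le_sup_left)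

/-- a sublattice with a quadrangle -/
structure SubP (M : Set P) : Prop where
  bot : ⊥ ∈ M
  top : ⊤ ∈ M
  sup : ∀ x ∈ M, ∀ y ∈ M, x ⊔ y ∈ M
  inf : ∀ x ∈ M, ∀ y ∈ M, x ⊓ y ∈ M
  quad : ∃ a ∈ M, ∃ b ∈ M, ∃ c ∈ M, ∃ d ∈ M, Quad a b c d

/-- three points of the sublattice on every line -/
lemma three_on_line (h : IsPlane (⊥ : P) ⊤) {M : Set P} (hM : SubP M) {l : P} (hlM : l ∈ M)
    (hl : l ⋖ ⊤) : ∃ x ∈ M, ∃ y ∈ M, ∃ z ∈ M, (⊥ ⋖ x ∧ ⊥ ⋖ y ∧ ⊥ ⋖ z) ∧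
      (x ≤ l ∧ y ≤ l ∧ z ≤ l) ∧ x ≠ y ∧ x ≠ z ∧ y ≠ z := by
  -- three points off the line
  have case1 : ∀ u ∈ M, ∀ v ∈ M, ∀ w ∈ M, ⊥ ⋖ u → ⊥ ⋖ v → ⊥ ⋖ w → u ≠ v → ¬ w ≤ u ⊔ v →
      ¬ u ≤ l → ¬ v ≤ l → ¬ w ≤ l → ∃ x ∈ M, ∃ y ∈ M, ∃ z ∈ M, (⊥ ⋖ x ∧ ⊥ ⋖ y ∧ ⊥ ⋖ z) ∧
      (x ≤ l ∧ y ≤ l ∧ z ≤ l) ∧ x ≠ y ∧ x ≠ z ∧ y ≠ z := by
    intro u huM v hvM w hwM hu hv hw huv hwuv hul hvl hwl
    have huw : u ≠ w := fun h1 => hwuv (h1 ▸ le_sup_left)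
    have hvw : v ≠ w := fun h1 => hwuv (h1 ▸ le_sup_right)
    have luv := sup_points h hu hv huv
    have luw := sup_points h hu hw huw
    have lvw := sup_points h hv hw hvw
    have nuv : l ≠ u ⊔ v := fun h1 => hul (h1 ▸ le_sup_left)
    have nuw : l ≠ u ⊔ w := fun h1 => hul (h1 ▸ le_sup_left)
    have nvw : l ≠ v ⊔ w := fun h1 => hvl (h1 ▸ le_sup_left)
    have puv := inf_lines h hl luv.2 nuv
    have puw := inf_lines h hl luw.2 nuw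
    have pvw := inf_lines h hl lvw.2 nvw
    have hwuv' : ¬ v ≤ u ⊔ w := exch h hu hv hw huv hwuv
    have huvw : ¬ u ≤ v ⊔ w := by
      have h1 := exch h hv hu hw (Ne.symm huv) (by rw [sup_comm]; exact hwuv)
      exact h1
    -- a common point of two of the lines is a vertex
    have com : ∀ {s t r x : P}, ⊥ ⋖ s → ⊥ ⋖ x → s ⊔ t ⋖ ⊤ → s ⊔ r ⋖ ⊤ → ¬ r ≤ s ⊔ t →
        x ≤ s ⊔ t → x ≤ s ⊔ r → x = s := by
      intro s t r x hs hx h1 h2 h3 h4 h5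
      by_contra h6
      have h7 := sup_points_eq h hs hx (Ne.symm h6) h1 le_sup_left h4
      have h8 := sup_points_eq h hs hx (Ne.symm h6) h2 le_sup_left h5
      exact h3 (by rw [← h7, h8]; exact le_sup_right)
    refine ⟨_, hM.inf _ hlM _ (hM.sup _ huM _ hvM), _, hM.inf _ hlM _ (hM.sup _ huM _ hwM), _,
      hM.inf _ hlM _ (hM.sup _ hvM _ hwM), ⟨puv, puw, pvw⟩, ⟨inf_le_left, inf_le_left, inf_le_left⟩,
      ?_, ?_, ?_⟩
    · intro h1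
      have h2 := com hu puv luv.2 luw.2 hwuv inf_le_right (h1 ▸ inf_le_right)
      exact hul (h2 ▸ inf_le_left)
    · intro h1
      have h2 : l ⊓ (u ⊔ v) = v := com (t := u) (r := w) hv puv (by rw [sup_comm]; exact luv.2)
        lvw.2 (by rw [sup_comm]; exact hwuv) (by rw [sup_comm v]; exact inf_le_right)
        (h1 ▸ inf_le_right)
      exact hvl (h2 ▸ inf_le_left)
    · intro h1
      have h2 : l ⊓ (u ⊔ w) = w := com (t := u) (r := v) hw puw (by rw [sup_comm]; exact luw.2)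
        (by rw [sup_comm]; exact lvw.2) (by rw [sup_comm]; exact hwuv')
        (by rw [sup_comm w]; exact inf_le_right) (by rw [sup_comm w]; exact h1 ▸ inf_le_right)
      exact hwl (h2 ▸ inf_le_left)
  -- two points on the line
  have case2 : ∀ u ∈ M, ∀ v ∈ M, ∀ w ∈ M, ∀ t ∈ M, ⊥ ⋖ u → ⊥ ⋖ v → ⊥ ⋖ w → ⊥ ⋖ t → u ≠ v →
      w ≠ t → ¬ w ≤ u ⊔ v → ¬ t ≤ u ⊔ v → w ≤ l → t ≤ l →
      ∃ x ∈ M, ∃ y ∈ M, ∃ z ∈ M, (⊥ ⋖ x ∧ ⊥ ⋖ y ∧ ⊥ ⋖ z) ∧
      (x ≤ l ∧ y ≤ l ∧ z ≤ l) ∧ x ≠ y ∧ x ≠ z ∧ y ≠ z := by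
    intro u huM v hvM w hwM t htM hu hv hw ht huv hwt hwuv htuv hwl htl
    have luv := sup_points h hu hv huv
    have nuv : l ≠ u ⊔ v := fun h1 => hwuv (h1 ▸ hwl)
    have puv := inf_lines h hl luv.2 nuv
    refine ⟨w, hwM, t, htM, _, hM.inf _ hlM _ (hM.sup _ huM _ hvM), ⟨hw, ht, puv⟩,
      ⟨hwl, htl, inf_le_left⟩, hwt, ?_, ?_⟩
    · intro h1; exact hwuv (h1 ▸ inf_le_right)
    · intro h1; exact htuv (h1 ▸ inf_le_right)
  obtain ⟨a, haM, b, hbM, c, hcM, d, hdM, Q⟩ := hM.quad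
  obtain ⟨ha, hb, hc, hd, ab, cab, dab, dac, dbc⟩ := Q
  have ac : a ≠ c := fun h1 => cab (h1 ▸ le_sup_left)
  have bc : b ≠ c := fun h1 => cab (h1 ▸ le_sup_right)
  have ad : a ≠ d := fun h1 => dab (h1 ▸ le_sup_left)
  have bd : b ≠ d := fun h1 => dab (h1 ▸ le_sup_right)
  have cd : c ≠ d := fun h1 => dac (h1 ▸ le_sup_right)
  have bac : ¬ b ≤ a ⊔ c := exch h ha hb hc ab cab
  have bad : ¬ b ≤ a ⊔ d := exch h ha hb hd ab dab
  have cad : ¬ c ≤ a ⊔ d := exch h ha hc hd ac dac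
  have abc : ¬ a ≤ b ⊔ c := exch h hb ha hc (Ne.symm ab) (by rw [sup_comm]; exact cab)
  have abd : ¬ a ≤ b ⊔ d := exch h hb ha hd (Ne.symm ab) (by rw [sup_comm]; exact dab)
  have cbd : ¬ c ≤ b ⊔ d := exch h hb hc hd bc dbc
  have acd : ¬ a ≤ c ⊔ d := exch h hc ha hd (Ne.symm ac) (by rw [sup_comm]; exact dac)
  have bcd : ¬ b ≤ c ⊔ d := exch h hc hb hd (Ne.symm bc) (by rw [sup_comm]; exact dbc)
  by_cases h1 : a ≤ l
  · by_cases h2 : b ≤ l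
    · exact case2 c hcM d hdM a haM b hbM hc hd ha hb cd ab acd bcd h1 h2
    · by_cases h3 : c ≤ l
      · exact case2 b hbM d hdM a haM c hcM hb hd ha hc bd ac abd cbd h1 h3
      · by_cases h4 : d ≤ l
        · exact case2 b hbM c hcM a haM d hdM hb hc ha hd bc ad abc dbc h1 h4
        · exact case1 b hbM c hcM d hdM hb hc hd bc dbc h2 h3 h4
  · by_cases h2 : b ≤ l
    · by_cases h3 : c ≤ l
      · exact case2 a haM d hdM b hbM c hcM ha hd hb hc ad bc bad cad h2 h3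
      · by_cases h4 : d ≤ l
        · exact case2 a haM c hcM b hbM d hdM ha hc hb hd ac bd bac dac h2 h4
        · exact case1 a haM c hcM d hdM ha hc hd ac dac h1 h3 h4
    · by_cases h3 : c ≤ l
      · by_cases h4 : d ≤ l
        · exact case2 a haM b hbM c hcM d hdM ha hb hc hd ab cd cab dab h3 h4
        · exact case1 a haM b hbM d hdM ha hb hd ab dab h1 h2 h4
      · exact case1 a haM b hbM c hcM ha hb hc ab cab h1 h2 h3

end

end Pool.Agent.Helper87.ML2
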