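import Pool.Agent.Helper87.ML2.Rank

set_option autoImplicit false

/-! Isomorphisms and duals of twisted gluings. -/

namespace Pool.Agent.Helper87.ML2

open Pool.Agent.Helper87.ML OrderDual Order

universe u v w

section Maps

variable {L L' : Type*} [PartialOrder L] [PartialOrder L']

/-- restriction to principal ideals -/
def iicMap (Φ : L ≃o L') {s : L} {s' : L'} (h : Φ s = s') : Set.Iic s ≃o Set.Iic s' where
  toFun x := ⟨Φ x, by rw [← h]; exact Φ.monotone x.2⟩
  invFun x := ⟨Φ.symm x, by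
    show Φ.symm x ≤ s
    rw [Φ.symm_apply_le, h]; exact x.2⟩
  left_inv x := Subtype.ext (Φ.symm_apply_apply x)
  right_inv x := Subtype.ext (Φ.apply_symm_apply x)
  map_rel_iff' := by
    intro a b
    exact Φ.le_iff_le

/-- restriction to principal filters -/
def iciMap (Φ : L ≃o L') {s : L} {s' : L'} (h : Φ s = s') : Set.Ici s ≃o Set.Ici s' where
  toFun x := ⟨Φ x, by rw [← h]; exact Φ.monotone x.2⟩
  invFun x := ⟨Φ.symm x, by
    show s ≤ Φ.symm x
    rw [Φ.le_symm_apply, h]; exact x.2⟩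
  left_inv x := Subtype.ext (Φ.symm_apply_apply x)
  right_inv x := Subtype.ext (Φ.apply_symm_apply x)
  map_rel_iff' := by
    intro a b
    exact Φ.le_iff_le

end Maps

section

variable {P : Type u} [Lattice P] {p : P} {σ : Equiv.Perm {l : P // p ⋖ l}}
  {L : Type v} [Lattice L]

/-- the data of a twisted gluing -/
structure TwData (P : Type u) [Lattice P] (p : P) (σ : Equiv.Perm {l : P // p ⋖ l}) (L : Type v)
    [Lattice L] where
  r : L
  s : L
  f : P ≃o Set.Iic s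
  g : Pᵒᵈ ≃o Set.Ici r
  cov : ∀ x, x ≤ s ∨ r ≤ x
  fp : (f p : L) = r
  gp : (g (toDual p) : L) = s
  fl : ∀ l : {l : P // p ⋖ l}, (f (l : P) : L) = g (toDual (σ l : P))

lemma IsTwist.data (h : IsTwist P p σ L) : Nonempty (TwData P p σ L) := by
  obtain ⟨r, s, f, g, h1, h2, h3, h4⟩ := h
  exact ⟨⟨r, s, f, g, h1, h2, h3, h4⟩⟩

lemma TwData.isTwist (h : TwData P p σ L) : IsTwist P p σ L :=
  ⟨h.r, h.s, h.f, h.g, h.cov, h.fp, h.gp, h.fl⟩

lemma TwData.rs (h : TwData P p σ L) : h.r ≤ h.s := by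
  rw [← h.fp]; exact (h.f p).2

/-- the dual of a twisted gluing -/
def TwData.dual (h : TwData P p σ L) : TwData P p σ⁻¹ Lᵒᵈ where
  r := toDual h.s
  s := toDual h.r
  f := {
    toFun := fun a => ⟨toDual (h.g (toDual a) : L), (h.g (toDual a)).2⟩
    invFun := fun x => ofDual (h.g.symm ⟨ofDual (x : Lᵒᵈ), x.2⟩)
    left_inv := by
      intro a
      show ofDual (h.g.symm (h.g (toDual a))) = a
      rw [h.g.symm_apply_apply]; rfl
    right_inv := by
      intro x
      apply Subtype.ext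
      show toDual (h.g (h.g.symm ⟨ofDual (x : Lᵒᵈ), x.2⟩) : L) = x
      rw [h.g.apply_symm_apply]; rfl
    map_rel_iff' := by
      intro a b
      show (h.g (toDual b) : L) ≤ h.g (toDual a) ↔ a ≤ b
      exact h.g.le_iff_le }
  g := {
    toFun := fun a => ⟨toDual (h.f (ofDual a) : L), (h.f (ofDual a)).2⟩
    invFun := fun x => toDual (h.f.symm ⟨ofDual (x : Lᵒᵈ), x.2⟩)
    left_inv := by
      intro a
      show toDual (h.f.symm (h.f (ofDual a))) = a
      rw [h.f.symm_apply_apply]; rfl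
    right_inv := by
      intro x
      apply Subtype.ext
      show toDual (h.f (h.f.symm ⟨ofDual (x : Lᵒᵈ), x.2⟩) : L) = x
      rw [h.f.apply_symm_apply]; rfl
    map_rel_iff' := by
      intro a b
      show (h.f (ofDual b) : L) ≤ h.f (ofDual a) ↔ a ≤ b
      exact h.f.le_iff_le }
  cov := by
    intro x
    rcases h.cov (ofDual x) with h1 | h1
    · right; exact h1
    · left; exact h1
  fp := by
    show toDual (h.g (toDual p) : L) = toDual h.s
    rw [h.gp]
  gp := by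
    show toDual (h.f p : L) = toDual h.r
    rw [h.fp]
  fl := by
    intro l
    show toDual (h.g (toDual (l : P)) : L) = toDual (h.f (σ⁻¹ l : P) : L)
    rw [h.fl (σ⁻¹ l)]
    have h1 : σ (σ⁻¹ l) = l := by simp
    rw [h1]

theorem IsTwist.dual (h : IsTwist P p σ L) : IsTwist P p σ⁻¹ Lᵒᵈ := by
  obtain ⟨d⟩ := h.data
  exact d.dual.isTwist

end

section

variable {P : Type u} [Lattice P] [BoundedOrder P] {p : P} {σ : Equiv.Perm {l : P // p ⋖ l}}
  {P' : Type v} [Lattice P'] [BoundedOrder P'] {p' : P'} {σ' : Equiv.Perm {l : P' // p' ⋖ l}}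
  (hP : IsPlane (⊥ : P) ⊤) (hp : ⊥ ⋖ p) (hP' : IsPlane (⊥ : P') ⊤) (hp' : ⊥ ⋖ p')
  {L : Type w} [Lattice L] {L' : Type*} [Lattice L']

include hP hp in
theorem twist_iso_of (h : IsTwist P p σ L) (h' : IsTwist P' p' σ' L') (α β : P ≃o P')
    (hα : α p = p') (hβ : β p = p')
    (hc : ∀ (l : {l : P // p ⋖ l}) (l' : {l : P' // p' ⋖ l}), (l' : P') = α l →
      β (σ l : P) = σ' l') : Nonempty (L ≃o L') := by
  obtain ⟨r, s, f, g, hcov, hfp, hgp, hl⟩ := h
  obtain ⟨r', s', f', g', hcov', hfp', hgp', hl'⟩ := h'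
  have hrs : r ≤ s := by rw [← hfp]; exact (f p).2
  have hrs' : r' ≤ s' := by rw [← hfp']; exact (f' p').2
  obtain ⟨F, -, -⟩ := glueIso hcov hcov' hrs hrs' (f.symm.trans (α.trans f'))
    (g.symm.trans (β.dual.trans g')) (by
      intro x h1 h2
      obtain ⟨a, ha⟩ : ∃ a, f a = ⟨x, h1⟩ := ⟨f.symm ⟨x, h1⟩, f.apply_symm_apply _⟩
      have hax : (f a : L) = x := by rw [ha]
      have e1 : ((f.symm.trans (α.trans f')) ⟨x, h1⟩ : L') = f' (α a) := by
        rw [← ha]
        show (f' (α (f.symm (f a))) : L') = _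
        rw [f.symm_apply_apply]
      have e2 : ∀ b : P, (g (toDual b) : L) = x →
          ((g.symm.trans (β.dual.trans g')) ⟨x, h2⟩ : L') = g' (toDual (β b)) := by
        intro b hb
        have hb' : g (toDual b) = ⟨x, h2⟩ := Subtype.ext hb
        rw [← hb']
        show (g' (toDual (β (ofDual (g.symm (g (toDual b)))))) : L') = _
        rw [g.symm_apply_apply]; rfl
      rw [e1]
      have hpa : p ≤ a := by
        rw [← f.le_iff_le]
        show (f p : L) ≤ f a
        rw [hfp, hax]; exact h2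
      rcases above_point hP hp hpa with h3 | h3 | h3
      · -- `a = p`
        subst h3
        have hxr : x = r := by rw [← hax, hfp]
        have hg1 : (g (toDual ⊤) : L) = x := by
          apply le_antisymm _ (by rw [hxr]; exact (g (toDual ⊤)).2)
          have h4 : g (toDual ⊤) ≤ ⟨x, h2⟩ := by
            rw [← g.le_symm_apply]; exact (le_top : ofDual (g.symm ⟨x, h2⟩) ≤ (⊤ : P))
          exact h4
        rw [e2 ⊤ hg1, hα, hfp', β.map_top]
        apply le_antisymm (g' (toDual ⊤)).2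
        have h4 : g' (toDual ⊤) ≤ ⟨r', le_rfl⟩ := by
          rw [← g'.le_symm_apply]; exact (le_top : ofDual (g'.symm ⟨r', le_rfl⟩) ≤ (⊤ : P'))
        exact h4
      · -- `a` a line
        have h4 : p' ⋖ α a := by
          rw [← hα, apply_covBy_apply_iff]; exact h3.1
        rw [e2 (σ ⟨a, h3.1⟩ : P) (by rw [← hl ⟨a, h3.1⟩, hax]), hc ⟨a, h3.1⟩ ⟨α a, h4⟩ rfl]
        exact hl' ⟨α a, h4⟩
      · -- `a = ⊤`
        subst h3
        have hxs : x = s := by
          apply le_antisymm h1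
          rw [← hax]
          have h4 : (⟨s, le_rfl⟩ : Set.Iic s) ≤ f ⊤ := by
            rw [← f.symm_apply_le]; exact le_top
          exact h4
        rw [e2 p (by rw [hgp, hxs]), hβ, hgp', α.map_top]
        apply le_antisymm (f' ⊤).2
        have h4 : (⟨s', le_rfl⟩ : Set.Iic s') ≤ f' ⊤ := by
          rw [← f'.symm_apply_le]; exact le_top
        exact h4)
  exact ⟨F⟩

end

section

variable {P : Type u} [Lattice P] [BoundedOrder P]

lemma top_of_points (hP : IsPlane (⊥ : P) ⊤) {v : P} (h : ∀ a, ⊥ ⋖ a → a ≤ v) : v = ⊤ := by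
  obtain ⟨-, -, -, -, a, b, c, ⟨ha, hb, hc⟩, -, ⟨hab, -, -⟩, hno⟩ := id hP
  rcases hP.1 v bot_le le_top with h1 | h1 | h1 | h1
  · exfalso
    have := h a ha
    rw [h1] at this
    exact ha.lt.not_ge this
  · exfalso
    have h2 : a = v := by
      rcases eq_or_lt_of_le (h a ha) with h2 | h2
      · exact h2
      · exact absurd h2 (h1.2 ha.lt)
    have h3 : b = v := by
      rcases eq_or_lt_of_le (h b hb) with h2 | h2
      · exact h2
      · exact absurd h2 (h1.2 hb.lt)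
    exact hab (h2.trans h3.symm)
  · exact absurd ⟨h a ha, h b hb, h c hc⟩ (hno v bot_le h1)
  · exact h1

variable {p : P} {σ : Equiv.Perm {l : P // p ⋖ l}} {L : Type v} [Lattice L] [BoundedOrder L]

lemma twist_f_bot {s : L} (f : P ≃o Set.Iic s) : (f ⊥ : L) = ⊥ := by
  have h4 : f ⊥ ≤ ⟨⊥, bot_le⟩ := by
    rw [← f.le_symm_apply]; exact bot_le
  exact le_bot_iff.1 h4

lemma twist_f_cov {s : L} (f : P ≃o Set.Iic s) {a b : P} : (f a : L) ⋖ f b ↔ a ⋖ b := by
  rw [← apply_covBy_apply_iff f]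
  constructor
  · intro h
    exact ⟨h.lt, fun c h1 h2 => h.2 (show (f a : L) < c from h1) (show (c : L) < f b from h2)⟩
  · intro h
    refine ⟨h.lt, fun c h1 h2 => ?_⟩
    exact h.2 (show f a < ⟨c, h2.le.trans (f b).2⟩ from h1)
      (show (⟨c, h2.le.trans (f b).2⟩ : Set.Iic s) < f b from h2)

lemma twist_f_atom {s : L} (f : P ≃o Set.Iic s) {a : P} : ⊥ ⋖ (f a : L) ↔ ⊥ ⋖ a := by
  rw [← twist_f_cov f, twist_f_bot f]

/-- the atoms of a twisted gluing are below `s`, and their join is `s` -/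
lemma twist_lub (hP : IsPlane (⊥ : P) ⊤) (hp : ⊥ ⋖ p) {r s : L} (f : P ≃o Set.Iic s)
    (hc : ∀ x, x ≤ s ∨ r ≤ x) (hfp : (f p : L) = r) :
    (∀ x : L, ⊥ ⋖ x → x ≤ s) ∧ ∀ u : L, (∀ x : L, ⊥ ⋖ x → x ≤ u) → s ≤ u := by
  constructor
  · intro x hx
    rcases hc x with h | h
    · exact h
    · have hr : ⊥ < r := by
        rw [← hfp]; exact ((twist_f_atom f).2 hp).lt
      rcases eq_or_lt_of_le h with h1 | h1
      · rw [← h1, ← hfp]; exact (f p).2
      · exact absurd h1 (hx.2 hr)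
  · intro u hu
    have h1 : f.symm ⟨u ⊓ s, inf_le_right⟩ = ⊤ := by
      apply top_of_points hP
      intro a ha
      rw [f.le_symm_apply]
      exact le_inf (hu _ ((twist_f_atom f).2 ha)) (f a).2
    have h2 : (⟨s, le_rfl⟩ : Set.Iic s) ≤ ⟨u ⊓ s, inf_le_right⟩ := by
      rw [← f.apply_symm_apply ⟨u ⊓ s, inf_le_right⟩, h1, ← f.symm_apply_le]
      exact le_top
    exact (show s ≤ u ⊓ s from h2).trans inf_le_left

end

section

variable {P : Type u} [Lattice P] [BoundedOrder P] {p : P} {σ : Equiv.Perm {l : P // p ⋖ l}}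
  {P' : Type v} [Lattice P'] [BoundedOrder P'] {p' : P'} {σ' : Equiv.Perm {l : P' // p' ⋖ l}}
  (hP : IsPlane (⊥ : P) ⊤) (hp : ⊥ ⋖ p) (hP' : IsPlane (⊥ : P') ⊤) (hp' : ⊥ ⋖ p')
  {L : Type w} [Lattice L] [BoundedOrder L] {L' : Type*} [Lattice L'] [BoundedOrder L']

include hP hp hP' hp' in
lemma twist_s {r s : L} {r' s' : L'} (f : P ≃o Set.Iic s) (f' : P' ≃o Set.Iic s')
    (hc : ∀ x, x ≤ s ∨ r ≤ x) (hc' : ∀ x, x ≤ s' ∨ r' ≤ x) (hfp : (f p : L) = r)
    (hfp' : (f' p' : L') = r') (Φ : L ≃o L') : Φ s = s' := by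
  obtain ⟨h1, h2⟩ := twist_lub hP hp f hc hfp
  obtain ⟨h1', h2'⟩ := twist_lub hP' hp' f' hc' hfp'
  have hat : ∀ x : L, ⊥ ⋖ Φ x ↔ ⊥ ⋖ x := by
    intro x
    rw [← apply_covBy_apply_iff Φ, Φ.map_bot]
  apply le_antisymm
  · rw [← Φ.le_symm_apply]
    apply h2
    intro x hx
    rw [Φ.le_symm_apply]
    exact h1' _ ((hat x).2 hx)
  · apply h2'
    intro x hx
    rw [← Φ.symm_apply_le]
    apply h1
    rw [← hat, Φ.apply_symm_apply]; exact hx

include hP hp hP' hp' in
/-- the isomorphism criterion -/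
theorem twist_iso_iff (h : IsTwist P p σ L) (h' : IsTwist P' p' σ' L') :
    Nonempty (L ≃o L') ↔ ∃ α β : P ≃o P', α p = p' ∧ β p = p' ∧
      ∀ (l : {l : P // p ⋖ l}) (l' : {l : P' // p' ⋖ l}), (l' : P') = α l →
        β (σ l : P) = σ' l' := by
  constructor
  · rintro ⟨Φ⟩
    obtain ⟨d⟩ := h.data
    obtain ⟨d'⟩ := h'.data
    have hs : Φ d.s = d'.s := twist_s hP hp hP' hp' d.f d'.f d.cov d'.cov d.fp d'.fp Φ
    have hr : Φ d.r = d'.r := by
      have := twist_s hP hp hP' hp' d.dual.f d'.dual.f d.dual.cov d'.dual.cov d.dual.fp d'.dual.fp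
        Φ.dual
      exact this
    have hfα : ∀ a, (d'.f (((d.f.trans (iicMap Φ hs)).trans d'.f.symm) a) : L') = Φ (d.f a) := by
      intro a
      show (d'.f (d'.f.symm (iicMap Φ hs (d.f a))) : L') = _
      rw [d'.f.apply_symm_apply]; rfl
    obtain ⟨α, hα⟩ : ∃ α : P ≃o P', ∀ a, (d'.f (α a) : L') = Φ (d.f a) := ⟨_, hfα⟩
    have hgβ : ∀ a, (d'.g (((d.g.trans (iciMap Φ hr)).trans d'.g.symm) a) : L') = Φ (d.g a) := by
      intro a
      show (d'.g (d'.g.symm (iciMap Φ hr (d.g a))) : L') = _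
      rw [d'.g.apply_symm_apply]; rfl
    obtain ⟨β, hβ⟩ : ∃ β : P ≃o P', ∀ a, (d'.g (toDual (β a)) : L') = Φ (d.g (toDual a)) := by
      refine ⟨(OrderIso.dual ((d.g.trans (iciMap Φ hr)).trans d'.g.symm) : Pᵒᵈᵒᵈ ≃o P'ᵒᵈᵒᵈ), ?_⟩
      intro a
      exact hgβ (toDual a)
    refine ⟨α, β, ?_, ?_, ?_⟩
    · apply d'.f.injective
      apply Subtype.ext
      rw [hα, d.fp, hr, d'.fp]
    · have h1 : toDual (β p) = toDual p' := by
        apply d'.g.injective
        apply Subtype.ext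
        rw [hβ, d.gp, hs, d'.gp]
      exact h1
    · intro l l' hll
      have h1 : toDual (β (σ l : P)) = toDual (σ' l' : P') := by
        apply d'.g.injective
        apply Subtype.ext
        rw [hβ, ← d.fl l, ← hα, ← d'.fl l', hll]
      exact h1
  · rintro ⟨α, β, h1, h2, h3⟩
    exact twist_iso_of hP hp h h' α β h1 h2 h3

end

end Pool.Agent.Helper87.ML2
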